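import Pool.Agent.Work.MP_9ac17e_al.Defs
import Pool.Agent.Work.PR.Auto
import Pool.Agent.Work.MP_9ac17e_al.Quot

/-! Bundle of small proof modules (one section per former module). -/

section

/-!
# Base change of normal form data
-/

set_option autoImplicit false

namespace Pool.Agent.Work.MP_9ac17e_al

section base

variable {K C L : Type} [Field K] [Field L] [Algebra K L] (val : C → K)

theorem entry_base (l : List C) (i : ℕ) :
    entry (fun a => algebraMap K L (val a)) l i = algebraMap K L (entry val l i) := by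
  unfold entry
  cases l[i]? with
  | none => simp
  | some a => simp

theorem P_base (c : NC C) (z : Fin c.1 × Fin c.1 → K) :
    (ndOf (fun a => algebraMap K L (val a)) c).P (fun cd => algebraMap K L (z cd)) =
      fun ab => algebraMap K L ((ndOf val c).P z ab) := by
  funext ab
  change ∑ cd : Fin c.1 × Fin c.1, entry (fun a => algebraMap K L (val a)) c.2.1
      ((ab.1 * c.1 + ab.2) * (c.1 * c.1) + (cd.1 * c.1 + cd.2)) * algebraMap K L (z cd) =
    algebraMap K L (∑ cd : Fin c.1 × Fin c.1, entry val c.2.1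
      ((ab.1 * c.1 + ab.2) * (c.1 * c.1) + (cd.1 * c.1 + cd.2)) * z cd)
  rw [map_sum]
  exact Finset.sum_congr rfl fun cd _ => by rw [map_mul, entry_base]

theorem M_base (c : NC C) (z : Fin c.1 × Fin c.1 → K) :
    (ndOf (fun a => algebraMap K L (val a)) c).M (fun cd => algebraMap K L (z cd)) =
      fun a => algebraMap K L ((ndOf val c).M z a) := by
  funext a
  change ∑ cd : Fin c.1 × Fin c.1, entry (fun a => algebraMap K L (val a)) c.2.2
      (a * (c.1 * c.1) + (cd.1 * c.1 + cd.2)) * algebraMap K L (z cd) =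
    algebraMap K L (∑ cd : Fin c.1 × Fin c.1, entry val c.2.2
      (a * (c.1 * c.1) + (cd.1 * c.1 + cd.2)) * z cd)
  rw [map_sum]
  exact Finset.sum_congr rfl fun cd _ => by rw [map_mul, entry_base]

theorem eq_sum_base (n : ℕ) (z : Fin n × Fin n → L) :
    z = ∑ cd : Fin n × Fin n, z cd •
      (fun x => algebraMap K L ((Pi.single cd (1 : K) : Fin n × Fin n → K) x)) := by
  funext x
  simp only [Finset.sum_apply, Pi.smul_apply, smul_eq_mul]
  rw [Finset.sum_eq_single x]
  · simp
  · intro cd _ hcd
    simp [Ne.symm hcd]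
  · intro h
    exact absurd (Finset.mem_univ x) h

theorem lin_base (n : ℕ) {V : Type} [AddCommGroup V] [Module L V]
    (F : (Fin n × Fin n → L) →ₗ[L] V) (z : Fin n × Fin n → L) :
    F z = ∑ cd : Fin n × Fin n, z cd •
      F (fun x => algebraMap K L ((Pi.single cd (1 : K) : Fin n × Fin n → K) x)) := by
  conv_lhs => rw [eq_sum_base (K := K) n z]
  rw [map_sum]
  exact Finset.sum_congr rfl fun cd _ => map_smul _ _ _

theorem ok_base (c : NC C) (h : (ndOf val c).Ok) :
    (ndOf (fun a => algebraMap K L (val a)) c).Ok := by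
  set P' : (Fin c.1 × Fin c.1 → L) →ₗ[L] (Fin c.1 × Fin c.1 → L) :=
    (ndOf (fun a => algebraMap K L (val a)) c).P with hP'
  set M' : (Fin c.1 × Fin c.1 → L) →ₗ[L] (Fin c.1 → L) :=
    (ndOf (fun a => algebraMap K L (val a)) c).M with hM'
  set P : (Fin c.1 × Fin c.1 → K) →ₗ[K] (Fin c.1 × Fin c.1 → K) := (ndOf val c).P with hP
  set M : (Fin c.1 × Fin c.1 → K) →ₗ[K] (Fin c.1 → K) := (ndOf val c).M with hM
  have hPb : ∀ z : Fin c.1 × Fin c.1 → K, P' (fun cd => algebraMap K L (z cd)) =
      fun ab => algebraMap K L (P z ab) := P_base val c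
  have hMb : ∀ z : Fin c.1 × Fin c.1 → K, M' (fun cd => algebraMap K L (z cd)) =
      fun a => algebraMap K L (M z a) := M_base val c
  have h1 : ∀ z, P (P z) = P z := h.1
  have h2 : ∀ z, M (P z) = 0 := h.2
  have h3 : ∀ z, P' (P' z) = P' z := by
    intro z
    have h4 := lin_base (K := K) c.1 (P' ∘ₗ P') z
    have h5 := lin_base (K := K) c.1 P' z
    rw [LinearMap.comp_apply] at h4
    rw [h4, h5]
    refine Finset.sum_congr rfl fun cd _ => ?_
    rw [LinearMap.comp_apply, hPb, hPb, h1]
  have h4 : ∀ z, M' (P' z) = 0 := by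
    intro z
    have h4 := lin_base (K := K) c.1 (M' ∘ₗ P') z
    rw [LinearMap.comp_apply] at h4
    rw [h4]
    refine Finset.sum_eq_zero fun cd _ => ?_
    rw [LinearMap.comp_apply, hPb, hMb, h2]
    funext a
    simp
  exact ⟨h3, h4⟩

theorem rd_base (c : NC C) (hk : (ndOf val c).Ok) (h : (ndOf val c).Rd) :
    (ndOf (fun a => algebraMap K L (val a)) c).Rd := by
  set P' : (Fin c.1 × Fin c.1 → L) →ₗ[L] (Fin c.1 × Fin c.1 → L) :=
    (ndOf (fun a => algebraMap K L (val a)) c).P with hP'
  set M' : (Fin c.1 × Fin c.1 → L) →ₗ[L] (Fin c.1 → L) :=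
    (ndOf (fun a => algebraMap K L (val a)) c).M with hM'
  set P : (Fin c.1 × Fin c.1 → K) →ₗ[K] (Fin c.1 × Fin c.1 → K) := (ndOf val c).P with hP
  set M : (Fin c.1 × Fin c.1 → K) →ₗ[K] (Fin c.1 → K) := (ndOf val c).M with hM
  have _ := hk
  have hPb : ∀ z : Fin c.1 × Fin c.1 → K, P' (fun cd => algebraMap K L (z cd)) =
      fun ab => algebraMap K L (P z ab) := P_base val c
  have hMb : ∀ z : Fin c.1 × Fin c.1 → K, M' (fun cd => algebraMap K L (z cd)) =
      fun a => algebraMap K L (M z a) := M_base val c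
  set S : Submodule K (Fin c.1 → K) := Submodule.span K {x : Fin c.1 → K | ∃ w, P w = 0 ∧
    ∃ i : Fin c.1, x = (fun a => w (i, a)) ∨ x = (fun a => w (a, i))} with hS
  set S' : Submodule L (Fin c.1 → L) := Submodule.span L {x : Fin c.1 → L | ∃ w, P' w = 0 ∧
    ∃ i : Fin c.1, x = (fun a => w (i, a)) ∨ x = (fun a => w (a, i))} with hS'
  have h1 : ∀ z, M z ∈ S := h
  have h2 : ∀ x ∈ S, (fun a => algebraMap K L (x a)) ∈ S' := by
    intro x hx
    refine Submodule.span_induction (p := fun x _ => (fun a => algebraMap K L (x a)) ∈ S')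
      ?_ ?_ ?_ ?_ hx
    · rintro x ⟨w, hw, i, hx⟩
      refine Submodule.subset_span ⟨fun ab => algebraMap K L (w ab), ?_, i, ?_⟩
      · rw [hPb, hw]
        funext ab
        simp
      · rcases hx with hx | hx
        · left
          rw [hx]
        · right
          rw [hx]
    · have h0 : (fun a => algebraMap K L ((0 : Fin c.1 → K) a)) = (0 : Fin c.1 → L) := by
        funext a
        exact map_zero _
      rw [h0]
      exact Submodule.zero_mem _
    · intro x y _ _ hx hy
      have h0 : (fun a => algebraMap K L ((x + y) a)) =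
          (fun a => algebraMap K L (x a)) + (fun a => algebraMap K L (y a)) := by
        funext a
        exact map_add _ _ _
      rw [h0]
      exact Submodule.add_mem _ hx hy
    · intro r x _ hx
      have h0 : (fun a => algebraMap K L ((r • x) a)) =
          algebraMap K L r • (fun a => algebraMap K L (x a)) := by
        funext a
        exact map_mul _ _ _
      rw [h0]
      exact Submodule.smul_mem _ _ hx
  have h3 : ∀ z, M' z ∈ S' := by
    intro z
    rw [lin_base (K := K) c.1 M' z]
    refine Submodule.sum_mem _ fun cd _ => Submodule.smul_mem _ _ ?_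
    rw [hMb]
    exact h2 _ (h1 _)
  exact h3

end base

end Pool.Agent.Work.MP_9ac17e_al

end

section

/-!
# The universal property implies closedness
-/

set_option autoImplicit false

namespace Pool.Agent.Work.MP_9ac17e_al

open TensorProduct

namespace ClosedAux

variable {K : Type} [Field K] {A : Type} [AddCommGroup A] [Module K A]
  (m : A →ₗ[K] A →ₗ[K] A) (V : Submodule K A)

/-- The relations of the test algebra. -/
noncomputable def NN : Submodule K (V × (A ⊗[K] A)) :=
  (sq V).comap (LinearMap.snd K V (A ⊗[K] A)) ⊓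
    LinearMap.ker (V.subtype ∘ₗ LinearMap.fst K V (A ⊗[K] A) +
      mt m ∘ₗ LinearMap.snd K V (A ⊗[K] A))

/-- The map of the test algebra to `A`. -/
noncomputable def bet : ((V × (A ⊗[K] A)) ⧸ NN m V) →ₗ[K] A :=
  (NN m V).liftQ (V.subtype ∘ₗ LinearMap.fst K V (A ⊗[K] A) +
      mt m ∘ₗ LinearMap.snd K V (A ⊗[K] A)) inf_le_right

theorem bet_mk (v : V) (z : A ⊗[K] A) :
    bet m V (Submodule.Quotient.mk (v, z)) = (v : A) + mt m z := rfl

/-- The inclusion of `A ⊗ A`. -/
noncomputable def inn : A ⊗[K] A →ₗ[K] ((V × (A ⊗[K] A)) ⧸ NN m V) :=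
  (NN m V).mkQ ∘ₗ LinearMap.inr K V (A ⊗[K] A)

/-- The inclusion of `V`. -/
noncomputable def inj : V →ₗ[K] ((V × (A ⊗[K] A)) ⧸ NN m V) :=
  (NN m V).mkQ ∘ₗ LinearMap.inl K V (A ⊗[K] A)

/-- The multiplication of the test algebra. -/
noncomputable def mb : ((V × (A ⊗[K] A)) ⧸ NN m V) →ₗ[K] ((V × (A ⊗[K] A)) ⧸ NN m V) →ₗ[K]
    ((V × (A ⊗[K] A)) ⧸ NN m V) :=
  ((TensorProduct.mk K A A).compr₂ (inn m V)).compl₁₂ (bet m V) (bet m V)

theorem mb_apply (b b' : (V × (A ⊗[K] A)) ⧸ NN m V) :
    mb m V b b' = inn m V (bet m V b ⊗ₜ bet m V b') := rfl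

theorem mt_mb (z : ((V × (A ⊗[K] A)) ⧸ NN m V) ⊗[K] ((V × (A ⊗[K] A)) ⧸ NN m V)) :
    mt (mb m V) z = inn m V (TensorProduct.map (bet m V) (bet m V) z) := by
  have h : mt (mb m V) = inn m V ∘ₗ TensorProduct.map (bet m V) (bet m V) := by
    apply TensorProduct.ext'
    intro x y
    simp [mt, mb_apply]
  rw [h]
  rfl

theorem bet_inn (z : A ⊗[K] A) : bet m V (inn m V z) = mt m z := by
  have : inn m V z = Submodule.Quotient.mk ((0 : V), z) := rfl
  rw [this, bet_mk]
  simp

theorem bet_inj (v : V) : bet m V (inj m V v) = v := by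
  have : inj m V v = Submodule.Quotient.mk (v, (0 : A ⊗[K] A)) := rfl
  rw [this, bet_mk]
  simp

theorem bet_inj_comp : bet m V ∘ₗ inj m V = V.subtype := by
  ext v
  exact bet_inj m V v

end ClosedAux

open ClosedAux in
/-- If `A` has the universal property with respect to `V` then `V` is closed. -/
theorem closed_of_UP {K : Type} [Field K] {A : Type} [AddCommGroup A] [Module K A]
    (m : A →ₗ[K] A →ₗ[K] A) {V : Submodule K A} (hG : Gen m V) (h : UP m V) : Closed m V := by
  obtain ⟨φ, hφ, hj⟩ := h ((V × (A ⊗[K] A)) ⧸ NN m V) (mb m V) (inj m V) (by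
    intro w v hw
    rw [mt_mb]
    have h1 : TensorProduct.map (bet m V) (bet m V) (TensorProduct.map (inj m V) (inj m V) w) =
        TensorProduct.map V.subtype V.subtype w := by
      rw [← LinearMap.comp_apply, ← TensorProduct.map_comp, bet_inj_comp]
    rw [h1]
    show (Submodule.Quotient.mk _ : (V × (A ⊗[K] A)) ⧸ NN m V) = Submodule.Quotient.mk _
    rw [Submodule.Quotient.eq]
    refine ⟨?_, ?_⟩
    · refine ⟨w, ?_⟩
      simp
    · rw [SetLike.mem_coe, LinearMap.mem_ker]
      simp [hw])
  -- `β φ = id`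
  have hid : ∀ a : A, bet m V (φ a) = a := by
    let S : Submodule K A := LinearMap.eqLocus (bet m V ∘ₗ φ) LinearMap.id
    have hS : S = ⊤ := by
      apply hG S
      · intro v hv
        show bet m V (φ v) = v
        have := hj ⟨v, hv⟩
        simp only at this
        rw [this, bet_inj]
      · intro x hx y hy
        have hx' : bet m V (φ x) = x := hx
        have hy' : bet m V (φ y) = y := hy
        show bet m V (φ (m x y)) = m x y
        rw [hφ, mb_apply, bet_inn, hx', hy']
        simp [mt]
    intro a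
    have : a ∈ S := by
      rw [hS]
      trivial
    exact this
  intro z hz
  have hz' : mt m z ∈ V := hz
  have h1 : φ (mt m z) = inj m V ⟨mt m z, hz'⟩ := hj ⟨mt m z, hz'⟩
  have h2 : φ (mt m z) = inn m V z := by
    have h3 : φ ∘ₗ mt m = mt (mb m V) ∘ₗ TensorProduct.map φ φ := by
      apply TensorProduct.ext'
      intro x y
      have := hφ x y
      simpa [mt] using this
    have h4 : φ (mt m z) = mt (mb m V) (TensorProduct.map φ φ z) := by
      have := LinearMap.congr_fun h3 z
      simpa using this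
    have h5 : bet m V ∘ₗ φ = LinearMap.id := by
      ext a
      exact hid a
    have h6 : TensorProduct.map (bet m V) (bet m V) (TensorProduct.map φ φ z) = z := by
      rw [← LinearMap.comp_apply, ← TensorProduct.map_comp, h5, TensorProduct.map_id]
      rfl
    rw [h4, mt_mb, h6]
  have h3 : (Submodule.Quotient.mk ((0 : V), z) : (V × (A ⊗[K] A)) ⧸ NN m V) =
      Submodule.Quotient.mk ((⟨mt m z, hz'⟩ : V), (0 : A ⊗[K] A)) := by
    exact h2.symm.trans h1
  rw [Submodule.Quotient.eq] at h3
  have h4 := h3.1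
  simpa using h4

end Pool.Agent.Work.MP_9ac17e_al

end

section

/-!
# The encoding of normal form data in a finite-dimensional algebra
-/

set_option autoImplicit false

namespace Pool.Agent.Work.MP_9ac17e_al

namespace EncIso

variable {K : Type} [Field K]

theorem tens_zero_left {n : ℕ} (y : Fin n → K) : tens (0 : Fin n → K) y = 0 := by
  funext ab
  simp [tens]

theorem tens_zero_right {n : ℕ} (x : Fin n → K) : tens x (0 : Fin n → K) = 0 := by
  funext ab
  simp [tens]

theorem expand {n : ℕ} (z : Fin n × Fin n → K) :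
    z = ∑ c : Fin n, ∑ d : Fin n, z (c, d) • tens (Pi.single c (1 : K)) (Pi.single d (1 : K)) := by
  funext ab
  obtain ⟨a, b⟩ := ab
  simp only [Finset.sum_apply, Pi.smul_apply, smul_eq_mul, tens]
  rw [Finset.sum_eq_single a, Finset.sum_eq_single b]
  · simp
  · intro d _ hd
    simp [Pi.single_apply, Ne.symm hd]
  · intro h
    exact absurd (Finset.mem_univ _) h
  · intro c _ hc
    refine Finset.sum_eq_zero (fun d _ => ?_)
    simp [Pi.single_apply, Ne.symm hc]
  · intro h
    exact absurd (Finset.mem_univ _) h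

theorem ext_tens {n : ℕ} {W : Type} [AddCommGroup W] [Module K W]
    (f h : (Fin n × Fin n → K) →ₗ[K] W) (H : ∀ x y : Fin n → K, f (tens x y) = h (tens x y)) :
    ∀ z, f z = h z := by
  intro z
  rw [expand z]
  simp only [map_sum, map_smul, H]

theorem sum_single {n : ℕ} (x : Fin n → K) : x = ∑ c : Fin n, x c • Pi.single c (1 : K) := by
  funext a
  simp [Finset.sum_apply, Pi.single_apply]

theorem tsq_tens {n k : ℕ} (g : (Fin n → K) →ₗ[K] (Fin k → K)) (x y : Fin n → K) :
    tsq g (tens x y) = tens (g x) (g y) := by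
  funext ab
  have hx : g x = ∑ c : Fin n, x c • g (Pi.single c 1) := by
    conv_lhs => rw [sum_single x]
    simp only [map_sum, map_smul]
  have hy : g y = ∑ c : Fin n, y c • g (Pi.single c 1) := by
    conv_lhs => rw [sum_single y]
    simp only [map_sum, map_smul]
  show ∑ c : Fin n, ∑ d : Fin n,
    tens x y (c, d) * (g (Pi.single c 1) ab.1 * g (Pi.single d 1) ab.2) = (g x) ab.1 * (g y) ab.2
  rw [hx, hy]
  simp only [Finset.sum_apply, Pi.smul_apply, smul_eq_mul, tens, Finset.sum_mul_sum]
  refine Finset.sum_congr rfl (fun c _ => Finset.sum_congr rfl (fun d _ => ?_))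
  ring

theorem tsq_injective {n k : ℕ} (g : (Fin n → K) ≃ₗ[K] (Fin k → K)) (z : Fin n × Fin n → K)
    (hz : tsq g.toLinearMap z = 0) : z = 0 := by
  have h : ∀ z, tsq g.symm.toLinearMap (tsq g.toLinearMap z) = z := by
    have := ext_tens (K := K) (n := n) ((tsq g.symm.toLinearMap).comp (tsq g.toLinearMap))
      LinearMap.id (fun x y => by
        simp only [LinearMap.comp_apply, tsq_tens, LinearMap.id_apply]
        simp)
    intro z
    simpa using this z
  rw [← h z, hz, map_zero]

variable (D D' : ND K)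

/-- The isomorphism given by an isomorphism of normal form data, as a linear map. -/
noncomputable def fwd (g : (Fin D.n → K) ≃ₗ[K] (Fin D'.n → K)) :
    (K × (Fin D.n → K) × (Fin D.n → K) × (Fin D.n × Fin D.n → K)) →ₗ[K]
      (K × (Fin D'.n → K) × (Fin D'.n → K) × (Fin D'.n × Fin D'.n → K)) where
  toFun s := (s.1, g s.2.1, g s.2.2.1 + D'.M (tsq g.toLinearMap (D.P s.2.2.2)),
    D'.P (tsq g.toLinearMap (D.P s.2.2.2)) + tsq g.toLinearMap (s.2.2.2 - D.P s.2.2.2))
  map_add' s t := by
    simp only [Prod.fst_add, Prod.snd_add, map_add, map_sub, Prod.mk_add_mk, Prod.mk.injEq,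
      true_and]
    constructor <;> abel
  map_smul' a s := by
    simp only [Prod.smul_fst, Prod.smul_snd, map_smul, map_sub, RingHom.id_apply, Prod.smul_mk,
      smul_add, smul_sub]

theorem forward (hD : D.Ok) (hD' : D'.Ok) (h : NIso D D') :
    ∃ e : (K × (Fin D.n → K) × (Fin D.n → K) × (Fin D.n × Fin D.n → K)) ≃ₗ[K]
      (K × (Fin D'.n → K) × (Fin D'.n → K) × (Fin D'.n × Fin D'.n → K)),
        ∀ s t, e (D.mul s t) = D'.mul (e s) (e t) := by
  obtain ⟨g, hg⟩ := h
  obtain ⟨hP, hM⟩ := hD
  obtain ⟨hP', hM'⟩ := hD'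
  have hn : D.n = D'.n := by
    have := g.finrank_eq
    simpa using this
  have hdiff : ∀ z, D.P (z - D.P z) = 0 := fun z => by rw [map_sub, hP, sub_self]
  have k1 : ∀ z, D'.P (tsq g.toLinearMap (D.P z)) = D'.P (tsq g.toLinearMap z) := by
    intro z
    have := ((hg (z - D.P z)).1).1 (hdiff z)
    rw [map_sub, map_sub, sub_eq_zero] at this
    exact this.symm
  have k2 : ∀ z, g (D.M z) + D'.M (tsq g.toLinearMap (D.P z)) = D'.M (tsq g.toLinearMap z) := by
    intro z
    have := (hg (z - D.P z)).2 (hdiff z)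
    rw [map_sub, hM, sub_zero, map_sub, map_sub] at this
    rw [this]
    abel
  have hinj : Function.Injective (fwd D D' g) := by
    rw [injective_iff_map_eq_zero]
    rintro ⟨a, v, u, t⟩ hs
    simp only [fwd, LinearMap.coe_mk, AddHom.coe_mk, Prod.mk_eq_zero] at hs
    obtain ⟨h1, h2, h3, h4⟩ := hs
    have h5 := congrArg D'.P h4
    rw [map_add, hP', ((hg (t - D.P t)).1).1 (hdiff t), add_zero, map_zero, k1] at h5
    have h6 := ((hg t).1).2 h5
    rw [h6] at h3 h4
    simp only [map_zero, sub_zero, zero_add, add_zero] at h3 h4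
    have h7 := tsq_injective g t h4
    have h8 : v = 0 := by simpa using h2
    have h9 : u = 0 := by simpa using h3
    rw [h1, h7, h8, h9]
    rfl
  have hfin : Module.finrank K (K × (Fin D.n → K) × (Fin D.n → K) × (Fin D.n × Fin D.n → K)) =
      Module.finrank K (K × (Fin D'.n → K) × (Fin D'.n → K) × (Fin D'.n × Fin D'.n → K)) := by
    simp only [Module.finrank_prod, Module.finrank_self, Module.finrank_pi, Fintype.card_fin,
      Fintype.card_prod, hn]
  refine ⟨LinearMap.linearEquivOfInjective (fwd D D' g) hinj hfin, ?_⟩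
  rintro ⟨a, v, u, t⟩ ⟨a', v', u', t'⟩
  simp only [LinearMap.linearEquivOfInjective_apply]
  simp only [fwd, LinearMap.coe_mk, AddHom.coe_mk, ND.mul, Prod.mk.injEq, true_and, map_zero]
  refine ⟨?_, ?_⟩
  · rw [hP, map_add, map_smul, add_assoc, k2, tsq_tens]
    rfl
  · rw [hP, sub_self, map_zero, add_zero, k1, tsq_tens]
    rfl

theorem backward (e : (K × (Fin D.n → K) × (Fin D.n → K) × (Fin D.n × Fin D.n → K)) ≃ₗ[K]
      (K × (Fin D'.n → K) × (Fin D'.n → K) × (Fin D'.n × Fin D'.n → K)))
    (he : ∀ s t, e (D.mul s t) = D'.mul (e s) (e t)) : NIso D D' := by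
  have h0 : e (1, 0, 0, 0) = (1, 0, 0, 0) := by
    have hh := he (1, 0, 0, 0) (1, 0, 0, 0)
    have h1 : D.mul (1, 0, 0, 0) (1, 0, 0, 0) = (1, 0, 0, 0) := by
      simp [ND.mul, tens_zero_left]
    rw [h1] at hh
    have hne : e (1, 0, 0, 0) ≠ 0 := by
      intro h
      have := (LinearEquiv.map_eq_zero_iff e).1 h
      simp at this
    generalize e (1, 0, 0, 0) = f at hh hne
    obtain ⟨a, v, u, t⟩ := f
    simp only [ND.mul, Prod.mk.injEq] at hh
    obtain ⟨q1, q2, q3, q4⟩ := hh
    subst q2
    rw [tens_zero_left, map_zero, smul_zero, add_zero] at q3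
    rw [tens_zero_left, map_zero] at q4
    subst q3
    subst q4
    have : a ≠ 0 := by
      rintro rfl
      exact hne rfl
    have : a = 1 := by
      have := mul_left_cancel₀ this (show a * 1 = a * a by rw [mul_one]; exact q1)
      exact this.symm
    rw [this]
  have h1 : ∀ s, (e s).1 = s.1 := by
    intro s
    have hh := he s (1, 0, 0, 0)
    rw [h0] at hh
    have h2 : D.mul s (1, 0, 0, 0) = s.1 • (1, 0, 0, 0) := by
      simp [ND.mul, tens_zero_right]
    rw [h2, map_smul, h0] at hh
    have := congrArg Prod.fst hh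
    simpa [ND.mul] using this.symm
  have h2 : ∀ s, e (0, 0, s.2.1, 0) = (0, 0, (e s).2.1, 0) := by
    intro s
    have hh := he (1, 0, 0, 0) s
    rw [h0] at hh
    have h3 : D.mul (1, 0, 0, 0) s = s.1 • (1, 0, 0, 0) + (0, 0, s.2.1, 0) := by
      simp [ND.mul, tens_zero_left]
    rw [h3, map_add, map_smul, h0] at hh
    have h4 : D'.mul (1, 0, 0, 0) (e s) = s.1 • (1, 0, 0, 0) + (0, 0, (e s).2.1, 0) := by
      simp [ND.mul, tens_zero_left, h1]
    rw [h4] at hh
    exact add_left_cancel hh
  let g0 : (Fin D.n → K) →ₗ[K] (Fin D'.n → K) :=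
    { toFun := fun v => (e (0, v, 0, 0)).2.1
      map_add' := fun v w => by
        have : ((0 : K), v + w, (0 : Fin D.n → K), (0 : Fin D.n × Fin D.n → K)) =
          (0, v, 0, 0) + (0, w, 0, 0) := by simp
        rw [this, map_add]
        rfl
      map_smul' := fun a v => by
        have : ((0 : K), a • v, (0 : Fin D.n → K), (0 : Fin D.n × Fin D.n → K)) =
          a • (0, v, 0, 0) := by simp
        rw [this, map_smul]
        rfl }
  have g1 : ∀ v, e (0, 0, v, 0) = (0, 0, g0 v, 0) := fun v => h2 (0, v, 0, 0)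
  have g2 : ∀ s, (e s).2.1 = g0 s.2.1 := by
    intro s
    have := (h2 s).symm.trans (g1 s.2.1)
    simpa using this
  have ginj : Function.Injective g0 := by
    rw [injective_iff_map_eq_zero]
    intro v hv
    have := g1 v
    rw [hv] at this
    have h5 : e (0, 0, v, 0) = 0 := this
    rw [LinearEquiv.map_eq_zero_iff] at h5
    simpa using h5
  have gsurj : Function.Surjective g0 := by
    intro w
    obtain ⟨s, hs⟩ := e.surjective (0, w, 0, 0)
    refine ⟨s.2.1, ?_⟩
    rw [← g2 s, hs]
  have key : ∀ z, e (0, 0, D.M z, D.P z) = (0, 0, D'.M (tsq g0 z), D'.P (tsq g0 z)) := by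
    have := ext_tens (K := K)
      (e.toLinearMap.comp ((LinearMap.inr K K _).comp ((LinearMap.inr K (Fin D.n → K) _).comp
        (D.M.prod D.P))))
      ((LinearMap.inr K K _).comp ((LinearMap.inr K (Fin D'.n → K) _).comp
        ((D'.M.comp (tsq g0)).prod (D'.P.comp (tsq g0))))) (fun x y => ?_)
    · intro z
      have h3 := this z
      simpa using h3
    · have hh := he (0, x, 0, 0) (0, y, 0, 0)
      have h3 : D.mul (0, x, 0, 0) (0, y, 0, 0) = (0, 0, D.M (tens x y), D.P (tens x y)) := by
        simp [ND.mul]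
      rw [h3] at hh
      have h4 : D'.mul (e (0, x, 0, 0)) (e (0, y, 0, 0)) =
          (0, 0, D'.M (tens (g0 x) (g0 y)), D'.P (tens (g0 x) (g0 y))) := by
        simp only [ND.mul, h1, g2]
        simp
      rw [h4] at hh
      simp only [LinearMap.comp_apply, LinearMap.prod_apply, Function.prod_apply,
        LinearMap.inr_apply, LinearEquiv.coe_coe, tsq_tens]
      exact hh
  refine ⟨LinearEquiv.ofBijective g0 ⟨ginj, gsurj⟩, fun z => ?_⟩
  have hlin : (LinearEquiv.ofBijective g0 ⟨ginj, gsurj⟩).toLinearMap = g0 := by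
    ext1
    rfl
  rw [hlin]
  have fw : D.P z = 0 → D'.P (tsq g0 z) = 0 ∧ g0 (D.M z) = D'.M (tsq g0 z) := by
    intro hz
    have h3 := key z
    rw [hz, g1] at h3
    simp only [Prod.mk.injEq, true_and] at h3
    exact ⟨h3.2.symm, h3.1⟩
  refine ⟨⟨fun hz => (fw hz).1, fun hz => ?_⟩, fun hz => (fw hz).2⟩
  obtain ⟨u, hu⟩ := gsurj (D'.M (tsq g0 z))
  have h3 := key z
  rw [hz, ← hu, ← g1 u] at h3
  have h4 := e.injective h3
  simp only [Prod.mk.injEq, true_and] at h4
  exact h4.2

end EncIso

/-- Proof (left to right): `g` given; let `G = tsq g`. Then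
`(a, v, u, t) ↦ (a, g v, g u + M' (G (P t)), P' (G (P t)) + G (t - P t))` is an isomorphism.
Right to left: with `e = (1, 0, 0, 0)`, `s * e` is the first coordinate of `s` times `e` and
`e * (0, v, u, t) = (0, 0, v, 0)`. -/
theorem niso_iff {K : Type} [Field K] (D D' : ND K) (hD : D.Ok) (hD' : D'.Ok) :
    NIso D D' ↔ ∃ e : (K × (Fin D.n → K) × (Fin D.n → K) × (Fin D.n × Fin D.n → K)) ≃ₗ[K]
      (K × (Fin D'.n → K) × (Fin D'.n → K) × (Fin D'.n × Fin D'.n → K)),
        ∀ s t, e (D.mul s t) = D'.mul (e s) (e t) :=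
  ⟨EncIso.forward D D' hD hD', fun ⟨e, he⟩ => EncIso.backward D D' e he⟩

end Pool.Agent.Work.MP_9ac17e_al

end

section

/-!
# `fun_prop` lemmas for the operations of a numbered field
-/

set_option autoImplicit false

namespace Pool.Agent.Work.MP_9ac17e_al

variable {K C α : Type} [Field K] [Primcodable C] [Primcodable α] (N : NumF K C)

@[fun_prop] theorem NumF.primrec_add {f g : α → C} (hf : Primrec f) (hg : Primrec g) :
    Primrec (fun a => N.add (f a) (g a)) := N.padd.comp hf hg
@[fun_prop] theorem NumF.primrec_mul {f g : α → C} (hf : Primrec f) (hg : Primrec g) :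
    Primrec (fun a => N.mul (f a) (g a)) := N.pmul.comp hf hg
@[fun_prop] theorem NumF.primrec_neg {f : α → C} (hf : Primrec f) :
    Primrec (fun a => N.neg (f a)) := N.pneg.comp hf
@[fun_prop] theorem NumF.primrec_eqb {f g : α → C} (hf : Primrec f) (hg : Primrec g) :
    Primrec (fun a => N.eqb (f a) (g a)) := N.peqb.comp hf hg
@[fun_prop] theorem NumF.primrec_ent {l : α → List C} {i : α → ℕ} (hl : Primrec l)
    (hi : Primrec i) : Primrec (fun a => N.ent (l a) (i a)) := by
  unfold NumF.ent
  fun_prop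

omit [Primcodable C] in
theorem entry_eq {K C : Type} [Field K] [Primcodable C] (N : NumF K C) (l : List C) (i : ℕ) :
    entry N.val l i = N.val (N.ent l i) := by
  unfold entry NumF.ent
  cases l[i]? with
  | none => simp [N.val_zero]
  | some c => rfl

/-- Sums of codes. -/
def NumF.sumc (l : List C) : C := l.foldr N.add N.zero

theorem NumF.val_sumc (l : List C) : N.val (N.sumc l) = (l.map N.val).sum := by
  unfold NumF.sumc
  induction l with
  | nil => simp [N.val_zero]
  | cons a l ih => rw [List.foldr_cons, N.val_add, ih, List.map_cons, List.sum_cons]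

@[fun_prop] theorem NumF.primrec_sumc {l : α → List C} (hl : Primrec l) :
    Primrec (fun a => N.sumc (l a)) := by
  unfold NumF.sumc
  fun_prop

/-- Sums over a range. -/
theorem NumF.val_sum_range (f : ℕ → C) (n : ℕ) :
    N.val (N.sumc ((List.range n).map f)) = ∑ i : Fin n, N.val (f i) := by
  rw [N.val_sumc, List.map_map]
  induction n with
  | zero => simp
  | succ n ih =>
    rw [List.range_succ, List.map_append, List.sum_append, ih, Fin.sum_univ_castSucc]
    simp

end Pool.Agent.Work.MP_9ac17e_al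

end

section

/-!
# Tensor lemmas (item I1)
-/

set_option autoImplicit false

namespace Pool.Agent.Work.MP_9ac17e_al

open TensorProduct

section abstract

variable {K : Type} [Field K] {A B : Type} [AddCommGroup A] [Module K A] [AddCommGroup B]
  [Module K B] (m : A →ₗ[K] A →ₗ[K] A) (m' : B →ₗ[K] B →ₗ[K] B)

@[simp] theorem mt_tmul (x y : A) : mt m (x ⊗ₜ[K] y) = m x y := by
  simp [mt]

@[simp] theorem cL_tmul (f : A →ₗ[K] K) (x y : A) : cL f (x ⊗ₜ[K] y) = f x • y := by
  simp [cL]

@[simp] theorem cR_tmul (f : A →ₗ[K] K) (x y : A) : cR f (x ⊗ₜ[K] y) = f y • x := by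
  simp [cR]

theorem cL_map (f : A →ₗ[K] K) (q : A →ₗ[K] A) (z : A ⊗[K] A) :
    cL f (TensorProduct.map LinearMap.id q z) = q (cL f z) := by
  have h : cL f ∘ₗ TensorProduct.map LinearMap.id q = q ∘ₗ cL f := by
    ext x y
    simp
  exact LinearMap.congr_fun h z

theorem cR_map (f : A →ₗ[K] K) (q : A →ₗ[K] A) (z : A ⊗[K] A) :
    cR f (TensorProduct.map q LinearMap.id z) = q (cR f z) := by
  have h : cR f ∘ₗ TensorProduct.map q LinearMap.id = q ∘ₗ cR f := by
    ext x y
    simp
  exact LinearMap.congr_fun h z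

theorem eq_zero_of_cL {z : A ⊗[K] A} (h : ∀ f : A →ₗ[K] K, cL f z = 0) : z = 0 := by
  classical
  let b := Module.Basis.ofVectorSpace K A
  apply (TensorProduct.equivFinsuppOfBasisLeft (N := A) b).injective
  rw [map_zero]
  ext i
  have h1 : (Finsupp.lapply i : (_ →₀ A) →ₗ[K] A) ∘ₗ
      (TensorProduct.equivFinsuppOfBasisLeft (N := A) b).toLinearMap = cL (b.coord i) := by
    ext x y
    simp
  have h2 := LinearMap.congr_fun h1 z
  rw [h (b.coord i)] at h2
  simpa using h2

theorem eq_zero_of_cR {z : A ⊗[K] A} (h : ∀ f : A →ₗ[K] K, cR f z = 0) : z = 0 := by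
  classical
  let b := Module.Basis.ofVectorSpace K A
  apply (TensorProduct.equivFinsuppOfBasisRight (M := A) b).injective
  rw [map_zero]
  ext i
  have h1 : (Finsupp.lapply i : (_ →₀ A) →ₗ[K] A) ∘ₗ
      (TensorProduct.equivFinsuppOfBasisRight (M := A) b).toLinearMap = cR (b.coord i) := by
    ext x y
    simp
  have h2 := LinearMap.congr_fun h1 z
  rw [h (b.coord i)] at h2
  simpa using h2

theorem tmul_mem_sq {T : Submodule K A} {x y : A} (hx : x ∈ T) (hy : y ∈ T) :
    x ⊗ₜ[K] y ∈ sq T :=
  ⟨(⟨x, hx⟩ : T) ⊗ₜ[K] (⟨y, hy⟩ : T), by simp⟩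

/-- Contractions detect `T ⊗ T`. -/
theorem mem_sq_iff (T : Submodule K A) (z : A ⊗[K] A) :
    z ∈ sq T ↔ ∀ f : A →ₗ[K] K, cL f z ∈ T ∧ cR f z ∈ T := by
  constructor
  · rintro ⟨w, rfl⟩ f
    constructor
    · have h : cL f ∘ₗ TensorProduct.map T.subtype T.subtype =
          T.subtype ∘ₗ (TensorProduct.lid K T).toLinearMap ∘ₗ
            TensorProduct.map (f ∘ₗ T.subtype) LinearMap.id := by
        ext x y
        simp
      have h2 := LinearMap.congr_fun h w
      simp only [LinearMap.comp_apply] at h2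
      rw [h2]
      exact Subtype.coe_prop _
    · have h : cR f ∘ₗ TensorProduct.map T.subtype T.subtype =
          T.subtype ∘ₗ (TensorProduct.rid K T).toLinearMap ∘ₗ
            TensorProduct.map LinearMap.id (f ∘ₗ T.subtype) := by
        ext x y
        simp
      have h2 := LinearMap.congr_fun h w
      simp only [LinearMap.comp_apply] at h2
      rw [h2]
      exact Subtype.coe_prop _
  · intro h
    obtain ⟨p, hp⟩ := T.subtype.exists_leftInverse_of_injective T.ker_subtype
    have hp' : ∀ t ∈ T, (p t : A) = t := fun t ht => by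
      have := LinearMap.congr_fun hp ⟨t, ht⟩
      simp only [LinearMap.comp_apply, Submodule.subtype_apply, LinearMap.id_apply] at this
      rw [this]
    set P : A →ₗ[K] A := T.subtype ∘ₗ p with hP
    have h1 : TensorProduct.map LinearMap.id P z = z := by
      rw [← sub_eq_zero]
      apply eq_zero_of_cL
      intro f
      rw [map_sub, cL_map, sub_eq_zero]
      exact hp' _ (h f).1
    have h2 : TensorProduct.map P LinearMap.id z = z := by
      rw [← sub_eq_zero]
      apply eq_zero_of_cR
      intro f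
      rw [map_sub, cR_map, sub_eq_zero]
      exact hp' _ (h f).2
    refine ⟨TensorProduct.map p p z, ?_⟩
    have h3 : TensorProduct.map T.subtype T.subtype ∘ₗ TensorProduct.map p p =
        TensorProduct.map LinearMap.id P ∘ₗ TensorProduct.map P LinearMap.id := by
      ext x y
      simp [hP]
    have h4 := LinearMap.congr_fun h3 z
    simp only [LinearMap.comp_apply] at h4
    rw [h4, h2, h1]

theorem le_sq_iff (W : Submodule K (A ⊗[K] A)) (T : Submodule K A) : W ≤ sq T ↔ supp W ≤ T := by
  constructor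
  · intro h
    refine iSup_le (fun f => sup_le ?_ ?_)
    · rintro _ ⟨w, hw, rfl⟩
      exact ((mem_sq_iff T w).1 (h hw) f).1
    · rintro _ ⟨w, hw, rfl⟩
      exact ((mem_sq_iff T w).1 (h hw) f).2
  · intro h w hw
    rw [mem_sq_iff]
    intro f
    have h1 : W.map (cL f) ⊔ W.map (cR f) ≤ T :=
      (le_iSup (fun f : A →ₗ[K] K => (W.map (cL f) ⊔ W.map (cR f))) f).trans h
    exact ⟨h1 (Submodule.mem_sup_left ⟨w, hw, rfl⟩), h1 (Submodule.mem_sup_right ⟨w, hw, rfl⟩)⟩

theorem le_sq_supp (W : Submodule K (A ⊗[K] A)) : W ≤ sq (supp W) := (le_sq_iff W _).2 le_rfl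

theorem sq_mono {V V' : Submodule K A} (h : V ≤ V') : sq V ≤ sq V' := by
  intro z hz
  rw [mem_sq_iff] at hz ⊢
  exact fun f => ⟨h (hz f).1, h (hz f).2⟩

theorem supp_mono {W W' : Submodule K (A ⊗[K] A)} (h : W ≤ W') : supp W ≤ supp W' :=
  (le_sq_iff W _).1 (h.trans (le_sq_supp W'))

theorem supp_sq_le (T : Submodule K A) : supp (sq T) ≤ T := (le_sq_iff _ _).1 le_rfl

/-- `f ⊗ f` is injective if `f` is (flatness). -/
theorem tmap_injective (f : A →ₗ[K] B) (hf : Function.Injective f) :
    Function.Injective (TensorProduct.map f f) := by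
  obtain ⟨g, hg⟩ := f.exists_leftInverse_of_injective (LinearMap.ker_eq_bot.2 hf)
  have h : TensorProduct.map g g ∘ₗ TensorProduct.map f f = LinearMap.id := by
    rw [← TensorProduct.map_comp, hg, TensorProduct.map_id]
  exact Function.LeftInverse.injective (g := TensorProduct.map g g)
    (fun x => LinearMap.congr_fun h x)

/-- Homomorphisms which agree on a generating subspace are equal (equalizer is a subalgebra). -/
theorem hom_ext {V : Submodule K A} (hG : Gen m V) {φ ψ : A →ₗ[K] B} (hφ : IsHom m m' φ)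
    (hψ : IsHom m m' ψ) (h : ∀ v ∈ V, φ v = ψ v) : φ = ψ := by
  have h1 := hG (LinearMap.eqLocus φ ψ) (fun v hv => h v hv) (fun x hx y hy => by
    rw [LinearMap.mem_eqLocus] at hx hy ⊢
    rw [hφ, hψ, hx, hy])
  ext x
  have : x ∈ LinearMap.eqLocus φ ψ := h1 ▸ Submodule.mem_top
  exact this

/-- `φ (mt z) = mt' ((φ ⊗ φ) z)`. -/
theorem IsHom.mt {φ : A →ₗ[K] B} (hφ : IsHom m m' φ) (z : A ⊗[K] A) :
    φ (mt m z) = MP_9ac17e_al.mt m' (TensorProduct.map φ φ z) := by
  have h : φ ∘ₗ MP_9ac17e_al.mt m = MP_9ac17e_al.mt m' ∘ₗ TensorProduct.map φ φ := by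
    ext x y
    simp [hφ x y]
  exact LinearMap.congr_fun h z

end abstract

end Pool.Agent.Work.MP_9ac17e_al

end

section

/-!
# Closed generating subspaces have the universal property
-/

set_option autoImplicit false

namespace Pool.Agent.Work.MP_9ac17e_al

open TensorProduct

section abstract

variable {K : Type} [Field K] {A B : Type} [AddCommGroup A] [Module K A] [AddCommGroup B]
  [Module K B] (m : A →ₗ[K] A →ₗ[K] A) (m' : B →ₗ[K] B →ₗ[K] B)

namespace UPC

theorem sq_mono {V V' : Submodule K A} (h : V ≤ V') : sq V ≤ sq V' := by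
  rintro z ⟨w, rfl⟩
  refine ⟨TensorProduct.map (Submodule.inclusion h) (Submodule.inclusion h) w, ?_⟩
  rw [← LinearMap.comp_apply, ← TensorProduct.map_comp]
  rfl

theorem tmap_injective (f : A →ₗ[K] B) (hf : Function.Injective f) :
    Function.Injective (TensorProduct.map f f) :=
  TensorProduct.map_injective_of_flat_flat f f hf hf

theorem hom_mt {φ : A →ₗ[K] B} (hφ : IsHom m m' φ) (z : A ⊗[K] A) :
    φ (mt m z) = mt m' (TensorProduct.map φ φ z) := by
  induction z using TensorProduct.induction_on with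
  | zero => simp
  | tmul x y =>
    rw [TensorProduct.map_tmul]
    show φ (TensorProduct.lift m (x ⊗ₜ[K] y)) = TensorProduct.lift m' (φ x ⊗ₜ[K] φ y)
    rw [TensorProduct.lift.tmul, TensorProduct.lift.tmul]
    exact hφ x y
  | add x y hx hy => rw [map_add, map_add, map_add, map_add, hx, hy]

/-- The product multiplication. -/
noncomputable def pm : (A × B) →ₗ[K] (A × B) →ₗ[K] (A × B) :=
  LinearMap.mk₂ K (fun x y => (m x.1 y.1, m' x.2 y.2))
    (fun x x' y => by simp)
    (fun c x y => by simp)
    (fun x y y' => by simp)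
    (fun c x y => by simp)

theorem pm_apply (x y : A × B) : pm m m' x y = (m x.1 y.1, m' x.2 y.2) := rfl

theorem mt_tmul (x y : A) : mt m (x ⊗ₜ[K] y) = m x y := TensorProduct.lift.tmul x y

theorem fst_mt (z : (A × B) ⊗[K] (A × B)) : (mt (pm m m') z).1 =
    mt m (TensorProduct.map (LinearMap.fst K A B) (LinearMap.fst K A B) z) :=
  hom_mt (pm m m') m (φ := LinearMap.fst K A B) (fun _ _ => rfl) z

theorem snd_mt (z : (A × B) ⊗[K] (A × B)) : (mt (pm m m') z).2 =
    mt m' (TensorProduct.map (LinearMap.snd K A B) (LinearMap.snd K A B) z) :=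
  hom_mt (pm m m') m' (φ := LinearMap.snd K A B) (fun _ _ => rfl) z

/-- The tower of partial graphs. -/
noncomputable def tower (G₀ : Submodule K (A × B)) : ℕ → Submodule K (A × B)
  | 0 => G₀
  | n + 1 => G₀ ⊔ (sq (tower G₀ n)).map (mt (pm m m'))

theorem base_le (G₀ : Submodule K (A × B)) (n : ℕ) : G₀ ≤ tower m m' G₀ n := by
  cases n with
  | zero => exact le_rfl
  | succ n => exact le_sup_left

theorem tower_succ (G₀ : Submodule K (A × B)) (n : ℕ) :
    tower m m' G₀ n ≤ tower m m' G₀ (n + 1) := by
  induction n with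
  | zero => exact base_le m m' G₀ 1
  | succ n ih =>
    show G₀ ⊔ (sq (tower m m' G₀ n)).map (mt (pm m m')) ≤
      G₀ ⊔ (sq (tower m m' G₀ (n + 1))).map (mt (pm m m'))
    exact sup_le_sup_left (Submodule.map_mono (sq_mono ih)) _

theorem tower_mono (G₀ : Submodule K (A × B)) : Monotone (tower m m' G₀) :=
  monotone_nat_of_le_succ (tower_succ m m' G₀)

/-- The first projection is injective on the tower. -/
theorem tower_inj {V : Submodule K A} (hC : Closed m V) (j : V →ₗ[K] B)
    (hj : ∀ (w : V ⊗[K] V) (v : V), mt m (TensorProduct.map V.subtype V.subtype w) = v →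
      mt m' (TensorProduct.map j j w) = j v) (n : ℕ) :
    ∀ x ∈ tower m m' (LinearMap.range (V.subtype.prod j)) n, x.1 = 0 → x = 0 := by
  induction n with
  | zero =>
    rintro x ⟨v, rfl⟩ hx
    have hv : v = 0 := by
      apply Subtype.ext
      exact hx
    rw [hv, map_zero]
  | succ n ih =>
    intro x hx hx1
    set G₀ := LinearMap.range (V.subtype.prod j) with hG₀
    set S := tower m m' G₀ n with hS
    obtain ⟨g, hg, y, hy, rfl⟩ := Submodule.mem_sup.mp
      (show x ∈ G₀ ⊔ (sq S).map (mt (pm m m')) from hx)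
    obtain ⟨v, rfl⟩ := hg
    obtain ⟨z, hz, rfl⟩ := hy
    have hz' : z ∈ sq S := hz
    -- first component
    have h1 : (v : A) + mt m (TensorProduct.map (LinearMap.fst K A B) (LinearMap.fst K A B) z)
        = 0 := by
      rw [← fst_mt m m' z]
      exact hx1
    have h2 : mt m (TensorProduct.map (LinearMap.fst K A B) (LinearMap.fst K A B) z) =
        ((-v : V) : A) := by
      rw [Submodule.coe_neg]
      exact eq_neg_of_add_eq_zero_right h1
    have h3 : TensorProduct.map (LinearMap.fst K A B) (LinearMap.fst K A B) z ∈ sq V := by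
      apply hC
      show mt m (TensorProduct.map (LinearMap.fst K A B) (LinearMap.fst K A B) z) ∈ V
      rw [h2]
      exact (-v : V).2
    obtain ⟨w, hw⟩ := h3
    -- the lift of w
    have h4 : TensorProduct.map (V.subtype.prod j) (V.subtype.prod j) w ∈ sq S := by
      apply sq_mono (base_le m m' G₀ n)
      refine ⟨TensorProduct.map (V.subtype.prod j).rangeRestrict
        (V.subtype.prod j).rangeRestrict w, ?_⟩
      rw [← LinearMap.comp_apply, ← TensorProduct.map_comp]
      rfl
    have h5 : TensorProduct.map (LinearMap.fst K A B) (LinearMap.fst K A B)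
        (TensorProduct.map (V.subtype.prod j) (V.subtype.prod j) w) =
        TensorProduct.map (LinearMap.fst K A B) (LinearMap.fst K A B) z := by
      rw [← LinearMap.comp_apply, ← TensorProduct.map_comp, LinearMap.fst_prod]
      exact hw
    have h6 : z = TensorProduct.map (V.subtype.prod j) (V.subtype.prod j) w := by
      obtain ⟨z', hz'⟩ := hz'
      obtain ⟨w', hw'⟩ := h4
      have hinj : Function.Injective ((LinearMap.fst K A B) ∘ₗ S.subtype) := by
        rw [← LinearMap.ker_eq_bot, LinearMap.ker_eq_bot']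
        intro s hs
        exact Subtype.ext (ih s.1 s.2 hs)
      have h7 := tmap_injective _ hinj
      rw [← hz', ← hw'] at h5 ⊢
      rw [← LinearMap.comp_apply, ← LinearMap.comp_apply, ← TensorProduct.map_comp] at h5
      rw [h7 h5]
    have h8 : mt m (TensorProduct.map V.subtype V.subtype w) = ((-v : V) : A) := by
      rw [hw]; exact h2
    have h9 := hj w (-v) h8
    have h10 : mt (pm m m') z = (((-v : V) : A), j (-v)) := by
      apply Prod.ext
      · rw [fst_mt]
        exact h2
      · have h11 : TensorProduct.map (LinearMap.snd K A B) (LinearMap.snd K A B) z =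
            TensorProduct.map j j w := by
          rw [h6, ← LinearMap.comp_apply, ← TensorProduct.map_comp, LinearMap.snd_prod]
        rw [snd_mt, h11]
        exact h9
    rw [h10]
    apply Prod.ext
    · show (v : A) + ((-v : V) : A) = 0
      rw [Submodule.coe_neg, add_neg_cancel]
    · show j v + j (-v) = 0
      rw [map_neg, add_neg_cancel]

end UPC

/-- A closed generating subspace has the universal property. -/
theorem UP_of_closed {V : Submodule K A} (hG : Gen m V) (hC : Closed m V) : UP m V := by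
  intro B _ _ m' j hj
  set G₀ := LinearMap.range (V.subtype.prod j) with hG₀
  set G := UPC.tower m m' G₀ with hGdef
  have hmono : Monotone G := UPC.tower_mono m m' G₀
  have hinj := UPC.tower_inj m m' hC j hj
  set T : Submodule K (A × B) := ⨆ n, G n with hT
  have hdir : Directed (· ≤ ·) G := hmono.directed_le
  have memT : ∀ x, x ∈ T ↔ ∃ n, x ∈ G n := fun x => Submodule.mem_iSup_of_directed G hdir
  have hle : ∀ n, G n ≤ T := fun n => le_iSup G n
  have hmul : ∀ x ∈ T, ∀ y ∈ T, UPC.pm m m' x y ∈ T := by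
    intro x hx y hy
    obtain ⟨a, ha⟩ := (memT x).mp hx
    obtain ⟨b, hb⟩ := (memT y).mp hy
    have hx' : x ∈ G (max a b) := hmono (le_max_left a b) ha
    have hy' : y ∈ G (max a b) := hmono (le_max_right a b) hb
    apply hle (max a b + 1)
    show UPC.pm m m' x y ∈ G₀ ⊔ (sq (G (max a b))).map (mt (UPC.pm m m'))
    apply Submodule.mem_sup_right
    refine ⟨x ⊗ₜ[K] y, ⟨(⟨x, hx'⟩ : G (max a b)) ⊗ₜ[K] (⟨y, hy'⟩ : G (max a b)), ?_⟩, ?_⟩
    · rw [TensorProduct.map_tmul]
      rfl
    · exact UPC.mt_tmul _ x y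
  have hbase : ∀ v : V, ((v : A), j v) ∈ T := fun v => hle 0 ⟨v, rfl⟩
  -- the first projection restricted to `T`
  set e : T →ₗ[K] A := (LinearMap.fst K A B) ∘ₗ T.subtype with he
  have hei : Function.Injective e := by
    rw [← LinearMap.ker_eq_bot, LinearMap.ker_eq_bot']
    intro s hs
    obtain ⟨n, hn⟩ := (memT s.1).mp s.2
    exact Subtype.ext (hinj n s.1 hn hs)
  have hes : Function.Surjective e := by
    rw [← LinearMap.range_eq_top]
    apply hG
    · intro v hv
      exact ⟨⟨((v : A), j ⟨v, hv⟩), hbase ⟨v, hv⟩⟩, rfl⟩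
    · rintro _ ⟨x, rfl⟩ _ ⟨y, rfl⟩
      exact ⟨⟨UPC.pm m m' x.1 y.1, hmul _ x.2 _ y.2⟩, rfl⟩
  set E : T ≃ₗ[K] A := LinearEquiv.ofBijective e ⟨hei, hes⟩ with hE
  have hE1 : ∀ a : A, (E.symm a : A × B).1 = a := fun a => E.apply_symm_apply a
  refine ⟨(LinearMap.snd K A B) ∘ₗ T.subtype ∘ₗ E.symm.toLinearMap, ?_, ?_⟩
  · intro x y
    have h1 : E.symm (m x y) = ⟨UPC.pm m m' (E.symm x).1 (E.symm y).1,
        hmul _ (E.symm x).2 _ (E.symm y).2⟩ := by
      apply E.injective
      rw [E.apply_symm_apply]
      show m x y = m (E.symm x : A × B).1 (E.symm y : A × B).1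
      rw [hE1, hE1]
    show (E.symm (m x y) : A × B).2 = m' (E.symm x : A × B).2 (E.symm y : A × B).2
    rw [h1]
    rfl
  · intro v
    have h1 : E.symm (v : A) = ⟨((v : A), j v), hbase v⟩ := by
      apply E.injective
      rw [E.apply_symm_apply]
      rfl
    show (E.symm (v : A) : A × B).2 = j v
    rw [h1]

end abstract

end Pool.Agent.Work.MP_9ac17e_al

end

section

/-!
# The structure constants of the encoding algebra
-/

set_option autoImplicit false

namespace Pool.Agent.Work.MP_9ac17e_al

/-! ### Lists -/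

theorem length_flatMap_range {α : Type} (f : ℕ → List α) (m : ℕ) (h : ∀ i, (f i).length = m)
    (n : ℕ) : ((List.range n).flatMap f).length = n * m := by
  induction n with
  | zero => simp
  | succ n ih =>
    rw [List.range_succ, List.flatMap_append, List.length_append, ih, List.flatMap_singleton, h]
    ring

theorem getElem?_flatMap_range {α : Type} (f : ℕ → List α) (m : ℕ) (h : ∀ i, (f i).length = m)
    (n i r : ℕ) (hi : i < n) (hr : r < m) :
    ((List.range n).flatMap f)[i * m + r]? = (f i)[r]? := by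
  induction n with
  | zero => exact absurd hi (Nat.not_lt_zero i)
  | succ n ih =>
    rw [List.range_succ, List.flatMap_append, List.flatMap_singleton]
    rcases Nat.lt_or_ge i n with h1 | h1
    · rw [List.getElem?_append_left, ih h1]
      rw [length_flatMap_range f m h]
      calc i * m + r < i * m + m := by omega
        _ = (i + 1) * m := by ring
        _ ≤ n * m := Nat.mul_le_mul_right m h1
    · have h2 : i = n := by omega
      subst h2
      rw [List.getElem?_append_right, length_flatMap_range f m h, Nat.add_sub_cancel_left]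
      rw [length_flatMap_range f m h]
      exact Nat.le_add_right _ _

/-- The entries of a three-dimensional table. -/
theorem getElem?_table {α : Type} (g : ℕ → ℕ → ℕ → α) (d i j k : ℕ) (hi : i < d) (hj : j < d)
    (hk : k < d) :
    ((List.range d).flatMap (fun i => (List.range d).flatMap (fun j =>
      (List.range d).map (fun k => g i j k))))[(i * d + j) * d + k]? = some (g i j k) := by
  have e : (i * d + j) * d + k = i * (d * d) + (j * d + k) := by ring
  rw [e, getElem?_flatMap_range _ (d * d) _ d i (j * d + k) hi _,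
    getElem?_flatMap_range _ d _ d j k hj hk]
  · rw [List.getElem?_map, List.getElem?_range hk]
    rfl
  · intro j
    rw [List.length_map, List.length_range]
  · intro i
    rw [length_flatMap_range _ d]
    intro j
    rw [List.length_map, List.length_range]
  · calc j * d + k < j * d + d := by omega
      _ = (j + 1) * d := by ring
      _ ≤ d * d := Nat.mul_le_mul_right d hj

section coded

variable {K C : Type} [Field K] [Primcodable C] (N : NumF K C)

theorem entry_ecode (c : NC C) (i j k : Fin (edim c.1)) :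
    entry N.val (ecode N c).2 ((i * edim c.1 + j) * edim c.1 + k) = N.val (ecoef N c i j k) := by
  unfold entry ecode
  simp only
  rw [getElem?_table (fun i j k => ecoef N c i j k) (edim c.1) i j k i.2 j.2 k.2]
  rfl

/-! ### Indices -/

/-- The index of the marker. -/
def ix0 (n : ℕ) : Fin (edim n) := ⟨0, by unfold edim; omega⟩

/-- The indices of `V`. -/
def ixv {n : ℕ} (a : Fin n) : Fin (edim n) := ⟨1 + a, by unfold edim; omega⟩

/-- The indices of the copy of `V`. -/
def ixu {n : ℕ} (a : Fin n) : Fin (edim n) := ⟨1 + n + a, by unfold edim; omega⟩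

theorem lt_sq {n : ℕ} (ab : Fin n × Fin n) : (ab.1 : ℕ) * n + ab.2 < n * n :=
  calc (ab.1 : ℕ) * n + ab.2 < ab.1 * n + n := by omega
    _ = (ab.1 + 1) * n := by ring
    _ ≤ n * n := Nat.mul_le_mul_right n ab.1.2

/-- The indices of `V ⊗ V`. -/
def ixt {n : ℕ} (ab : Fin n × Fin n) : Fin (edim n) :=
  ⟨1 + n + n + (ab.1 * n + ab.2), by unfold edim; have := lt_sq ab; omega⟩

theorem sum_edim {n : ℕ} (f : Fin (edim n) → K) :
    ∑ i, f i = f (ix0 n) + ∑ a, f (ixv a) + ∑ a, f (ixu a) + ∑ ab, f (ixt ab) := by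
  unfold edim at f ⊢
  rw [Fin.sum_univ_add, Fin.sum_univ_add, Fin.sum_univ_add, Fin.sum_univ_one,
    ← finProdFinEquiv.sum_comp]
  congr 1
  refine Finset.sum_congr rfl (fun ab _ => congrArg f (Fin.ext ?_))
  show 1 + n + n + (ab.2 + n * ab.1) = 1 + n + n + (ab.1 * n + ab.2)
  ring

theorem exists_ix {n : ℕ} (i : Fin (edim n)) : i = ix0 n ∨ (∃ a, i = ixv a) ∨ (∃ a, i = ixu a) ∨
    ∃ ab, i = ixt ab := by
  have hi := i.2
  unfold edim at hi
  rcases Nat.eq_zero_or_pos (i : ℕ) with h | h
  · exact Or.inl (Fin.ext h)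
  · rcases Nat.lt_or_ge (i : ℕ) (1 + n) with h1 | h1
    · refine Or.inr (Or.inl ⟨⟨(i : ℕ) - 1, by omega⟩, Fin.ext ?_⟩)
      show (i : ℕ) = 1 + ((i : ℕ) - 1)
      omega
    · rcases Nat.lt_or_ge (i : ℕ) (1 + n + n) with h2 | h2
      · refine Or.inr (Or.inr (Or.inl ⟨⟨(i : ℕ) - (1 + n), by omega⟩, Fin.ext ?_⟩))
        show (i : ℕ) = 1 + n + ((i : ℕ) - (1 + n))
        omega
      · have h3 : (i : ℕ) - (1 + n + n) < n * n := by omega
        have hn : 0 < n := Nat.pos_of_ne_zero (fun h0 => by subst h0; omega)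
        refine Or.inr (Or.inr (Or.inr ⟨(⟨((i : ℕ) - (1 + n + n)) / n,
          Nat.div_lt_of_lt_mul h3⟩, ⟨((i : ℕ) - (1 + n + n)) % n, Nat.mod_lt _ hn⟩),
          Fin.ext ?_⟩))
        show (i : ℕ) = 1 + n + n + (((i : ℕ) - (1 + n + n)) / n * n +
          ((i : ℕ) - (1 + n + n)) % n)
        have h4 := Nat.div_add_mod ((i : ℕ) - (1 + n + n)) n
        rw [mul_comm] at h4
        omega

/-! ### The coordinates of the encoding algebra -/

/-- The four components of a vector, as a linear map. -/
def phiL (K : Type) [Field K] (n : ℕ) : (Fin (edim n) → K) →ₗ[K]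
    (K × (Fin n → K) × (Fin n → K) × (Fin n × Fin n → K)) where
  toFun x := (x (ix0 n), fun a => x (ixv a), fun a => x (ixu a), fun ab => x (ixt ab))
  map_add' _ _ := rfl
  map_smul' _ _ := rfl

theorem phiL_injective (K : Type) [Field K] (n : ℕ) : Function.Injective (phiL K n) := by
  intro x y h
  have h0 : x (ix0 n) = y (ix0 n) := congrArg Prod.fst h
  have h1 : (fun a => x (ixv a)) = (fun a => y (ixv a)) := congrArg (fun z => z.2.1) h
  have h2 : (fun a => x (ixu a)) = (fun a => y (ixu a)) := congrArg (fun z => z.2.2.1) h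
  have h3 : (fun ab => x (ixt ab)) = (fun ab => y (ixt ab)) := congrArg (fun z => z.2.2.2) h
  funext i
  rcases exists_ix i with rfl | ⟨a, rfl⟩ | ⟨a, rfl⟩ | ⟨ab, rfl⟩
  · exact h0
  · exact congrFun h1 a
  · exact congrFun h2 a
  · exact congrFun h3 ab

/-- The four components of a vector, as an equivalence. -/
noncomputable def phi (K : Type) [Field K] (n : ℕ) : (Fin (edim n) → K) ≃ₗ[K]
    (K × (Fin n → K) × (Fin n → K) × (Fin n × Fin n → K)) :=
  LinearMap.linearEquivOfInjective (phiL K n) (phiL_injective K n) (by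
    rw [Module.finrank_prod, Module.finrank_prod, Module.finrank_prod, Module.finrank_self,
      Module.finrank_fintype_fun_eq_card, Module.finrank_fintype_fun_eq_card,
      Module.finrank_fintype_fun_eq_card, Fintype.card_fin, Fintype.card_fin,
      Fintype.card_prod, Fintype.card_fin]
    unfold edim
    ring)

theorem phi_apply {K : Type} [Field K] {n : ℕ} (x : Fin (edim n) → K) : phi K n x =
    (x (ix0 n), fun a => x (ixv a), fun a => x (ixu a), fun ab => x (ixt ab)) := rfl

/-! ### The coefficients -/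

theorem ecoef_00 (c : NC C) (k : ℕ) :
    ecoef N c (ix0 c.1) (ix0 c.1) k = if k = 0 then N.one else N.zero := by
  unfold ecoef ix0
  simp

theorem ecoef_0v (c : NC C) (b : Fin c.1) (k : ℕ) :
    ecoef N c (ix0 c.1) (ixv b) k = if k = 1 + c.1 + b then N.one else N.zero := by
  unfold ecoef ix0 ixv
  have hb := b.2
  have h1 : ¬ (1 + (b : ℕ) = 0) := by omega
  have h2 : 1 + (b : ℕ) ≤ c.1 := by omega
  have h3 : c.1 + (1 + (b : ℕ)) = 1 + c.1 + b := by ring
  simp only [if_true, if_neg h1, if_pos h2, h3]

theorem ecoef_0u (c : NC C) (b : Fin c.1) (k : ℕ) :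
    ecoef N c (ix0 c.1) (ixu b) k = N.zero := by
  unfold ecoef ix0 ixu
  have h1 : ¬ (1 + c.1 + (b : ℕ) = 0) := by omega
  have h2 : ¬ (1 + c.1 + (b : ℕ) ≤ c.1) := by omega
  simp only [if_true, if_neg h1, if_neg h2]

theorem ecoef_0t (c : NC C) (b : Fin c.1 × Fin c.1) (k : ℕ) :
    ecoef N c (ix0 c.1) (ixt b) k = N.zero := by
  unfold ecoef ix0 ixt
  have h1 : ¬ (1 + c.1 + c.1 + ((b.1 : ℕ) * c.1 + b.2) = 0) := by omega
  have h2 : ¬ (1 + c.1 + c.1 + ((b.1 : ℕ) * c.1 + b.2) ≤ c.1) := by omega
  simp only [if_true, if_neg h1, if_neg h2]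

theorem ecoef_v0 (c : NC C) (a : Fin c.1) (k : ℕ) :
    ecoef N c (ixv a) (ix0 c.1) k = N.zero := by
  unfold ecoef ix0 ixv
  have h1 : ¬ (1 + (a : ℕ) = 0) := by omega
  have h2 : ¬ (1 + (a : ℕ) ≤ c.1 ∧ 1 ≤ 0 ∧ 0 ≤ c.1) := by omega
  simp only [if_neg h1, if_neg h2]

theorem ecoef_vu (c : NC C) (a b : Fin c.1) (k : ℕ) :
    ecoef N c (ixv a) (ixu b) k = N.zero := by
  unfold ecoef ixv ixu
  have h1 : ¬ (1 + (a : ℕ) = 0) := by omega
  have h2 : ¬ (1 + (a : ℕ) ≤ c.1 ∧ 1 ≤ 1 + c.1 + (b : ℕ) ∧ 1 + c.1 + (b : ℕ) ≤ c.1) := by omega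
  simp only [if_neg h1, if_neg h2]

theorem ecoef_vt (c : NC C) (a : Fin c.1) (b : Fin c.1 × Fin c.1) (k : ℕ) :
    ecoef N c (ixv a) (ixt b) k = N.zero := by
  unfold ecoef ixv ixt
  have h1 : ¬ (1 + (a : ℕ) = 0) := by omega
  have h2 : ¬ (1 + (a : ℕ) ≤ c.1 ∧ 1 ≤ 1 + c.1 + c.1 + ((b.1 : ℕ) * c.1 + b.2) ∧
    1 + c.1 + c.1 + ((b.1 : ℕ) * c.1 + b.2) ≤ c.1) := by omega
  simp only [if_neg h1, if_neg h2]

theorem ecoef_u (c : NC C) (a : Fin c.1) (j k : ℕ) :
    ecoef N c (ixu a) j k = N.zero := by
  unfold ecoef ixu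
  have h1 : ¬ (1 + c.1 + (a : ℕ) = 0) := by omega
  have h2 : ¬ (1 + c.1 + (a : ℕ) ≤ c.1 ∧ 1 ≤ j ∧ j ≤ c.1) := by omega
  simp only [if_neg h1, if_neg h2]

theorem ecoef_t (c : NC C) (a : Fin c.1 × Fin c.1) (j k : ℕ) :
    ecoef N c (ixt a) j k = N.zero := by
  unfold ecoef ixt
  have h1 : ¬ (1 + c.1 + c.1 + ((a.1 : ℕ) * c.1 + a.2) = 0) := by omega
  have h2 : ¬ (1 + c.1 + c.1 + ((a.1 : ℕ) * c.1 + a.2) ≤ c.1 ∧ 1 ≤ j ∧ j ≤ c.1) := by omega
  simp only [if_neg h1, if_neg h2]

theorem ecoef_vv (c : NC C) (a b : Fin c.1) (k : ℕ) :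
    ecoef N c (ixv a) (ixv b) k = if k ≤ c.1 then N.zero
      else if k ≤ 2 * c.1 then N.ent c.2.2 ((k - c.1 - 1) * (c.1 * c.1) + (a * c.1 + b))
      else N.ent c.2.1 ((k - 2 * c.1 - 1) * (c.1 * c.1) + (a * c.1 + b)) := by
  unfold ecoef ixv
  have ha := a.2
  have hb := b.2
  have h1 : ¬ (1 + (a : ℕ) = 0) := by omega
  have h2 : 1 + (a : ℕ) ≤ c.1 ∧ 1 ≤ 1 + (b : ℕ) ∧ 1 + (b : ℕ) ≤ c.1 := by omega
  simp only [if_neg h1, if_pos h2, Nat.add_sub_cancel_left]

/-- The multiplication. -/
theorem fdMul_ecode (c : NC C) (x y : Fin (edim c.1) → K) (k : Fin (edim c.1)) :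
    fdMul N.val (ecode N c) x y k =
      N.val (ecoef N c (ix0 c.1) (ix0 c.1) k) * (x (ix0 c.1) * y (ix0 c.1)) +
      ∑ b, N.val (ecoef N c (ix0 c.1) (ixv b) k) * (x (ix0 c.1) * y (ixv b)) +
      ∑ a, ∑ b, N.val (ecoef N c (ixv a) (ixv b) k) * (x (ixv a) * y (ixv b)) := by
  have h1 : fdMul N.val (ecode N c) x y k = ∑ i : Fin (edim c.1), ∑ j : Fin (edim c.1),
      N.val (ecoef N c i j k) * (x i * y j) := by
    refine Finset.sum_congr rfl (fun i _ => Finset.sum_congr rfl (fun j _ => ?_))
    exact congrArg (fun z : K => z * (x i * y j)) (entry_ecode N c i j k)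
  rw [h1, sum_edim]
  simp only [sum_edim, ecoef_0u, ecoef_0t, ecoef_v0, ecoef_vu, ecoef_vt, ecoef_u, ecoef_t,
    N.val_zero, zero_mul, Finset.sum_const_zero, add_zero, zero_add]

theorem phi_mul (c : NC C) (x y : Fin (edim c.1) → K) :
    phi K c.1 (fdMul N.val (ecode N c) x y) =
      (ndOf N.val c).mul (phi K c.1 x) (phi K c.1 y) := by
  refine Prod.ext ?_ (Prod.ext ?_ (Prod.ext ?_ ?_))
  · show fdMul N.val (ecode N c) x y (ix0 c.1) = x (ix0 c.1) * y (ix0 c.1)
    rw [fdMul_ecode]
    have h1 : ∀ b : Fin c.1, ecoef N c (ix0 c.1) (ixv b) (ix0 c.1) = N.zero := by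
      intro b
      rw [ecoef_0v, if_neg]
      show ¬ (0 = 1 + c.1 + (b : ℕ))
      omega
    have h2 : ∀ a b : Fin c.1, ecoef N c (ixv a) (ixv b) (ix0 c.1) = N.zero := by
      intro a b
      rw [ecoef_vv, if_pos]
      exact Nat.zero_le _
    have h3 : ecoef N c (ix0 c.1) (ix0 c.1) (ix0 c.1) = N.one := by
      rw [ecoef_00, if_pos]
      rfl
    simp only [h1, h2, h3, N.val_zero, N.val_one, zero_mul, one_mul, Finset.sum_const_zero,
      add_zero]
  · show (fun d => fdMul N.val (ecode N c) x y (ixv d)) = 0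
    funext d
    rw [fdMul_ecode]
    have hd := d.2
    have h1 : ∀ b : Fin c.1, ecoef N c (ix0 c.1) (ixv b) (ixv d) = N.zero := by
      intro b
      rw [ecoef_0v, if_neg]
      show ¬ (1 + (d : ℕ) = 1 + c.1 + (b : ℕ))
      omega
    have h2 : ∀ a b : Fin c.1, ecoef N c (ixv a) (ixv b) (ixv d) = N.zero := by
      intro a b
      rw [ecoef_vv, if_pos]
      show 1 + (d : ℕ) ≤ c.1
      omega
    have h3 : ecoef N c (ix0 c.1) (ix0 c.1) (ixv d) = N.zero := by
      rw [ecoef_00, if_neg]
      show ¬ (1 + (d : ℕ) = 0)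
      omega
    simp only [h1, h2, h3, N.val_zero, zero_mul, Finset.sum_const_zero,
      add_zero, Pi.zero_apply]
  · refine funext (fun d => ?_)
    show fdMul N.val (ecode N c) x y (ixu d) = x (ix0 c.1) * y (ixv d) +
      ∑ cd : Fin c.1 × Fin c.1,
        entry N.val c.2.2 (d * (c.1 * c.1) + (cd.1 * c.1 + cd.2)) * (x (ixv cd.1) * y (ixv cd.2))
    rw [fdMul_ecode]
    have hd := d.2
    have h1 : ∀ b : Fin c.1, ecoef N c (ix0 c.1) (ixv b) (ixu d) =
        if d = b then N.one else N.zero := by
      intro b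
      rw [ecoef_0v]
      have : ((ixu d : Fin (edim c.1)) : ℕ) = 1 + c.1 + (b : ℕ) ↔ d = b := by
        rw [Fin.ext_iff]
        show 1 + c.1 + (d : ℕ) = 1 + c.1 + (b : ℕ) ↔ _
        omega
      simp only [this]
    have h2 : ∀ a b : Fin c.1, ecoef N c (ixv a) (ixv b) (ixu d) =
        N.ent c.2.2 (d * (c.1 * c.1) + (a * c.1 + b)) := by
      intro a b
      rw [ecoef_vv, if_neg, if_pos]
      · have : ((ixu d : Fin (edim c.1)) : ℕ) - c.1 - 1 = d := by
          show 1 + c.1 + (d : ℕ) - c.1 - 1 = d
          omega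
        rw [this]
      · show 1 + c.1 + (d : ℕ) ≤ 2 * c.1
        omega
      · show ¬ (1 + c.1 + (d : ℕ) ≤ c.1)
        omega
    have h3 : ecoef N c (ix0 c.1) (ix0 c.1) (ixu d) = N.zero := by
      rw [ecoef_00, if_neg]
      show ¬ (1 + c.1 + (d : ℕ) = 0)
      omega
    have h4 : ∀ b : Fin c.1, N.val (if d = b then N.one else N.zero) =
        if d = b then (1 : K) else 0 := by
      intro b
      split_ifs
      · exact N.val_one
      · exact N.val_zero
    simp only [h1, h2, h3, h4, N.val_zero, zero_mul, zero_add, ite_mul, one_mul,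
      Finset.sum_ite_eq, Finset.mem_univ, if_true]
    congr 1
    rw [Fintype.sum_prod_type]
    exact Finset.sum_congr rfl (fun a _ => Finset.sum_congr rfl (fun b _ => by rw [entry_eq]))
  · show (fun d => fdMul N.val (ecode N c) x y (ixt d)) =
        (ndOf N.val c).P (tens (fun a => x (ixv a)) (fun a => y (ixv a)))
    funext d
    rw [fdMul_ecode]
    have hd := lt_sq d
    have h1 : ∀ b : Fin c.1, ecoef N c (ix0 c.1) (ixv b) (ixt d) = N.zero := by
      intro b
      have hb := b.2
      rw [ecoef_0v, if_neg]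
      show ¬ (1 + c.1 + c.1 + ((d.1 : ℕ) * c.1 + d.2) = 1 + c.1 + (b : ℕ))
      omega
    have h2 : ∀ a b : Fin c.1, ecoef N c (ixv a) (ixv b) (ixt d) =
        N.ent c.2.1 ((d.1 * c.1 + d.2) * (c.1 * c.1) + (a * c.1 + b)) := by
      intro a b
      rw [ecoef_vv, if_neg, if_neg]
      · have : ((ixt d : Fin (edim c.1)) : ℕ) - 2 * c.1 - 1 = d.1 * c.1 + d.2 := by
          show 1 + c.1 + c.1 + ((d.1 : ℕ) * c.1 + d.2) - 2 * c.1 - 1 = _
          omega
        rw [this]
      · show ¬ (1 + c.1 + c.1 + ((d.1 : ℕ) * c.1 + d.2) ≤ 2 * c.1)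
        omega
      · show ¬ (1 + c.1 + c.1 + ((d.1 : ℕ) * c.1 + d.2) ≤ c.1)
        omega
    have h3 : ecoef N c (ix0 c.1) (ix0 c.1) (ixt d) = N.zero := by
      rw [ecoef_00, if_neg]
      show ¬ (1 + c.1 + c.1 + ((d.1 : ℕ) * c.1 + d.2) = 0)
      omega
    simp only [h1, h2, h3, N.val_zero, zero_mul, zero_add, Finset.sum_const_zero]
    show _ = ∑ cd : Fin c.1 × Fin c.1,
        entry N.val c.2.1 ((d.1 * c.1 + d.2) * (c.1 * c.1) + (cd.1 * c.1 + cd.2)) *
          (x (ixv cd.1) * y (ixv cd.2))
    rw [Fintype.sum_prod_type]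
    exact Finset.sum_congr rfl (fun a _ => Finset.sum_congr rfl (fun b _ => by rw [entry_eq]))

theorem phi_symm_mul (c : NC C)
    (s t : K × (Fin c.1 → K) × (Fin c.1 → K) × (Fin c.1 × Fin c.1 → K)) :
    (phi K c.1).symm ((ndOf N.val c).mul s t) =
      fdMul N.val (ecode N c) ((phi K c.1).symm s) ((phi K c.1).symm t) :=
  (LinearEquiv.symm_apply_eq _).mpr
    ((congrArg₂ (ndOf N.val c).mul ((phi K c.1).apply_symm_apply s).symm
      ((phi K c.1).apply_symm_apply t).symm).trans (phi_mul N c _ _).symm)

theorem fdIso_ecode (c c' : NC C) : FDIso N.val (ecode N c) (ecode N c') ↔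
    ∃ e : (K × (Fin c.1 → K) × (Fin c.1 → K) × (Fin c.1 × Fin c.1 → K)) ≃ₗ[K]
      (K × (Fin c'.1 → K) × (Fin c'.1 → K) × (Fin c'.1 × Fin c'.1 → K)),
        ∀ s t, e ((ndOf N.val c).mul s t) = (ndOf N.val c').mul (e s) (e t) := by
  constructor
  · rintro ⟨e, he⟩
    refine ⟨(phi K c.1).symm.trans (e.trans (phi K c'.1)), fun s t => ?_⟩
    exact (congrArg (fun z => phi K c'.1 (e z)) (phi_symm_mul N c s t)).trans
      ((congrArg (phi K c'.1) (he ((phi K c.1).symm s) ((phi K c.1).symm t))).trans
        (phi_mul N c' _ _))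
  · rintro ⟨e, he⟩
    refine ⟨(phi K c.1).trans (e.trans (phi K c'.1).symm), fun x y => ?_⟩
    exact (congrArg (fun z => (phi K c'.1).symm (e z)) (phi_mul N c x y)).trans
      ((congrArg (phi K c'.1).symm (he (phi K c.1 x) (phi K c.1 y))).trans
        (phi_symm_mul N c' _ _))

end coded

end Pool.Agent.Work.MP_9ac17e_al

end

section

/-!
# Finite-dimensional algebras are finitely presented
-/

set_option autoImplicit false

namespace Pool.Agent.Work.MP_9ac17e_al

section abs

variable {K : Type} [Field K] {A B D : Type} [AddCommGroup A] [Module K A] [AddCommGroup B]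
  [Module K B] [AddCommGroup D] [Module K D]

theorem AlgIso.symm' {m : A →ₗ[K] A →ₗ[K] A} {m' : B →ₗ[K] B →ₗ[K] B} (h : AlgIso m m') :
    AlgIso m' m := by
  obtain ⟨e, he⟩ := h
  refine ⟨e.symm, fun x y => ?_⟩
  apply e.injective
  rw [he, e.apply_symm_apply, e.apply_symm_apply, e.apply_symm_apply]

theorem AlgIso.trans' {m : A →ₗ[K] A →ₗ[K] A} {m' : B →ₗ[K] B →ₗ[K] B}
    {m'' : D →ₗ[K] D →ₗ[K] D} (h : AlgIso m m') (h' : AlgIso m' m'') : AlgIso m m'' := by
  obtain ⟨e, he⟩ := h
  obtain ⟨f, hf⟩ := h'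
  refine ⟨e.trans f, fun x y => ?_⟩
  rw [LinearEquiv.trans_apply, he, hf]
  rfl

end abs

theorem sum_map_range {M : Type} [AddCommMonoid M] (f : ℕ → M) (n : ℕ) :
    ((List.range n).map f).sum = ∑ i : Fin n, f i := by
  induction n with
  | zero => simp
  | succ n ih =>
    rw [List.range_succ, List.map_append, List.sum_append, ih, Fin.sum_univ_castSucc]
    simp

theorem mon_one (K : Type) [Field K] {n : ℕ} (a : Fin n) : mon K n [(a : ℕ) + 1] = gen a := by
  simp [mon, gen]

theorem mon_two (K : Type) [Field K] {n : ℕ} (a b : Fin n) :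
    mon K n [(a : ℕ) + 1, (b : ℕ) + 1, 0] = gen a * gen b := by
  simp [mon, gen]

section fdm

variable {K C : Type} [Field K] (val : C → K)

/-- The multiplication given by structure constants as a bilinear map. -/
def fdMulL (d : FD C) : (Fin d.1 → K) →ₗ[K] (Fin d.1 → K) →ₗ[K] (Fin d.1 → K) :=
  LinearMap.mk₂ K (fdMul val d)
    (by
      intro x x' y
      funext k
      simp only [fdMul, Pi.add_apply, add_mul, mul_add, Finset.sum_add_distrib])
    (by
      intro c x y
      funext k
      simp only [fdMul, Pi.smul_apply, smul_eq_mul, Finset.mul_sum]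
      refine Finset.sum_congr rfl (fun i _ => Finset.sum_congr rfl (fun j _ => ?_))
      ring)
    (by
      intro x y y'
      funext k
      simp only [fdMul, Pi.add_apply, mul_add, Finset.sum_add_distrib])
    (by
      intro c x y
      funext k
      simp only [fdMul, Pi.smul_apply, smul_eq_mul, Finset.mul_sum]
      refine Finset.sum_congr rfl (fun i _ => Finset.sum_congr rfl (fun j _ => ?_))
      ring)

theorem fdMulL_apply (d : FD C) (x y : Fin d.1 → K) : fdMulL val d x y = fdMul val d x y := rfl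

theorem fdMul_single (d : FD C) (i j : Fin d.1) :
    fdMul val d (Pi.single i 1) (Pi.single j 1) =
      fun k : Fin d.1 => entry val d.2 ((i * d.1 + j) * d.1 + k) := by
  funext k
  simp only [fdMul]
  rw [Finset.sum_eq_single i, Finset.sum_eq_single j]
  · simp
  · intro b _ hb
    simp [Pi.single_eq_of_ne hb]
  · intro h
    exact absurd (Finset.mem_univ _) h
  · intro b _ hb
    simp [Pi.single_eq_of_ne hb]
  · intro h
    exact absurd (Finset.mem_univ _) h

theorem fdIso_iff (c d : FD C) : FDIso val c d ↔ AlgIso (fdMulL val c) (fdMulL val d) := Iff.rfl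

end fdm

section coded

variable {K C : Type} [Field K] [Primcodable C] (N : NumF K C)

theorem sem_fdRel (d : FD C) (i j : Fin d.1) :
    sem N.val d.1 ((N.one, [(i : ℕ) + 1, (j : ℕ) + 1, 0]) :: (List.range d.1).map (fun k =>
      (N.neg (N.ent d.2 ((i * d.1 + j) * d.1 + k)), [k + 1]))) =
    gen i * gen j - ∑ k : Fin d.1, entry N.val d.2 ((i * d.1 + j) * d.1 + k) • gen k := by
  unfold sem
  rw [List.map_cons, List.sum_cons, List.map_map, N.val_one, one_smul, mon_two,
    sum_map_range, sub_eq_add_neg, ← Finset.sum_neg_distrib]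
  congr 1
  refine Finset.sum_congr rfl (fun k _ => ?_)
  simp only [Function.comp_apply, N.val_neg, ← entry_eq, mon_one, neg_smul]

theorem fdRel_mem_idl (d : FD C) (i j : Fin d.1) :
    (gen i * gen j - ∑ k : Fin d.1, entry N.val d.2 ((i * d.1 + j) * d.1 + k) • gen k :
      FA K d.1) ∈ idl N.val (fdPres N d) := by
  rw [← sem_fdRel]
  refine rel_mem_idl N.val (fdPres N d) ?_
  unfold fdPres
  simp only [List.mem_flatMap, List.mem_map, List.mem_range]
  exact ⟨i, i.2, j, j.2, rfl⟩

/-- The generators of the presented algebra. -/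
noncomputable def qg (d : FD C) (i : Fin d.1) :
    FA K (fdPres N d).1 ⧸ idl N.val (fdPres N d) :=
  Submodule.Quotient.mk (gen (n := (fdPres N d).1) i)

theorem qmul_gen (d : FD C) (i j : Fin d.1) :
    qmul N.val (fdPres N d) (qg N d i) (qg N d j) =
      ∑ k : Fin d.1, entry N.val d.2 ((i * d.1 + j) * d.1 + k) • qg N d k := by
  have h : (gen (n := (fdPres N d).1) i * gen (n := (fdPres N d).1) j -
      ∑ k : Fin d.1, entry N.val d.2 ((i * d.1 + j) * d.1 + k) • gen (n := (fdPres N d).1) k :
        FA K (fdPres N d).1) ∈ idl N.val (fdPres N d) := fdRel_mem_idl N d i j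
  rw [← Submodule.Quotient.eq] at h
  unfold qg
  rw [qmul_mk, h]
  have h2 : ∀ x : FA K (fdPres N d).1, (Submodule.Quotient.mk x :
      FA K (fdPres N d).1 ⧸ idl N.val (fdPres N d)) =
      (idl N.val (fdPres N d)).mkQ x := fun _ => rfl
  rw [h2, map_sum]
  refine Finset.sum_congr rfl (fun k _ => ?_)
  rw [map_smul]
  rfl

/-- The map from the coordinate space to the presented algebra. -/
noncomputable def psi (d : FD C) :
    (Fin d.1 → K) →ₗ[K] (FA K (fdPres N d).1 ⧸ idl N.val (fdPres N d)) where
  toFun x := ∑ i : Fin d.1, x i • qg N d i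
  map_add' x y := by
    simp only [Pi.add_apply, add_smul, Finset.sum_add_distrib]
  map_smul' c x := by
    simp only [Pi.smul_apply, smul_eq_mul, mul_smul, Finset.smul_sum, RingHom.id_apply]

theorem psi_single (d : FD C) (i : Fin d.1) :
    psi N d (Pi.single i 1) = qg N d i := by
  show ∑ j : Fin d.1, (Pi.single i 1 : Fin d.1 → K) j • qg N d j = _
  rw [Finset.sum_eq_single i]
  · simp
  · intro b _ hb
    simp [Pi.single_eq_of_ne hb]
  · intro h
    exact absurd (Finset.mem_univ _) h

theorem psi_mul (d : FD C) (x y : Fin d.1 → K) :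
    psi N d (fdMul N.val d x y) = qmul N.val (fdPres N d) (psi N d x) (psi N d y) := by
  have h : (fdMulL N.val d).compr₂ (psi N d) =
      (qmul N.val (fdPres N d)).compl₁₂ (psi N d) (psi N d) := by
    apply LinearMap.pi_ext'
    intro i
    apply LinearMap.ext_ring
    apply LinearMap.pi_ext'
    intro j
    apply LinearMap.ext_ring
    simp only [LinearMap.comp_apply, LinearMap.compr₂_apply, LinearMap.compl₁₂_apply,
      LinearMap.single_apply]
    rw [psi_single, psi_single, qmul_gen, fdMulL_apply, fdMul_single]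
    rfl
  have := LinearMap.congr_fun (LinearMap.congr_fun h x) y
  exact this

theorem algIso_fdPres (d : FD C) : AlgIso (qmul N.val (fdPres N d)) (fdMulL N.val d) := by
  obtain ⟨φ, hφ, hmk⟩ := exists_lift N.val (fdMulL N.val d) (fdPres N d)
    (fun i : Fin d.1 => (Pi.single i 1 : Fin d.1 → K)) (by
      intro r hr
      unfold fdPres at hr
      simp only [List.mem_flatMap, List.mem_map, List.mem_range] at hr
      obtain ⟨i, hi, j, hj, rfl⟩ := hr
      have h := sem_fdRel N d ⟨i, hi⟩ ⟨j, hj⟩
      have h2 : ev (fdMulL N.val d) (fun i : Fin d.1 => (Pi.single i 1 : Fin d.1 → K))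
          (gen (⟨i, hi⟩ : Fin d.1) * gen ⟨j, hj⟩ - ∑ k : Fin d.1,
            entry N.val d.2 ((i * d.1 + j) * d.1 + k) • gen k) = 0 := by
        rw [map_sub, ev_mul, ev_gen, ev_gen, map_sum, fdMulL_apply, fdMul_single, sub_eq_zero]
        funext k
        rw [Finset.sum_apply, Finset.sum_eq_single k]
        · rw [map_smul, ev_gen]
          simp
        · intro b _ hb
          rw [map_smul, ev_gen]
          simp [Pi.single_eq_of_ne hb.symm]
        · intro h
          exact absurd (Finset.mem_univ _) h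
      rw [← h] at h2
      exact h2)
  have hg : ∀ i : Fin d.1, φ (qg N d i) = Pi.single i 1 := by
    intro i
    unfold qg
    rw [hmk]
    exact ev_gen (fdMulL N.val d) (fun i : Fin d.1 => (Pi.single i 1 : Fin d.1 → K)) i
  have h1 : φ ∘ₗ psi N d = LinearMap.id := by
    apply LinearMap.pi_ext'
    intro i
    apply LinearMap.ext_ring
    simp only [LinearMap.comp_apply, LinearMap.single_apply, LinearMap.id_apply]
    rw [psi_single, hg]
  have h2 : psi N d ∘ₗ φ = LinearMap.id := by
    have hS : LinearMap.eqLocus (psi N d ∘ₗ φ) LinearMap.id = ⊤ := by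
      apply gen_quot N.val (fdPres N d) (LinearMap.eqLocus (psi N d ∘ₗ φ) LinearMap.id)
      · intro i
        exact (congrArg (psi N d) (hg i)).trans (psi_single N d i)
      · exact le_rfl
      · intro x hx y hy
        have hx' : psi N d (φ x) = x := hx
        have hy' : psi N d (φ y) = y := hy
        show psi N d (φ (qmul N.val (fdPres N d) x y)) = qmul N.val (fdPres N d) x y
        rw [hφ, fdMulL_apply, psi_mul, hx', hy']
    apply LinearMap.ext
    intro x
    have : x ∈ LinearMap.eqLocus (psi N d ∘ₗ φ) LinearMap.id := by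
      rw [hS]
      trivial
    exact this
  exact ⟨LinearEquiv.ofLinearMap φ (psi N d) h1 h2, hφ⟩

/-- The algebras presented by `fdPres` are the given finite-dimensional algebras. -/
theorem presIso_fdPres (c d : FD C) :
    PresIso N.val (fdPres N c) (fdPres N d) ↔ FDIso N.val c d := by
  rw [presIso_iff, fdIso_iff]
  constructor
  · intro h
    exact (algIso_fdPres N c).symm'.trans' (h.trans' (algIso_fdPres N d))
  · intro h
    exact (algIso_fdPres N c).trans' (h.trans' (algIso_fdPres N d).symm')

end coded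

end Pool.Agent.Work.MP_9ac17e_al

end

section

/-!
# Normal form presentations (item I9), first part
-/

set_option autoImplicit false

namespace Pool.Agent.Work.MP_9ac17e_al

open TensorProduct

namespace NPresAux

theorem mon_one {K : Type} [Field K] {n : ℕ} (a : Fin n) :
    mon K n [(a : ℕ) + 1] = gen a := by
  simp [mon, gen]

theorem mon_mul {K : Type} [Field K] {n : ℕ} (a b : Fin n) :
    mon K n [(a : ℕ) + 1, (b : ℕ) + 1, 0] = gen a * gen b := by
  simp [mon, gen]

theorem sum_map_range {B : Type} [AddCommMonoid B] (n : ℕ) (f : ℕ → B) :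
    ((List.range n).map f).sum = ∑ i : Fin n, f i := by
  induction n with
  | zero => simp
  | succ n ih =>
    rw [List.range_succ, List.map_append, List.sum_append, ih, Fin.sum_univ_castSucc]
    simp

theorem sum_flatMap_range {B : Type} [AddCommMonoid B] (n : ℕ) (f : ℕ → List B) :
    ((List.range n).flatMap f).sum = ∑ i : Fin n, (f i).sum := by
  induction n with
  | zero => simp
  | succ n ih =>
    rw [List.range_succ, List.flatMap_append, List.sum_append, ih, Fin.sum_univ_castSucc]
    simp

section ndOf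

variable {K C : Type} [Field K] (val : C → K)

theorem ndOf_P_single (c : NC C) (cd ab : Fin c.1 × Fin c.1) :
    (ndOf val c).P (Pi.single cd 1) ab =
      entry val c.2.1 ((ab.1 * c.1 + ab.2) * (c.1 * c.1) + (cd.1 * c.1 + cd.2)) := by
  show (∑ cd' : Fin c.1 × Fin c.1,
    entry val c.2.1 ((ab.1 * c.1 + ab.2) * (c.1 * c.1) + (cd'.1 * c.1 + cd'.2)) *
      (Pi.single cd (1 : K) : Fin c.1 × Fin c.1 → K) cd') = _
  rw [Finset.sum_eq_single cd]
  · simp
  · intro b _ hb
    rw [Pi.single_eq_of_ne hb, mul_zero]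
  · intro h
    exact absurd (Finset.mem_univ _) h

theorem ndOf_M_single (c : NC C) (cd : Fin c.1 × Fin c.1) (a : Fin c.1) :
    (ndOf val c).M (Pi.single cd 1) a =
      entry val c.2.2 (a * (c.1 * c.1) + (cd.1 * c.1 + cd.2)) := by
  show (∑ cd' : Fin c.1 × Fin c.1,
    entry val c.2.2 (a * (c.1 * c.1) + (cd'.1 * c.1 + cd'.2)) *
      (Pi.single cd (1 : K) : Fin c.1 × Fin c.1 → K) cd') = _
  rw [Finset.sum_eq_single cd]
  · simp
  · intro b _ hb
    rw [Pi.single_eq_of_ne hb, mul_zero]
  · intro h
    exact absurd (Finset.mem_univ _) h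

end ndOf

section coded

variable {K C : Type} [Field K] [Primcodable C] (N : NumF K C)

/-- The relator number `i, j` of `npres`. -/
def relator (c : NC C) (i j : ℕ) : Rel C :=
  (N.one, [i + 1, j + 1, 0]) ::
      (((List.range c.1).flatMap (fun a => (List.range c.1).map (fun b =>
        (N.neg (N.ent c.2.1 ((a * c.1 + b) * (c.1 * c.1) + (i * c.1 + j))), [a + 1, b + 1, 0])))) ++
      (List.range c.1).map (fun a =>
        (N.neg (N.ent c.2.2 (a * (c.1 * c.1) + (i * c.1 + j))), [a + 1])))

theorem relator_mem (c : NC C) (i j : Fin c.1) : relator N c i j ∈ (npres N c).2 := by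
  show relator N c i j ∈ (List.range c.1).flatMap (fun i => (List.range c.1).map (fun j =>
    relator N c i j))
  rw [List.mem_flatMap]
  exact ⟨i, List.mem_range.2 i.2, List.mem_map.2 ⟨j, List.mem_range.2 j.2, rfl⟩⟩

theorem exists_relator (c : NC C) {r : Rel C} (hr : r ∈ (npres N c).2) :
    ∃ cd : Fin c.1 × Fin c.1, r = relator N c cd.1 cd.2 := by
  change r ∈ (List.range c.1).flatMap (fun i => (List.range c.1).map (fun j =>
    relator N c i j)) at hr
  rw [List.mem_flatMap] at hr
  obtain ⟨i, hi, hr⟩ := hr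
  rw [List.mem_map] at hr
  obtain ⟨j, hj, rfl⟩ := hr
  exact ⟨(⟨i, List.mem_range.1 hi⟩, ⟨j, List.mem_range.1 hj⟩), rfl⟩

/-- The value of the relators. -/
theorem sem_relator (c : NC C) (cd : Fin c.1 × Fin c.1) :
    sem N.val c.1 (relator N c cd.1 cd.2) =
      (gen cd.1 * gen cd.2 - ∑ ab : Fin c.1 × Fin c.1,
        (ndOf N.val c).P (Pi.single cd 1) ab • (gen ab.1 * gen ab.2) -
      ∑ a : Fin c.1, (ndOf N.val c).M (Pi.single cd 1) a • gen a : FA K c.1) := by
  unfold sem relator
  rw [List.map_cons, List.sum_cons, List.map_append, List.sum_append, List.map_flatMap,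
    sum_flatMap_range, List.map_map, sum_map_range]
  simp only [List.map_map, sum_map_range, Function.comp_apply, N.val_one, one_smul, mon_mul,
    mon_one, N.val_neg, neg_smul, Finset.sum_neg_distrib, ndOf_P_single, ndOf_M_single, entry_eq]
  rw [Fintype.sum_prod_type]
  abel

theorem mem_idl_npres' (c : NC C) (cd : Fin c.1 × Fin c.1) :
    (gen cd.1 * gen cd.2 - ∑ ab : Fin c.1 × Fin c.1,
        (ndOf N.val c).P (Pi.single cd 1) ab • (gen ab.1 * gen ab.2) -
      ∑ a : Fin c.1, (ndOf N.val c).M (Pi.single cd 1) a • gen a : FA K c.1) ∈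
        idl N.val (npres N c) := by
  rw [← sem_relator]
  exact rel_mem_idl N.val (npres N c) (relator_mem N c cd.1 cd.2)

section lin

variable {K : Type} [Field K] {A : Type} [AddCommGroup A] [Module K A]
  (m : A →ₗ[K] A →ₗ[K] A)

theorem map_vec {B : Type} [AddCommGroup B] [Module K B] (f : A →ₗ[K] B) {n : ℕ} (x : Fin n → A)
    (c : Fin n → K) : f (vec x c) = vec (fun i => f (x i)) c := by
  simp [vec]

theorem vec_mem_span {n : ℕ} (x : Fin n → A) (c : Fin n → K) :
    vec x c ∈ Submodule.span K (Set.range x) :=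
  Submodule.sum_mem _ (fun a _ => Submodule.smul_mem _ _ (Submodule.subset_span ⟨a, rfl⟩))

theorem prodc_eq {n : ℕ} (x : Fin n → A) (z : Fin n × Fin n → K) :
    prodc m x z = ∑ ab : Fin n × Fin n, z ab • m (x ab.1) (x ab.2) := by
  rw [prodc, Fintype.sum_prod_type]

/-- A linear map on coordinates is determined by the values at the basis vectors. -/
theorem sum_smul_single {ι : Type} [Fintype ι] [DecidableEq ι] (f : (ι → K) →ₗ[K] A) (z : ι → K) :
    ∑ i, z i • f (Pi.single i 1) = f z := by
  have h : z = ∑ i, z i • (Pi.single i (1 : K) : ι → K) := by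
    funext j
    simp [Finset.sum_apply, Pi.single_apply]
  conv_rhs => rw [h, map_sum]
  simp only [map_smul]

theorem vec_add {n : ℕ} (x : Fin n → A) (c d : Fin n → K) :
    vec x (c + d) = vec x c + vec x d := by
  simp [vec, add_smul, Finset.sum_add_distrib]

theorem mk_eq_of_sub_sub_mem (S : Submodule K A) {u v w : A} (h : u - v - w ∈ S) :
    (Submodule.Quotient.mk u : A ⧸ S) = Submodule.Quotient.mk v + Submodule.Quotient.mk w := by
  rw [← Submodule.Quotient.mk_add, Submodule.Quotient.eq, ← sub_sub]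
  exact h

theorem prodc_add {n : ℕ} (x : Fin n → A) (z w : Fin n × Fin n → K) :
    prodc m x (z + w) = prodc m x z + prodc m x w := by
  simp [prodc, add_smul, Finset.sum_add_distrib]

theorem prodc_smul {n : ℕ} (x : Fin n → A) (a : K) (z : Fin n × Fin n → K) :
    prodc m x (a • z) = a • prodc m x z := by
  simp [prodc, Finset.smul_sum, mul_smul]

theorem vec_smul {n : ℕ} (x : Fin n → A) (a : K) (z : Fin n → K) :
    vec x (a • z) = a • vec x z := by
  simp [vec, Finset.smul_sum, mul_smul]

/-- `prodc` as a linear map. -/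
noncomputable def prodcL {n : ℕ} (x : Fin n → A) : (Fin n × Fin n → K) →ₗ[K] A where
  toFun := prodc m x
  map_add' := prodc_add m x
  map_smul' := prodc_smul m x

/-- `vec` as a linear map. -/
noncomputable def vecL {n : ℕ} (x : Fin n → A) : (Fin n → K) →ₗ[K] A where
  toFun := vec x
  map_add' := vec_add x
  map_smul' := vec_smul x

theorem prodc_of_relations {n : ℕ} (x : Fin n → A)
    (P : (Fin n × Fin n → K) →ₗ[K] (Fin n × Fin n → K)) (M : (Fin n × Fin n → K) →ₗ[K] (Fin n → K))
    (h : ∀ cd : Fin n × Fin n, m (x cd.1) (x cd.2) =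
      ∑ ab : Fin n × Fin n, P (Pi.single cd 1) ab • m (x ab.1) (x ab.2) +
        ∑ a : Fin n, M (Pi.single cd 1) a • x a) (z : Fin n × Fin n → K) :
    prodc m x z = prodc m x (P z) + vec x (M z) := by
  have h1 : ∑ i, z i • (prodcL m x ∘ₗ P + vecL x ∘ₗ M) (Pi.single i 1) =
      prodc m x (P z) + vec x (M z) :=
    sum_smul_single (prodcL m x ∘ₗ P + vecL x ∘ₗ M) z
  rw [← h1, prodc_eq]
  refine Finset.sum_congr rfl (fun cd _ => ?_)
  rw [h cd]
  refine congrArg (z cd • ·) ?_
  refine congrArg₂ (· + ·) ?_ rfl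
  exact (prodc_eq m x (P (Pi.single cd 1))).symm

theorem mt_map_sum {V : Type} [AddCommGroup V] [Module K V] (j : V →ₗ[K] A) {n : ℕ}
    (e : Fin n → V) (z : Fin n × Fin n → K) :
    mt m (TensorProduct.map j j (∑ ab : Fin n × Fin n, z ab • (e ab.1 ⊗ₜ[K] e ab.2))) =
      prodc m (fun i => j (e i)) z := by
  rw [prodc_eq, map_sum, map_sum]
  refine Finset.sum_congr rfl (fun ab _ => ?_)
  rw [map_smul, map_smul, TensorProduct.map_tmul, mt_tmul]

theorem prodc_single {n : ℕ} (x : Fin n → A) (cd : Fin n × Fin n) :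
    prodc m x (Pi.single cd 1) = m (x cd.1) (x cd.2) := by
  rw [prodc_eq, Finset.sum_eq_single cd]
  · rw [Pi.single_eq_same, one_smul]
  · intro b _ hb
    rw [Pi.single_eq_of_ne hb, zero_smul]
  · intro h
    exact absurd (Finset.mem_univ _) h

theorem prodc_sub {n : ℕ} (x : Fin n → A) (z w : Fin n × Fin n → K) :
    prodc m x (z - w) = prodc m x z - prodc m x w := by
  simp [prodc, sub_smul, Finset.sum_sub_distrib]

theorem rel_aux {n : ℕ} (g : Fin n → A)
    (P : (Fin n × Fin n → K) →ₗ[K] (Fin n × Fin n → K)) (M : (Fin n × Fin n → K) →ₗ[K] (Fin n → K))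
    (h1 : ∀ z, P (P z) = P z) (h2 : ∀ z, M (P z) = 0)
    (h : ∀ z, P z = 0 → prodc m g z = vec g (M z)) (cd : Fin n × Fin n) :
    m (g cd.1) (g cd.2) - prodc m g (P (Pi.single cd 1)) - vec g (M (Pi.single cd 1)) = 0 := by
  have h3 := h (Pi.single cd 1 - P (Pi.single cd 1)) (by rw [map_sub, h1, sub_self])
  rw [map_sub, h2, sub_zero, prodc_sub, prodc_single] at h3
  exact sub_eq_zero.2 h3

end lin

/-- The multiplication of the test algebra. -/
noncomputable def testMul (D : ND K) : ((Fin D.n → K) × (Fin D.n × Fin D.n → K)) →ₗ[K]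
    ((Fin D.n → K) × (Fin D.n × Fin D.n → K)) →ₗ[K]
      ((Fin D.n → K) × (Fin D.n × Fin D.n → K)) :=
  LinearMap.mk₂ K (fun s t => (D.M (tens s.1 t.1), D.P (tens s.1 t.1)))
    (fun s s' t => by
      have h : tens (s + s').1 t.1 = tens s.1 t.1 + tens s'.1 t.1 := by
        funext ab
        simp [tens, add_mul]
      rw [h, map_add, map_add]
      rfl)
    (fun c s t => by
      have h : tens (c • s).1 t.1 = c • tens s.1 t.1 := by
        funext ab
        simp [tens, mul_assoc]
      rw [h, map_smul, map_smul]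
      rfl)
    (fun s t t' => by
      have h : tens s.1 (t + t').1 = tens s.1 t.1 + tens s.1 t'.1 := by
        funext ab
        simp [tens, mul_add]
      rw [h, map_add, map_add]
      rfl)
    (fun c s t => by
      have h : tens s.1 (c • t).1 = c • tens s.1 t.1 := by
        funext ab
        simp [tens, mul_left_comm]
      rw [h, map_smul, map_smul]
      rfl)

theorem tmul_single (D : ND K) (a b : Fin D.n) :
    testMul D (Pi.single a 1, 0) (Pi.single b 1, 0) =
      (D.M (Pi.single (a, b) 1), D.P (Pi.single (a, b) 1)) := by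
  have h : tens (Pi.single a (1 : K)) (Pi.single b (1 : K)) = Pi.single (a, b) (1 : K) := by
    funext cd
    obtain ⟨c, d⟩ := cd
    by_cases h1 : c = a
    · subst h1
      by_cases h2 : d = b
      · subst h2
        simp [tens]
      · simp [tens, h2]
    · simp [tens, h1, Pi.single_apply]
  show (D.M (tens _ _), D.P (tens _ _)) = _
  rw [h]

/-- The image of the relators. -/
theorem ev_relator {B : Type} [AddCommGroup B] [Module K B] (m' : B →ₗ[K] B →ₗ[K] B) (c : NC C)
    (g : Fin c.1 → B) (cd : Fin c.1 × Fin c.1) :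
    ev m' g (sem N.val c.1 (relator N c cd.1 cd.2)) =
      m' (g cd.1) (g cd.2) - prodc m' g ((ndOf N.val c).P (Pi.single cd 1)) -
        vec g ((ndOf N.val c).M (Pi.single cd 1)) := by
  rw [sem_relator, map_sub, map_sub, map_sum, map_sum, ev_mul, ev_gen, ev_gen]
  simp only [map_smul, ev_mul, ev_gen]
  exact congrArg₂ (· - ·) (congrArg₂ (· - ·) rfl
    (prodc_eq (n := c.1) m' g ((ndOf N.val c).P (Pi.single cd 1))).symm) rfl

/-- The products in the presented algebra. -/
theorem prodc_npres (c : NC C) (z : Fin c.1 × Fin c.1 → K) :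
    prodc (qmul N.val (npres N c)) (fun i : Fin c.1 =>
        (Submodule.Quotient.mk (gen i) : FA K (npres N c).1 ⧸ idl N.val (npres N c))) z =
      prodc (qmul N.val (npres N c)) (fun i : Fin c.1 =>
        (Submodule.Quotient.mk (gen i) : FA K (npres N c).1 ⧸ idl N.val (npres N c)))
          ((ndOf N.val c).P z) +
      vec (fun i : Fin c.1 =>
        (Submodule.Quotient.mk (gen i) : FA K (npres N c).1 ⧸ idl N.val (npres N c)))
          ((ndOf N.val c).M z) := by
  have h : ∀ cd : Fin c.1 × Fin c.1,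
      qmul N.val (npres N c) (Submodule.Quotient.mk (gen cd.1)) (Submodule.Quotient.mk (gen cd.2)) =
      ∑ ab : Fin c.1 × Fin c.1, (ndOf N.val c).P (Pi.single cd 1) ab •
        qmul N.val (npres N c) (Submodule.Quotient.mk (gen ab.1))
          (Submodule.Quotient.mk (gen ab.2)) +
      ∑ a : Fin c.1, (ndOf N.val c).M (Pi.single cd 1) a •
        (Submodule.Quotient.mk (gen a) : FA K (npres N c).1 ⧸ idl N.val (npres N c)) := by
    intro cd
    have h1 := mk_eq_of_sub_sub_mem _ (mem_idl_npres' N c cd)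
    refine h1.trans (congrArg₂ (fun (s t : FA K (npres N c).1 ⧸ idl N.val (npres N c)) => s + t)
      ?_ ?_)
    · exact (map_sum (idl N.val (npres N c)).mkQ _ _).trans rfl
    · exact (map_sum (idl N.val (npres N c)).mkQ _ _).trans rfl
  exact prodc_of_relations (n := c.1) _ _ _ _ h z

theorem prodc_tmul (D : ND K) (z : Fin D.n × Fin D.n → K) :
    prodc (testMul D) (fun i => (Pi.single i 1, 0)) z = (D.M z, D.P z) := by
  rw [prodc_eq]
  simp only [tmul_single]
  exact sum_smul_single (D.M.prod D.P) z

theorem vec_tmul (D : ND K) (v : Fin D.n → K) :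
    vec (fun i => ((Pi.single i 1, 0) : (Fin D.n → K) × (Fin D.n × Fin D.n → K))) v = (v, 0) :=
  sum_smul_single (LinearMap.inl K (Fin D.n → K) (Fin D.n × Fin D.n → K)) v

theorem map_prodc {A B : Type} [AddCommGroup A] [Module K A] [AddCommGroup B] [Module K B]
    {m : A →ₗ[K] A →ₗ[K] A} {m' : B →ₗ[K] B →ₗ[K] B} {φ : A →ₗ[K] B} (hφ : IsHom m m' φ) {n : ℕ}
    (x : Fin n → A) (z : Fin n × Fin n → K) :
    φ (prodc m x z) = prodc m' (fun i => φ (x i)) z := by
  simp [prodc, hφ _ _]

theorem realises_npres' (c : NC C) (h : (ndOf N.val c).Ok) :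
    Realises (qmul N.val (npres N c)) (ndOf N.val c)
      (fun i : Fin c.1 => Submodule.Quotient.mk (gen i)) := by
  obtain ⟨φ, hφ, hφ'⟩ := exists_lift N.val (testMul (ndOf N.val c)) (npres N c)
    (fun i : Fin c.1 => (Pi.single i 1, 0)) (by
      intro r hr
      obtain ⟨cd, rfl⟩ := exists_relator N c hr
      refine (ev_relator N (testMul (ndOf N.val c)) c _ cd).trans ?_
      have h1 := prodc_tmul (ndOf N.val c) ((ndOf N.val c).P (Pi.single cd 1))
      have h2 := vec_tmul (ndOf N.val c) ((ndOf N.val c).M (Pi.single cd 1))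
      have h3 := tmul_single (ndOf N.val c) cd.1 cd.2
      refine (congrArg₂ (fun s t => s - t) (congrArg₂ (fun s t => s - t) h3 h1) h2).trans ?_
      rw [h.1, h.2]
      simp only [Prod.mk_sub_mk, sub_zero, Prod.mk_eq_zero]
      exact ⟨sub_self _, sub_self _⟩)
  set x : Fin c.1 → FA K (npres N c).1 ⧸ idl N.val (npres N c) :=
    fun i => Submodule.Quotient.mk (gen i) with hx
  have hx1 : ∀ i, φ (x i) = (Pi.single i 1, 0) := fun i => by
    rw [hx, hφ']
    exact ev_gen _ _ i
  have hx2 : (fun i => φ (x i)) = fun i => ((Pi.single i 1, 0) :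
      (Fin c.1 → K) × (Fin c.1 × Fin c.1 → K)) := funext hx1
  have hprod : ∀ z, φ (prodc (qmul N.val (npres N c)) x z) =
      ((ndOf N.val c).M z, (ndOf N.val c).P z) := fun z => by
    rw [map_prodc hφ, hx2]
    exact prodc_tmul (ndOf N.val c) z
  have hmem : ∀ z, prodc (qmul N.val (npres N c)) x z ∈ Submodule.span K (Set.range x) ↔
      (ndOf N.val c).P z = 0 := by
    intro z
    constructor
    · intro hz
      have h1 : ∀ v ∈ Submodule.span K (Set.range x), (φ v).2 = 0 := by
        intro v hv
        induction hv using Submodule.span_induction with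
        | mem v hv =>
          obtain ⟨i, rfl⟩ := hv
          rw [hx1]
        | zero => simp
        | add u v _ _ hu hv => rw [map_add, Prod.snd_add, hu, hv, add_zero]
        | smul a v _ hv => rw [map_smul, Prod.smul_snd, hv, smul_zero]
      have h2 := h1 _ hz
      rw [hprod] at h2
      exact h2
    · intro hz
      rw [prodc_npres N c z, hz]
      refine Submodule.add_mem _ ?_ (vec_mem_span x _)
      have h0 : prodc (qmul N.val (npres N c)) x 0 = 0 := by simp [prodc]
      exact h0 ▸ Submodule.zero_mem _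
  have hgen : Gen (qmul N.val (npres N c)) (Submodule.span K (Set.range x)) :=
    gen_quot N.val (npres N c) _ (fun i => Submodule.subset_span ⟨i, rfl⟩)
  have hind : LinearIndependent K x := by
    apply LinearIndependent.of_comp φ
    have h1 : (φ ∘ x) = (LinearMap.inl K (Fin c.1 → K) (Fin c.1 × Fin c.1 → K)) ∘
        (Pi.basisFun K (Fin c.1)) := by
      funext i
      rw [Function.comp_apply, hx1, Function.comp_apply, Pi.basisFun_apply]
      rfl
    rw [h1]
    exact (Pi.basisFun K (Fin c.1)).linearIndependent.map' _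
      (LinearMap.ker_eq_bot.2 LinearMap.inl_injective)
  have hmul : ∀ z, (ndOf N.val c).P z = 0 →
      prodc (qmul N.val (npres N c)) x z = vec x ((ndOf N.val c).M z) := by
    intro z hz
    have h1 := prodc_npres N c z
    rw [hz] at h1
    refine h1.trans ?_
    have h0 : prodc (qmul N.val (npres N c)) x 0 = 0 := by simp [prodc]
    exact (congrArg₂ (fun s t => s + t) h0 rfl).trans (zero_add _)
  refine ⟨hind, ?_, hgen, hmem, hmul⟩
  -- closedness
  refine closed_of_UP _ hgen ?_
  intro B _ _ m' j hj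
  let e : Fin c.1 → Submodule.span K (Set.range x) := fun i => ⟨x i, Submodule.subset_span ⟨i, rfl⟩⟩
  have key : ∀ z : Fin c.1 × Fin c.1 → K, (ndOf N.val c).P z = 0 →
      prodc m' (fun i => j (e i)) z = vec (fun i => j (e i)) ((ndOf N.val c).M z) := by
    intro z hz
    have h1 := hj (∑ ab : Fin c.1 × Fin c.1, z ab • (e ab.1 ⊗ₜ[K] e ab.2))
      (vec e ((ndOf N.val c).M z)) (by
        refine (mt_map_sum _ (Submodule.span K (Set.range x)).subtype e z).trans
          ((hmul z hz).trans ?_)
        exact (map_vec (Submodule.span K (Set.range x)).subtype e _).symm)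
    exact (mt_map_sum _ j e z).symm.trans (h1.trans (map_vec j e _))
  obtain ⟨ψ, hψ, hψ'⟩ := exists_lift N.val m' (npres N c) (fun i : Fin c.1 => j (e i)) (by
      intro r hr
      obtain ⟨cd, rfl⟩ := exists_relator N c hr
      refine (ev_relator N m' c _ cd).trans ?_
      exact rel_aux m' (fun i => j (e i)) (ndOf N.val c).P (ndOf N.val c).M h.1 h.2 key cd)
  refine ⟨ψ, hψ, ?_⟩
  have h2 : ψ ∘ₗ (Submodule.span K (Set.range x)).subtype = j := by
    apply (Module.Basis.span hind).ext
    intro i
    have h3 : (Module.Basis.span hind) i = e i := Module.Basis.span_apply hind i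
    rw [h3]
    refine (hψ' (gen i)).trans ?_
    exact ev_gen _ _ i
  intro v
  exact LinearMap.congr_fun h2 v

theorem entry_map_range (f : ℕ → C) (L i : ℕ) (hi : i < L) :
    entry N.val ((List.range L).map f) i = N.val (f i) := by
  simp [entry, hi]

theorem index_lt {n a b : ℕ} (ha : a < n) (hb : b < n) : a * n + b < n * n := by
  calc a * n + b < a * n + n := by omega
    _ = (a + 1) * n := by ring
    _ ≤ n * n := Nat.mul_le_mul_right n ha

theorem index_div {L a b : ℕ} (hb : b < L) : (a * L + b) / L = a ∧ (a * L + b) % L = b := by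
  constructor
  · rw [add_comm, Nat.add_mul_div_right _ _ (by omega), Nat.div_eq_of_lt hb, zero_add]
  · rw [add_comm, Nat.add_mul_mod_self_right, Nat.mod_eq_of_lt hb]

theorem linearMap_eq_sum {ι κ : Type} [Fintype ι] [DecidableEq ι] (f : (ι → K) →ₗ[K] (κ → K))
    (z : ι → K) (k : κ) : f z k = ∑ i, f (Pi.single i 1) k * z i := by
  have h := congrFun (sum_smul_single f z) k
  rw [← h, Finset.sum_apply]
  refine Finset.sum_congr rfl (fun i _ => ?_)
  rw [Pi.smul_apply, smul_eq_mul, mul_comm]

/-- All normal form data have a code. -/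
theorem exists_ndOf (hs : Function.Surjective N.val) (D : ND K) :
    ∃ c : NC C, ndOf N.val c = D := by
  classical
  obtain ⟨n, P, M⟩ := D
  obtain ⟨s, hs⟩ := hs.hasRightInverse
  let p : ℕ → ℕ → ℕ → ℕ → K := fun a b c d => if h : (a < n ∧ b < n) ∧ c < n ∧ d < n then
    P (Pi.single (⟨c, h.2.1⟩, ⟨d, h.2.2⟩) 1) (⟨a, h.1.1⟩, ⟨b, h.1.2⟩) else 0
  let q : ℕ → ℕ → ℕ → K := fun a c d => if h : a < n ∧ c < n ∧ d < n then
    M (Pi.single (⟨c, h.2.1⟩, ⟨d, h.2.2⟩) 1) ⟨a, h.1⟩ else 0
  refine ⟨(n, (List.range (n * n * (n * n))).map (fun t => s (p (t / (n * n) / n)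
    (t / (n * n) % n) (t % (n * n) / n) (t % (n * n) % n))),
    (List.range (n * (n * n))).map (fun t => s (q (t / (n * n)) (t % (n * n) / n)
      (t % (n * n) % n)))), ?_⟩
  have h1 : ∀ a b c d : Fin n, entry N.val ((List.range (n * n * (n * n))).map (fun t =>
      s (p (t / (n * n) / n) (t / (n * n) % n) (t % (n * n) / n) (t % (n * n) % n))))
      ((a * n + b) * (n * n) + (c * n + d)) = P (Pi.single (c, d) 1) (a, b) := by
    intro a b c d
    have hab := index_lt a.2 b.2
    have hcd := index_lt c.2 d.2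
    rw [entry_map_range]
    · obtain ⟨h1, h2⟩ := index_div (a := a * n + b) hcd
      obtain ⟨h3, h4⟩ := index_div (a := a) b.2
      obtain ⟨h5, h6⟩ := index_div (a := c) d.2
      rw [h1, h2, h3, h4, h5, h6, hs]
      show (if h : ((a : ℕ) < n ∧ (b : ℕ) < n) ∧ (c : ℕ) < n ∧ (d : ℕ) < n then
        P (Pi.single (⟨c, h.2.1⟩, ⟨d, h.2.2⟩) 1) (⟨a, h.1.1⟩, ⟨b, h.1.2⟩) else 0) = _
      rw [dif_pos ⟨⟨a.2, b.2⟩, c.2, d.2⟩]
    · calc (a * n + b) * (n * n) + (c * n + d) < (a * n + b) * (n * n) + n * n := by omega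
        _ = (a * n + b + 1) * (n * n) := by ring
        _ ≤ n * n * (n * n) := Nat.mul_le_mul_right _ hab
  have h2 : ∀ a c d : Fin n, entry N.val ((List.range (n * (n * n))).map (fun t =>
      s (q (t / (n * n)) (t % (n * n) / n) (t % (n * n) % n))))
      (a * (n * n) + (c * n + d)) = M (Pi.single (c, d) 1) a := by
    intro a c d
    have hcd := index_lt c.2 d.2
    rw [entry_map_range]
    · obtain ⟨h1, h2⟩ := index_div (a := a) hcd
      obtain ⟨h5, h6⟩ := index_div (a := c) d.2
      rw [h1, h2, h5, h6, hs]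
      show (if h : (a : ℕ) < n ∧ (c : ℕ) < n ∧ (d : ℕ) < n then
        M (Pi.single (⟨c, h.2.1⟩, ⟨d, h.2.2⟩) 1) ⟨a, h.1⟩ else 0) = _
      rw [dif_pos ⟨a.2, c.2, d.2⟩]
    · calc a * (n * n) + (c * n + d) < a * (n * n) + n * n := by omega
        _ = (a + 1) * (n * n) := by ring
        _ ≤ n * (n * n) := Nat.mul_le_mul_right _ a.2
  have h3 : ∀ (P' : (Fin n × Fin n → K) →ₗ[K] (Fin n × Fin n → K))
      (M' : (Fin n × Fin n → K) →ₗ[K] (Fin n → K)), P' = P → M' = M →
      (⟨n, P', M'⟩ : ND K) = ⟨n, P, M⟩ := by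
    rintro P' M' rfl rfl
    rfl
  apply h3
  · refine LinearMap.ext (fun z => funext (fun ab => ?_))
    refine Eq.trans ?_ (linearMap_eq_sum P z ab).symm
    exact Finset.sum_congr rfl (fun cd _ => congrArg (· * z cd) (h1 ab.1 ab.2 cd.1 cd.2))
  · refine LinearMap.ext (fun z => funext (fun a => ?_))
    refine Eq.trans ?_ (linearMap_eq_sum M z a).symm
    exact Finset.sum_congr rfl (fun cd _ => congrArg (· * z cd) (h2 a cd.1 cd.2))

theorem tsq_id {n : ℕ} (z : Fin n × Fin n → K) :
    tsq (LinearEquiv.refl K (Fin n → K)).toLinearMap z = z := by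
  funext ab
  show ∑ c : Fin n, ∑ d : Fin n, z (c, d) * ((Pi.single c (1 : K) : Fin n → K) ab.1 *
    (Pi.single d (1 : K) : Fin n → K) ab.2) = z ab
  rw [Finset.sum_eq_single ab.1]
  · rw [Finset.sum_eq_single ab.2]
    · simp
    · intro b _ hb
      rw [Pi.single_eq_of_ne (Ne.symm hb), mul_zero, mul_zero]
    · intro h
      exact absurd (Finset.mem_univ _) h
  · intro b _ hb
    refine Finset.sum_eq_zero (fun d _ => ?_)
    rw [Pi.single_eq_of_ne (Ne.symm hb), zero_mul, mul_zero]
  · intro h
    exact absurd (Finset.mem_univ _) h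

theorem niso_refl (D : ND K) : NIso D D := by
  refine ⟨LinearEquiv.refl K _, fun z => ?_⟩
  rw [tsq_id]
  exact ⟨Iff.rfl, fun _ => rfl⟩

end coded

end NPresAux

section coded

variable {K C : Type} [Field K] [Primcodable C] (N : NumF K C)

/-- The relators of `npres`. -/
theorem mem_idl_npres (c : NC C) (cd : Fin c.1 × Fin c.1) :
    (gen cd.1 * gen cd.2 - ∑ ab : Fin c.1 × Fin c.1,
        (ndOf N.val c).P (Pi.single cd 1) ab • (gen ab.1 * gen ab.2) -
      ∑ a : Fin c.1, (ndOf N.val c).M (Pi.single cd 1) a • gen a : FA K c.1) ∈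
        idl N.val (npres N c) := NPresAux.mem_idl_npres' N c cd

/-- The generators realise the normal form data. -/
theorem realises_npres (c : NC C) (h : (ndOf N.val c).Ok) :
    Realises (qmul N.val (npres N c)) (ndOf N.val c)
      (fun i : Fin c.1 => Submodule.Quotient.mk (gen i)) := NPresAux.realises_npres' N c h

end coded

end Pool.Agent.Work.MP_9ac17e_al

end

section

/-!
# Primitive recursiveness of the reductions, and the set of the valid codes is r.e.
-/

set_option autoImplicit false

namespace Pool.Agent.Work.MP_9ac17e_al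

section coded

variable {K C : Type} [Field K] [Primcodable C] (N : NumF K C)

theorem primrec_npres : Primrec (npres N) := by
  unfold npres
  fun_prop

theorem primrec_fdPres : Primrec (fdPres N) := by
  unfold fdPres
  fun_prop

@[fun_prop] theorem primrec_ecoef {α : Type} [Primcodable α] {c : α → NC C} {i j k : α → ℕ}
    (hc : Primrec c) (hi : Primrec i) (hj : Primrec j) (hk : Primrec k) :
    Primrec (fun a => ecoef N (c a) (i a) (j a) (k a)) := by
  unfold ecoef
  refine PR.ite (by fun_prop)
    (PR.ite (by fun_prop) (PR.ite (by fun_prop) (by fun_prop) (by fun_prop))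
      (PR.ite (by fun_prop) (PR.ite (by fun_prop) (by fun_prop) (by fun_prop)) (by fun_prop)))
    (PR.ite (by fun_prop)
      (PR.ite (by fun_prop) (by fun_prop) (PR.ite (by fun_prop) (by fun_prop) (by fun_prop)))
      (by fun_prop))

theorem primrec_ecode : Primrec (ecode N) := by
  unfold ecode edim
  fun_prop

/-! ### The tests -/

/-- The code of the entry of `P` in row `s`, column `t`. -/
def pc (c : NC C) (s t : ℕ) : C := N.ent c.2.1 (s * (c.1 * c.1) + t)

/-- The code of the entry of `M` in row `a`, column `t`. -/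
def mc (c : NC C) (a t : ℕ) : C := N.ent c.2.2 (a * (c.1 * c.1) + t)

@[fun_prop] theorem primrec_pc {α : Type} [Primcodable α] {c : α → NC C} {s t : α → ℕ}
    (hc : Primrec c) (hs : Primrec s) (ht : Primrec t) :
    Primrec (fun a => pc N (c a) (s a) (t a)) := by
  unfold pc
  fun_prop

@[fun_prop] theorem primrec_mc {α : Type} [Primcodable α] {c : α → NC C} {s t : α → ℕ}
    (hc : Primrec c) (hs : Primrec s) (ht : Primrec t) :
    Primrec (fun a => mc N (c a) (s a) (t a)) := by
  unfold mc
  fun_prop

/-- The entry `r` of `e_s - P e_s`. -/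
def dc (c : NC C) (r s : ℕ) : C := N.add (if s = r then N.one else N.zero) (N.neg (pc N c r s))

@[fun_prop] theorem primrec_dc {α : Type} [Primcodable α] {c : α → NC C} {s t : α → ℕ}
    (hc : Primrec c) (hs : Primrec s) (ht : Primrec t) :
    Primrec (fun a => dc N (c a) (s a) (t a)) := by
  unfold dc
  fun_prop

/-- The test for `P P = P`. -/
def test1 (c : NC C) : Bool :=
  (List.range (c.1 * c.1)).all fun s => (List.range (c.1 * c.1)).all fun t =>
    N.eqb (N.sumc ((List.range (c.1 * c.1)).map fun r => N.mul (pc N c s r) (pc N c r t)))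
      (pc N c s t)

/-- The test for `M P = 0`. -/
def test2 (c : NC C) : Bool :=
  (List.range c.1).all fun s => (List.range (c.1 * c.1)).all fun t =>
    N.eqb (N.sumc ((List.range (c.1 * c.1)).map fun r => N.mul (mc N c s r) (pc N c r t)))
      N.zero

/-- The test for a certificate. -/
def test3 (c : NC C) (t : ℕ) (l : List C × List C) : Bool :=
  (List.range c.1).all fun a => N.eqb (mc N c a t)
    (N.sumc ((List.range (c.1 * c.1)).map fun s => N.sumc ((List.range c.1).map fun i =>
      N.add (N.mul (N.ent l.1 (s * c.1 + i)) (dc N c (i * c.1 + a) s))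
        (N.mul (N.ent l.2 (s * c.1 + i)) (dc N c (a * c.1 + i) s)))))

theorem primrec_test1 : Primrec (test1 N) := by
  unfold test1
  fun_prop

theorem primrec_test2 : Primrec (test2 N) := by
  unfold test2
  fun_prop

theorem primrec_test3 : Primrec (fun q : (NC C × ℕ) × (List C × List C) =>
    test3 N q.1.1 q.1.2 q.2) := by
  unfold test3
  fun_prop

/-! ### Indices -/

/-- The number of a pair. -/
def idx {n : ℕ} (ab : Fin n × Fin n) : ℕ := (ab.1 : ℕ) * n + (ab.2 : ℕ)

theorem idx_eq {n : ℕ} (ab : Fin n × Fin n) : idx ab = (finProdFinEquiv ab : ℕ) := by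
  unfold idx
  rw [finProdFinEquiv_apply_val]
  ring

theorem idx_lt {n : ℕ} (ab : Fin n × Fin n) : idx ab < n * n := by
  rw [idx_eq]
  exact (finProdFinEquiv ab).2

theorem idx_inj {n : ℕ} {ab cd : Fin n × Fin n} : idx ab = idx cd ↔ ab = cd := by
  rw [idx_eq, idx_eq, Fin.val_inj, EmbeddingLike.apply_eq_iff_eq]

theorem exists_idx {n s : ℕ} (h : s < n * n) : ∃ ab : Fin n × Fin n, idx ab = s := by
  refine ⟨finProdFinEquiv.symm ⟨s, h⟩, ?_⟩
  rw [idx_eq, Equiv.apply_symm_apply]

theorem sum_idx {n : ℕ} (f : ℕ → K) :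
    ∑ s : Fin (n * n), f s = ∑ ab : Fin n × Fin n, f (idx ab) := by
  symm
  refine Fintype.sum_equiv finProdFinEquiv _ _ (fun ab => ?_)
  rw [idx_eq]

/-! ### The matrices -/

variable (c : NC C)

/-- The projection of the data, with explicit types. -/
def PL : (Fin c.1 × Fin c.1 → K) →ₗ[K] (Fin c.1 × Fin c.1 → K) := (ndOf N.val c).P

/-- The multiplication of the data, with explicit types. -/
def ML : (Fin c.1 × Fin c.1 → K) →ₗ[K] (Fin c.1 → K) := (ndOf N.val c).M

theorem P_apply (z : Fin c.1 × Fin c.1 → K) (ab : Fin c.1 × Fin c.1) :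
    PL N c z ab = ∑ cd : Fin c.1 × Fin c.1, N.val (pc N c (idx ab) (idx cd)) * z cd := by
  unfold pc
  simp only [← entry_eq]
  rfl

theorem M_apply (z : Fin c.1 × Fin c.1 → K) (a : Fin c.1) :
    ML N c z a = ∑ cd : Fin c.1 × Fin c.1, N.val (mc N c a (idx cd)) * z cd := by
  unfold mc
  simp only [← entry_eq]
  rfl

theorem P_single (cd ab : Fin c.1 × Fin c.1) :
    PL N c (Pi.single cd 1) ab = N.val (pc N c (idx ab) (idx cd)) := by
  rw [P_apply, Finset.sum_eq_single cd]
  · simp
  · intro b _ hb
    simp [hb]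
  · intro h
    exact absurd (Finset.mem_univ _) h

theorem M_single (cd : Fin c.1 × Fin c.1) (a : Fin c.1) :
    ML N c (Pi.single cd 1) a = N.val (mc N c a (idx cd)) := by
  rw [M_apply, Finset.sum_eq_single cd]
  · simp
  · intro b _ hb
    simp [hb]
  · intro h
    exact absurd (Finset.mem_univ _) h

theorem sum_single {n : ℕ} (z : Fin n × Fin n → K) :
    z = ∑ cd : Fin n × Fin n, z cd • (Pi.single cd 1 : Fin n × Fin n → K) := by
  funext ab
  simp [Finset.sum_apply, Pi.single_apply]

theorem test1_iff : test1 N c = true ↔ ∀ z, PL N c (PL N c z) = PL N c z := by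
  unfold test1
  simp only [List.all_eq_true, List.mem_range, N.val_eq, N.val_sum_range, N.val_mul]
  constructor
  · intro h
    have h1 : ∀ cd : Fin c.1 × Fin c.1, PL N c (PL N c (Pi.single cd 1)) =
        PL N c (Pi.single cd 1) := by
      intro cd
      funext ab
      have h2 := h (idx ab) (idx_lt ab) (idx cd) (idx_lt cd)
      rw [sum_idx (n := c.1) (fun r => N.val (pc N c (idx ab) r) * N.val (pc N c r (idx cd)))] at h2
      rw [P_apply, P_single, ← h2]
      refine Finset.sum_congr rfl (fun ef _ => ?_)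
      rw [P_single]
    intro z
    rw [sum_single z]
    simp only [map_sum, map_smul, h1]
  · intro h s hs t ht
    obtain ⟨ab, rfl⟩ := exists_idx hs
    obtain ⟨cd, rfl⟩ := exists_idx ht
    have h2 := congrFun (h (Pi.single cd 1)) ab
    rw [P_apply, P_single] at h2
    rw [sum_idx (n := c.1) (fun r => N.val (pc N c (idx ab) r) * N.val (pc N c r (idx cd))), ← h2]
    refine Finset.sum_congr rfl (fun ef _ => ?_)
    rw [P_single]

theorem test2_iff : test2 N c = true ↔ ∀ z, ML N c (PL N c z) = 0 := by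
  unfold test2
  simp only [List.all_eq_true, List.mem_range, N.val_eq, N.val_sum_range, N.val_mul, N.val_zero]
  constructor
  · intro h
    have h1 : ∀ cd : Fin c.1 × Fin c.1, ML N c (PL N c (Pi.single cd 1)) = 0 := by
      intro cd
      funext a
      have h2 := h a a.2 (idx cd) (idx_lt cd)
      rw [sum_idx (n := c.1) (fun r => N.val (mc N c a r) * N.val (pc N c r (idx cd)))] at h2
      rw [M_apply, Pi.zero_apply, ← h2]
      refine Finset.sum_congr rfl (fun ef _ => ?_)
      rw [P_single]
    intro z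
    rw [sum_single z]
    simp only [map_sum, map_smul, h1, smul_zero, Finset.sum_const_zero]
  · intro h s hs t ht
    obtain ⟨cd, rfl⟩ := exists_idx ht
    have h2 := congrFun (h (Pi.single cd 1)) ⟨s, hs⟩
    rw [M_apply, Pi.zero_apply] at h2
    rw [sum_idx (n := c.1) (fun r => N.val (mc N c s r) * N.val (pc N c r (idx cd))), ← h2]
    refine Finset.sum_congr rfl (fun ef _ => ?_)
    rw [P_single]

theorem ok_iff : (ndOf N.val c).Ok ↔ (test1 N c && test2 N c) = true := by
  rw [Bool.and_eq_true, test1_iff, test2_iff]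
  rfl

/-- The set of the rows and columns in the definition of `Rd`. -/
def RC : Set (Fin c.1 → K) := {x | ∃ w, PL N c w = 0 ∧ ∃ i : Fin c.1,
  x = (fun a => w (i, a)) ∨ x = (fun a => w (a, i))}

theorem rd_iff : (ndOf N.val c).Rd ↔ ∀ z, ML N c z ∈ Submodule.span K (RC N c) := Iff.rfl

/-- Entry `(ab)` of `e_ef - P e_ef`. -/
def dK (ab ef : Fin c.1 × Fin c.1) : K := N.val (dc N c (idx ab) (idx ef))

theorem dK_eq (ab ef : Fin c.1 × Fin c.1) : dK N c ab ef =
    ((Pi.single ef 1 : Fin c.1 × Fin c.1 → K) - PL N c (Pi.single ef 1)) ab := by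
  unfold dK dc
  rw [N.val_add, N.val_neg, Pi.sub_apply, P_single, sub_eq_add_neg]
  congr 1
  by_cases h : ef = ab
  · subst h
    simp [N.val_one]
  · have h1 : ¬ idx ef = idx ab := fun h' => h (idx_inj.1 h')
    rw [if_neg h1, N.val_zero, Pi.single_apply, if_neg (fun h' => h h'.symm)]

/-- The linear combination of rows and columns with given coefficients. -/
def comb (u v : (Fin c.1 × Fin c.1) → Fin c.1 → K) (a : Fin c.1) : K :=
  ∑ ef : Fin c.1 × Fin c.1, ∑ i : Fin c.1,
    (u ef i * dK N c (i, a) ef + v ef i * dK N c (a, i) ef)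

theorem test3_iff (cd : Fin c.1 × Fin c.1) (l : List C × List C) :
    test3 N c (idx cd) l = true ↔ ML N c (Pi.single cd 1) =
      comb N c (fun ef i => N.val (N.ent l.1 (idx ef * c.1 + i)))
        (fun ef i => N.val (N.ent l.2 (idx ef * c.1 + i))) := by
  unfold test3
  simp only [List.all_eq_true, List.mem_range, N.val_eq, N.val_sum_range, N.val_mul, N.val_add]
  have key : ∀ a : Fin c.1, ∑ s : Fin (c.1 * c.1), ∑ i : Fin c.1,
      (N.val (N.ent l.1 (s * c.1 + i)) * N.val (dc N c (i * c.1 + a) s) +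
        N.val (N.ent l.2 (s * c.1 + i)) * N.val (dc N c (a * c.1 + i) s)) =
      comb N c (fun ef i => N.val (N.ent l.1 (idx ef * c.1 + i)))
        (fun ef i => N.val (N.ent l.2 (idx ef * c.1 + i))) a := by
    intro a
    rw [sum_idx (n := c.1) (fun s => ∑ i : Fin c.1,
      (N.val (N.ent l.1 (s * c.1 + i)) * N.val (dc N c (i * c.1 + a) s) +
        N.val (N.ent l.2 (s * c.1 + i)) * N.val (dc N c (a * c.1 + i) s)))]
    rfl
  constructor
  · intro h
    funext a
    rw [M_single, h a a.2, key]
  · intro h a ha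
    have h1 := congrFun h ⟨a, ha⟩
    rw [M_single] at h1
    rw [h1, ← key]

/-- Codes for arbitrary coefficients. -/
theorem exists_list (hs : Function.Surjective N.val) (u : (Fin c.1 × Fin c.1) → Fin c.1 → K) :
    ∃ l : List C, ∀ (ef : Fin c.1 × Fin c.1) (i : Fin c.1),
      N.val (N.ent l (idx ef * c.1 + (i : ℕ))) = u ef i := by
  classical
  have h1 : ∀ k : ℕ, ∃ x : C, ∀ ef i, idx ef * c.1 + (i : Fin c.1).val = k → N.val x = u ef i := by
    intro k
    by_cases hk : ∃ ef : Fin c.1 × Fin c.1, ∃ i : Fin c.1, idx ef * c.1 + i.val = k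
    · obtain ⟨ef, i, rfl⟩ := hk
      obtain ⟨x, hx⟩ := hs (u ef i)
      refine ⟨x, fun ef' i' h => ?_⟩
      have hpos : 0 < c.1 := lt_of_le_of_lt (Nat.zero_le _) i.2
      have h2 : i' = i := by
        apply Fin.ext
        have := congrArg (fun t => t % c.1) h
        simpa [Nat.add_mod, Nat.mod_eq_of_lt i.2, Nat.mod_eq_of_lt i'.2] using this
      subst h2
      have h3 : idx ef' * c.1 = idx ef * c.1 := Nat.add_right_cancel h
      have h4 : idx ef' = idx ef := Nat.eq_of_mul_eq_mul_right hpos h3
      rw [hx, idx_inj.1 h4]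
    · exact ⟨N.zero, fun ef i h => absurd ⟨ef, i, h⟩ hk⟩
  choose f hf using h1
  refine ⟨(List.range (c.1 * c.1 * c.1)).map f, fun ef i => ?_⟩
  have hlt : idx ef * c.1 + (i : ℕ) < c.1 * c.1 * c.1 := by
    have h2 := idx_lt ef
    have h3 := i.2
    calc idx ef * c.1 + (i : ℕ) < idx ef * c.1 + c.1 := by omega
      _ = (idx ef + 1) * c.1 := by ring
      _ ≤ c.1 * c.1 * c.1 := Nat.mul_le_mul_right _ h2
  unfold NumF.ent
  rw [List.getElem?_map, List.getElem?_range hlt]
  exact hf _ ef i rfl

theorem cert_iff (hs : Function.Surjective N.val) (h1 : ∀ z, PL N c (PL N c z) = PL N c z) (cd : Fin c.1 × Fin c.1) :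
    ML N c (Pi.single cd 1) ∈ Submodule.span K (RC N c) ↔
      ∃ l : List C × List C, test3 N c (idx cd) l = true := by
  have h3 : (∃ l : List C × List C, test3 N c (idx cd) l = true) ↔
      ∃ u v, ML N c (Pi.single cd 1) = comb N c u v := by
    constructor
    · rintro ⟨l, hl⟩
      exact ⟨_, _, (test3_iff N c cd l).1 hl⟩
    · rintro ⟨u, v, h⟩
      obtain ⟨l, hl⟩ := exists_list N c hs u
      obtain ⟨l', hl'⟩ := exists_list N c hs v
      refine ⟨(l, l'), (test3_iff N c cd (l, l')).2 ?_⟩
      simp only [hl, hl']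
      exact h
  rw [h3]
  constructor
  · intro h
    let W : Submodule K (Fin c.1 → K) :=
      { carrier := {x | ∃ u v, x = comb N c u v}
        add_mem' := by
          rintro x y ⟨u, v, rfl⟩ ⟨u', v', rfl⟩
          refine ⟨u + u', v + v', ?_⟩
          funext a
          simp only [comb, Pi.add_apply, ← Finset.sum_add_distrib]
          exact Finset.sum_congr rfl (fun _ _ => Finset.sum_congr rfl (fun _ _ => by ring))
        zero_mem' := ⟨0, 0, by funext a; simp [comb]⟩
        smul_mem' := by
          rintro r x ⟨u, v, rfl⟩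
          refine ⟨r • u, r • v, ?_⟩
          funext a
          simp only [comb, Pi.smul_apply, smul_eq_mul, Finset.mul_sum]
          exact Finset.sum_congr rfl (fun _ _ => Finset.sum_congr rfl (fun _ _ => by ring)) }
    have hW : Submodule.span K (RC N c) ≤ W := by
      refine Submodule.span_le.2 ?_
      rintro x ⟨w, hw, i, hx⟩
      have hw' : ∀ ab, w ab = ∑ ef, w ef * dK N c ab ef := by
        intro ab
        have h4 : w = ∑ ef, w ef • ((Pi.single ef 1 : Fin c.1 × Fin c.1 → K) -
            PL N c (Pi.single ef 1)) := by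
          simp only [smul_sub, Finset.sum_sub_distrib, ← map_smul]
          rw [← map_sum, ← sum_single w, hw, sub_zero]
        conv_lhs => rw [h4]
        rw [Finset.sum_apply]
        refine Finset.sum_congr rfl (fun ef _ => ?_)
        rw [dK_eq, Pi.smul_apply, smul_eq_mul]
      rcases hx with rfl | rfl
      · refine ⟨fun ef i' => if i' = i then w ef else 0, fun _ _ => 0, ?_⟩
        funext a
        simp only [comb, zero_mul, add_zero, ite_mul]
        rw [hw' (i, a)]
        refine Finset.sum_congr rfl (fun ef _ => ?_)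
        rw [Finset.sum_ite_eq' Finset.univ i, if_pos (Finset.mem_univ _)]
      · refine ⟨fun _ _ => 0, fun ef i' => if i' = i then w ef else 0, ?_⟩
        funext a
        simp only [comb, zero_mul, zero_add, ite_mul]
        rw [hw' (a, i)]
        refine Finset.sum_congr rfl (fun ef _ => ?_)
        rw [Finset.sum_ite_eq' Finset.univ i, if_pos (Finset.mem_univ _)]
    exact hW h
  · rintro ⟨u, v, h⟩
    rw [h]
    have h5 : comb N c u v = ∑ ef : Fin c.1 × Fin c.1, ∑ i : Fin c.1,
        (u ef i • (fun a => ((Pi.single ef 1 : Fin c.1 × Fin c.1 → K) -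
          PL N c (Pi.single ef 1)) (i, a)) +
         v ef i • (fun a => ((Pi.single ef 1 : Fin c.1 × Fin c.1 → K) -
          PL N c (Pi.single ef 1)) (a, i))) := by
      funext a
      simp only [comb, Finset.sum_apply, Pi.add_apply, Pi.smul_apply, smul_eq_mul, ← dK_eq]
    rw [h5]
    have h6 : ∀ ef : Fin c.1 × Fin c.1, PL N c ((Pi.single ef 1 : Fin c.1 × Fin c.1 → K) -
        PL N c (Pi.single ef 1)) = 0 := by
      intro ef
      rw [map_sub, h1, sub_self]
    refine Submodule.sum_mem _ (fun ef _ => Submodule.sum_mem _ (fun i _ => ?_))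
    refine Submodule.add_mem _ (Submodule.smul_mem _ _ (Submodule.subset_span ?_))
      (Submodule.smul_mem _ _ (Submodule.subset_span ?_))
    · exact ⟨_, h6 ef, i, Or.inl rfl⟩
    · exact ⟨_, h6 ef, i, Or.inr rfl⟩

theorem rd_iff' (hs : Function.Surjective N.val) (h1 : ∀ z, PL N c (PL N c z) = PL N c z) : (ndOf N.val c).Rd ↔
    ∀ t ∈ List.range (c.1 * c.1), ∃ l : List C × List C, test3 N c t l = true := by
  rw [rd_iff]
  constructor
  · intro h t ht
    obtain ⟨cd, rfl⟩ := exists_idx (List.mem_range.1 ht)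
    exact (cert_iff N c hs h1 cd).1 (h _)
  · intro h z
    rw [sum_single z, map_sum]
    refine Submodule.sum_mem _ (fun cd _ => ?_)
    rw [map_smul]
    exact Submodule.smul_mem _ _ ((cert_iff N c hs h1 cd).2 (h _ (List.mem_range.2 (idx_lt cd))))

/-- Certificate: coefficients which express `M e_(cd)` by the rows and columns of the
`e_(ef) - P e_(ef)`. -/
theorem sig_valid (hs : Function.Surjective N.val) : PR.Sig (fun c : NC C => (ndOf N.val c).Ok ∧ (ndOf N.val c).Rd) := by
  have h1 : PR.Sig (fun c : NC C => (test1 N c && test2 N c) = true) :=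
    PR.Sig.of_bool (PR.and (primrec_test1 N) (primrec_test2 N))
  have h2 : PR.Sig (fun q : NC C × ℕ => ∃ l : List C × List C, test3 N q.1 q.2 l = true) :=
    (PR.Sig.of_bool (primrec_test3 N)).ex
  have h3 : PR.Sig (fun c : NC C => ∀ t ∈ List.range (c.1 * c.1),
      ∃ l : List C × List C, test3 N c t l = true) :=
    h2.all (l := fun c : NC C => List.range (c.1 * c.1)) (by fun_prop)
  refine (h1.and h3).congr (fun c => ?_)
  rw [← ok_iff]
  constructor
  · rintro ⟨ha, hb⟩
    exact ⟨ha, (rd_iff' N c hs ha.1).2 hb⟩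
  · rintro ⟨ha, hb⟩
    exact ⟨ha, (rd_iff' N c hs ha.1).1 hb⟩

end coded

end Pool.Agent.Work.MP_9ac17e_al

end

section

/-!
# Reduced closed generating subspaces (item I4)
-/

set_option autoImplicit false

namespace Pool.Agent.Work.MP_9ac17e_al

open TensorProduct

section abstract

variable {K : Type} [Field K] {A B : Type} [AddCommGroup A] [Module K A] [AddCommGroup B]
  [Module K B] (m : A →ₗ[K] A →ₗ[K] A) (m' : B →ₗ[K] B →ₗ[K] B)

theorem pre_mono {V V' : Submodule K A} (h : V ≤ V') : pre m V ≤ pre m V' :=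
  Submodule.comap_mono h

theorem supp_pre_le {V : Submodule K A} (hC : Closed m V) : supp (pre m V) ≤ V :=
  (le_sq_iff _ _).1 hC

theorem map_sq_le {S : Submodule K A} (hS : ∀ x ∈ S, ∀ y ∈ S, m x y ∈ S) :
    (sq S).map (mt m) ≤ S := by
  rintro _ ⟨_, ⟨w, rfl⟩, rfl⟩
  induction w using TensorProduct.induction_on with
  | zero => simp
  | tmul x y => simpa using hS x x.2 y y.2
  | add a b ha hb =>
    rw [map_add, map_add]
    exact S.add_mem ha hb

/-- The subspaces generated by `V` step by step. -/
noncomputable def stage (V : Submodule K A) : ℕ → Submodule K A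
  | 0 => V
  | n + 1 => V ⊔ (sq (stage V n)).map (mt m)

theorem le_stage (V : Submodule K A) (n : ℕ) : V ≤ stage m V n := by
  cases n with
  | zero => exact le_rfl
  | succ n => exact le_sup_left

theorem stage_le_succ (V : Submodule K A) (n : ℕ) : stage m V n ≤ stage m V (n + 1) := by
  induction n with
  | zero => exact le_sup_left
  | succ n ih => exact sup_le_sup_left (Submodule.map_mono (sq_mono ih)) V

theorem stage_mono (V : Submodule K A) : Monotone (stage m V) :=
  monotone_nat_of_le_succ (stage_le_succ m V)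

theorem pre_stage_le {V : Submodule K A} (hC : Closed m V) (n : ℕ) :
    pre m (stage m V (n + 1)) ≤ sq (stage m V n) := by
  intro z hz
  have hz' : mt m z ∈ V ⊔ (sq (stage m V n)).map (mt m) := hz
  obtain ⟨v, hv, _, ⟨s, hs, rfl⟩, hvs⟩ := Submodule.mem_sup.1 hz'
  have h1 : z - s ∈ pre m V := by
    change mt m (z - s) ∈ V
    rw [map_sub, ← hvs, add_sub_cancel_right]
    exact hv
  have h2 := sq_mono (le_stage m V n) (hC h1)
  have h3 := (sq (stage m V n)).add_mem h2 hs
  rwa [sub_add_cancel] at h3

theorem iSup_stage {V : Submodule K A} (hG : Gen m V) : (⨆ n, stage m V n) = ⊤ := by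
  refine hG _ (le_iSup (stage m V) 0) ?_
  intro x hx y hy
  rw [Submodule.mem_iSup_of_directed _ (stage_mono m V).directed_le] at hx hy ⊢
  obtain ⟨a, ha⟩ := hx
  obtain ⟨b, hb⟩ := hy
  refine ⟨max a b + 1, Submodule.mem_sup_right ⟨x ⊗ₜ[K] y, ?_, mt_tmul m x y⟩⟩
  exact tmul_mem_sq (stage_mono m V (le_max_left a b) ha) (stage_mono m V (le_max_right a b) hb)

theorem exists_le_stage {V U : Submodule K A} (hG : Gen m V) (hU : FiniteDimensional K U) :
    ∃ n, U ≤ stage m V n := by
  have hfg : U.FG := (Submodule.fg_top U).1 hU.fg_top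
  obtain ⟨s, rfl⟩ := hfg
  have h1 : ∀ x ∈ s, ∃ n, x ∈ stage m V n := by
    intro x _
    have hx : x ∈ ⨆ n, stage m V n := by rw [iSup_stage m hG]; exact Submodule.mem_top
    rwa [Submodule.mem_iSup_of_directed _ (stage_mono m V).directed_le] at hx
  choose! f hf using h1
  refine ⟨s.sup f, ?_⟩
  rw [Submodule.span_le]
  intro x hx
  exact stage_mono m V (Finset.le_sup hx) (hf x hx)

/-- If `V` is closed and generating then every finite-dimensional `U` with `U ≤ supp (pre m U)` is
contained in `V`. -/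
theorem le_of_self_supporting {V U : Submodule K A} (hG : Gen m V) (hC : Closed m V)
    (hU : FiniteDimensional K U) (h : U ≤ supp (pre m U)) : U ≤ V := by
  obtain ⟨n, hn⟩ := exists_le_stage m hG hU
  induction n with
  | zero => exact hn
  | succ n ih =>
    apply ih
    refine h.trans ((le_sq_iff _ _).1 ?_)
    exact (pre_mono m hn).trans (pre_stage_le m hC n)

/-- A closed generating subspace of minimal dimension is reduced. -/
theorem exists_reduced {V : Submodule K A} (hV : FiniteDimensional K V) (hG : Gen m V)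
    (hC : Closed m V) : ∃ V' : Submodule K A, FiniteDimensional K V' ∧ Gen m V' ∧ Closed m V' ∧
      Red m V' := by
  obtain ⟨k, hk⟩ : ∃ k, Module.finrank K V = k := ⟨_, rfl⟩
  induction k using Nat.strong_induction_on generalizing V with
  | _ k ih =>
    by_cases hR : Red m V
    · exact ⟨V, hV, hG, hC, hR⟩
    · obtain ⟨_, ⟨z, hz, rfl⟩, hzT⟩ := Set.not_subset.1 hR
      set T := supp (pre m V) with hT
      have hTV : T ≤ V := supp_pre_le m hC
      obtain ⟨f, hf1, hf2⟩ := Submodule.exists_le_ker_of_notMem hzT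
      set V' := V ⊓ LinearMap.ker f with hV'
      have hTV' : T ≤ V' := le_inf hTV hf2
      have hVV' : V' ≤ V := inf_le_left
      have hzV : mt m z ∈ V := hz
      have hzV' : mt m z ∉ V' := fun hmem => hf1 hmem.2
      have hlt : V' < V := lt_of_le_of_ne hVV' (fun he => hzV' (he ▸ hzV))
      have hfd : FiniteDimensional K V' := Submodule.finiteDimensional_of_le hVV'
      have hpre : pre m V ≤ sq T := le_sq_supp _
      refine ih (Module.finrank K V') (hk ▸ Submodule.finrank_lt_finrank_of_lt hlt) hfd ?_ ?_ rfl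
      · intro S hS hSm
        refine hG S ?_ hSm
        intro v hv
        have h1 : mt m z ∈ S :=
          map_sq_le m hSm ⟨z, sq_mono (hTV'.trans hS) (hpre hz), rfl⟩
        have h2 : v - (f v / f (mt m z)) • mt m z ∈ V' := by
          refine ⟨V.sub_mem hv (V.smul_mem _ hzV), ?_⟩
          change f _ = 0
          rw [map_sub, map_smul, smul_eq_mul, div_mul_cancel₀ _ hf1, sub_self]
        have h3 := S.add_mem (hS h2) (S.smul_mem (f v / f (mt m z)) h1)
        rwa [sub_add_cancel] at h3
      · exact ((pre_mono m hVV').trans hpre).trans (sq_mono hTV')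

theorem sup_range_mt {V : Submodule K A} (hG : Gen m V) : V ⊔ LinearMap.range (mt m) = ⊤ := by
  refine hG _ le_sup_left ?_
  intro x _ y _
  exact Submodule.mem_sup_right ⟨x ⊗ₜ[K] y, mt_tmul m x y⟩

/-- The projection of `V` to `A` modulo `supp (pre m V) + range`. -/
noncomputable def projW (V W : Submodule K A) : V →ₗ[K] (A ⧸ W) := W.mkQ ∘ₗ V.subtype

theorem projW_surjective {V W : Submodule K A} (h : V ⊔ W = ⊤) :
    Function.Surjective (projW V W) := by
  intro q
  obtain ⟨a, rfl⟩ := W.mkQ_surjective q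
  have ha : a ∈ V ⊔ W := h ▸ Submodule.mem_top
  obtain ⟨v, hv, w, hw, rfl⟩ := Submodule.mem_sup.1 ha
  refine ⟨⟨v, hv⟩, ?_⟩
  simp only [projW, LinearMap.comp_apply, Submodule.subtype_apply]
  rw [map_add, (Submodule.Quotient.mk_eq_zero W (x := w)).2 hw |> fun h => (by
    simpa using h : W.mkQ w = 0), add_zero]

theorem projW_eq_zero {V W : Submodule K A} (v : V) : projW V W v = 0 ↔ (v : A) ∈ W := by
  simp [projW]

theorem mem_T_of_mem {V : Submodule K A} (hR : Red m V) (hC : Closed m V) {v : A} (hv : v ∈ V)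
    (hw : v ∈ supp (pre m V) ⊔ LinearMap.range (mt m)) : v ∈ supp (pre m V) := by
  obtain ⟨t, ht, _, ⟨z, rfl⟩, rfl⟩ := Submodule.mem_sup.1 hw
  have h1 : mt m z ∈ V := by
    have := V.sub_mem hv (supp_pre_le m hC ht)
    rwa [add_sub_cancel_left] at this
  have h2 : mt m z ∈ supp (pre m V) := hR ⟨z, h1, rfl⟩
  exact (supp (pre m V)).add_mem ht h2

theorem supp_le_of_reduced {V V' : Submodule K A} (hV : FiniteDimensional K V)
    (hC : Closed m V) (hR : Red m V) (hG' : Gen m V')
    (hC' : Closed m V') : supp (pre m V) ≤ supp (pre m V') := by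
  have h1 : pre m V ≤ pre m (supp (pre m V)) := fun z hz => hR ⟨z, hz, rfl⟩
  have h2 : supp (pre m V) ≤ supp (pre m (supp (pre m V))) := supp_mono h1
  have h3 : FiniteDimensional K (supp (pre m V)) :=
    Submodule.finiteDimensional_of_le (supp_pre_le m hC)
  have h4 := le_of_self_supporting m hG' hC' h3 h2
  exact h2.trans (supp_mono (pre_mono m h4))

theorem pre_le_of_reduced {V V' : Submodule K A} (hV : FiniteDimensional K V)
    (hC : Closed m V) (hR : Red m V) (hG' : Gen m V')
    (hC' : Closed m V') : pre m V ≤ pre m V' := by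
  intro z hz
  have h1 : mt m z ∈ supp (pre m V) := hR ⟨z, hz, rfl⟩
  exact supp_pre_le m hC' (supp_le_of_reduced m hV hC hR hG' hC' h1)

/-- Two reduced subspaces are related by a linear isomorphism which is the identity on the common
`T = supp (pre m V)`. -/
theorem exists_equiv_of_reduced {V V' : Submodule K A} (hV : FiniteDimensional K V) (hG : Gen m V)
    (hC : Closed m V) (hR : Red m V) (hV' : FiniteDimensional K V') (hG' : Gen m V')
    (hC' : Closed m V') (hR' : Red m V') :
    ∃ α : V ≃ₗ[K] V', ∀ v : V, (v : A) ∈ supp (pre m V) → (α v : A) = v := by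
  have hT : supp (pre m V) = supp (pre m V') :=
    le_antisymm (supp_le_of_reduced m hV hC hR hG' hC') (supp_le_of_reduced m hV' hC' hR' hG hC)
  set W := supp (pre m V) ⊔ LinearMap.range (mt m) with hW
  have hW' : W = supp (pre m V') ⊔ LinearMap.range (mt m) := by rw [hW, hT]
  have h1 : V ⊔ W = ⊤ := top_le_iff.1 ((sup_range_mt m hG).ge.trans
    (sup_le_sup_left le_sup_right V))
  have h1' : V' ⊔ W = ⊤ := top_le_iff.1 ((sup_range_mt m hG').ge.trans
    (sup_le_sup_left le_sup_right V'))
  set f := projW V W with hf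
  set f' := projW V' W with hf'
  obtain ⟨s, hs⟩ := f.exists_rightInverse_of_surjective
    (LinearMap.range_eq_top.2 (projW_surjective h1))
  obtain ⟨s', hs'⟩ := f'.exists_rightInverse_of_surjective
    (LinearMap.range_eq_top.2 (projW_surjective h1'))
  have hs1 : ∀ q, f (s q) = q := fun q => LinearMap.congr_fun hs q
  have hs1' : ∀ q, f' (s' q) = q := fun q => LinearMap.congr_fun hs' q
  have key : ∀ v : V, ((v - s (f v) : V) : A) ∈ supp (pre m V) := by
    intro v
    refine mem_T_of_mem m hR hC (v - s (f v)).2 ?_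
    rw [← hW, ← projW_eq_zero, ← hf, map_sub, hs1, sub_self]
  have key' : ∀ v : V', ((v - s' (f' v) : V') : A) ∈ supp (pre m V) := by
    intro v
    rw [hT]
    refine mem_T_of_mem m hR' hC' (v - s' (f' v)).2 ?_
    rw [← hW', ← projW_eq_zero, ← hf', map_sub, hs1', sub_self]
  have hTV : supp (pre m V) ≤ V := supp_pre_le m hC
  have hTV' : supp (pre m V) ≤ V' := hT ▸ supp_pre_le m hC'
  have hTf : ∀ (v : V), (v : A) ∈ supp (pre m V) → f v = 0 := fun v hv =>
    (projW_eq_zero v).2 (Submodule.mem_sup_left hv)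
  have hTf' : ∀ (v : V'), (v : A) ∈ supp (pre m V) → f' v = 0 := fun v hv =>
    (projW_eq_zero v).2 (Submodule.mem_sup_left hv)
  let a : V →ₗ[K] V' := (V.subtype - V.subtype ∘ₗ s ∘ₗ f).codRestrict V'
    (fun v => hTV' (by simpa using key v)) + s' ∘ₗ f
  let b : V' →ₗ[K] V := (V'.subtype - V'.subtype ∘ₗ s' ∘ₗ f').codRestrict V
    (fun v => hTV (by simpa using key' v)) + s ∘ₗ f'
  have ha : ∀ v : V, (a v : A) = v - s (f v) + s' (f v) := fun v => by simp [a]
  have hb : ∀ v : V', (b v : A) = v - s' (f' v) + s (f' v) := fun v => by simp [b]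
  have hfa : ∀ v, f' (a v) = f v := by
    intro v
    have h2 : a v = ⟨((v - s (f v) : V) : A), hTV' (key v)⟩ + s' (f v) := by
      apply Subtype.ext
      rw [ha]
      simp
    rw [h2, map_add, hs1', hTf' _ (key v), zero_add]
  have hfb : ∀ v, f (b v) = f' v := by
    intro v
    have h2 : b v = ⟨((v - s' (f' v) : V') : A), hTV (key' v)⟩ + s (f' v) := by
      apply Subtype.ext
      rw [hb]
      simp
    rw [h2, map_add, hs1, hTf _ (key' v), zero_add]
  refine ⟨LinearEquiv.ofLinear a b ?_ ?_, ?_⟩
  · ext v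
    simp only [LinearMap.comp_apply, LinearMap.id_apply]
    rw [ha, hb, hfb]
    abel
  · ext v
    simp only [LinearMap.comp_apply, LinearMap.id_apply]
    rw [hb, ha, hfa]
    abel
  · intro v hv
    rw [LinearEquiv.ofLinear_apply, ha, hTf v hv, map_zero, map_zero]
    simp

/-- Uniqueness of reduced closed generating subspaces. -/
theorem reduced_unique {V V' : Submodule K A} (hV : FiniteDimensional K V) (hG : Gen m V)
    (hC : Closed m V) (hR : Red m V) (hV' : FiniteDimensional K V') (hG' : Gen m V')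
    (hC' : Closed m V') (hR' : Red m V') :
    supp (pre m V) = supp (pre m V') ∧ pre m V = pre m V' ∧
      Module.finrank K V = Module.finrank K V' := by
  refine ⟨le_antisymm (supp_le_of_reduced m hV hC hR hG' hC')
    (supp_le_of_reduced m hV' hC' hR' hG hC), le_antisymm (pre_le_of_reduced m hV hC hR hG' hC')
    (pre_le_of_reduced m hV' hC' hR' hG hC), ?_⟩
  obtain ⟨α, -⟩ := exists_equiv_of_reduced m hV hG hC hR hV' hG' hC' hR'
  exact α.finrank_eq

end abstract

end Pool.Agent.Work.MP_9ac17e_al

end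

section

/-!
# The span of the classes of short monomials is a closed generating subspace
-/

set_option autoImplicit false

namespace Pool.Agent.Work.MP_9ac17e_al

open TensorProduct

/-- There are finitely many nonassociative monomials of bounded length. -/
theorem finite_short (n L : ℕ) : {x : FreeMagma (Fin n) | x.length ≤ L}.Finite := by
  induction L with
  | zero =>
    convert Set.finite_empty
    ext x
    simp only [Set.mem_ofPred_eq, Set.mem_empty_iff_false, iff_false, not_le]
    exact x.length_pos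
  | succ L ih =>
    have h : {x : FreeMagma (Fin n) | x.length ≤ L + 1} ⊆
        Set.range FreeMagma.of ∪ Set.image2 (· * ·) {x : FreeMagma (Fin n) | x.length ≤ L}
          {x : FreeMagma (Fin n) | x.length ≤ L} := by
      intro x hx
      induction x using FreeMagma.recOnMul with
      | ih1 i => exact Or.inl ⟨i, rfl⟩
      | ih2 x y _ _ =>
        right
        have h1 : x.length + y.length ≤ L + 1 := hx
        have h2 := x.length_pos
        have h3 := y.length_pos
        exact ⟨x, by simp only [Set.mem_ofPred_eq]; omega, y, by simp only [Set.mem_ofPred_eq]; omega, rfl⟩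
    exact ((Set.finite_range _).union (Set.Finite.image2 _ ih ih)).subset h

/-- Upper bounds of functions on lists. -/
theorem exists_list_bound {α : Type*} (f : α → ℕ) (l : List α) : ∃ N, ∀ a ∈ l, f a ≤ N := by
  induction l with
  | nil => exact ⟨0, by simp⟩
  | cons b l ih =>
    obtain ⟨N, hN⟩ := ih
    refine ⟨max N (f b), fun a ha => ?_⟩
    rcases List.mem_cons.1 ha with rfl | h
    · exact le_max_right _ _
    · exact (hN a h).trans (le_max_left _ _)

/-- An element of the free algebra which is zero or a monomial of length at most `2 ^ k`. -/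
def Short {K : Type} [Field K] {n : ℕ} (k : ℕ) (e : FA K n) : Prop :=
  e = 0 ∨ ∃ x : FreeMagma (Fin n), x.length ≤ 2 ^ k ∧ e = MonoidAlgebra.single x (1 : K)

theorem Short.mono {K : Type} [Field K] {n : ℕ} {k k' : ℕ} (h : k ≤ k') {e : FA K n}
    (he : Short k e) : Short k' e := by
  rcases he with he | ⟨x, hx, he⟩
  · exact Or.inl he
  · exact Or.inr ⟨x, hx.trans (Nat.pow_le_pow_right (by norm_num) h), he⟩

theorem Short.mul {K : Type} [Field K] {n : ℕ} {k : ℕ} {e f : FA K n}
    (he : Short k e) (hf : Short k f) : Short (k + 1) (e * f) := by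
  rcases he with rfl | ⟨x, hx, rfl⟩
  · left; simp
  · rcases hf with rfl | ⟨y, hy, rfl⟩
    · left; simp
    · right
      refine ⟨x * y, ?_, ?_⟩
      · show x.length + y.length ≤ 2 ^ (k + 1)
        rw [pow_succ]; omega
      · rw [MonoidAlgebra.single_mul_single, mul_one]

theorem short_headD {K : Type} [Field K] {n : ℕ} {k : ℕ} (s : List (FA K n))
    (h : ∀ e ∈ s, Short k e) : Short k (s.headD 0) := by
  cases s with
  | nil => exact Or.inl rfl
  | cons a s => exact h a (by simp)

theorem short_foldl {K : Type} [Field K] {n : ℕ} (w : List ℕ) : ∀ (k : ℕ) (s : List (FA K n)),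
    (∀ e ∈ s, Short k e) → ∀ e ∈ List.foldl (fun (s : List (FA K n)) (t : ℕ) =>
      if t = 0 then (s.tail.headD 0 * s.headD 0) :: s.tail.tail
      else (if h : t - 1 < n then MonoidAlgebra.single (FreeMagma.of (⟨t - 1, h⟩ : Fin n)) (1 : K)
        else 0) :: s) s w, Short (k + w.length) e := by
  induction w with
  | nil => intro k s hs e he; simpa using hs e he
  | cons t w ih =>
    intro k s hs e he
    rw [List.foldl_cons] at he
    have h1 := ih (k + 1) _ ?_ e he
    · rw [List.length_cons]
      rwa [show k + (w.length + 1) = k + 1 + w.length by omega]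
    · intro e he
      by_cases ht : t = 0
      · rw [if_pos ht] at he
        rcases List.mem_cons.1 he with rfl | h
        · exact (short_headD _ (fun e he => hs e (List.mem_of_mem_tail he))).mul
            (short_headD _ hs)
        · exact (hs e (List.mem_of_mem_tail (List.mem_of_mem_tail h))).mono (by omega)
      · rw [if_neg ht] at he
        rcases List.mem_cons.1 he with rfl | h
        · split_ifs with h
          · right
            refine ⟨_, ?_, rfl⟩
            show 1 ≤ 2 ^ (k + 1)
            exact Nat.one_le_two_pow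
          · exact Or.inl rfl
        · exact (hs e h).mono (by omega)

theorem short_mon (K : Type) [Field K] (n : ℕ) (w : List ℕ) : Short w.length (mon K n w) := by
  have h := short_foldl (K := K) (n := n) w 0 [] (by simp)
  rw [zero_add] at h
  exact short_headD _ h

section quot

variable {K C : Type} [Field K] (val : C → K)

/-- The class of a monomial. -/
noncomputable def cls (p : Pres C) (x : FreeMagma (Fin p.1)) : FA K p.1 ⧸ idl val p :=
  Submodule.Quotient.mk (MonoidAlgebra.single x (1 : K))

theorem qmul_cls (p : Pres C) (x y : FreeMagma (Fin p.1)) :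
    qmul val p (cls val p x) (cls val p y) = cls val p (x * y) := by
  unfold cls
  rw [qmul_mk, MonoidAlgebra.single_mul_single, mul_one]

/-- The span of the classes of the monomials of length at most `L`. -/
noncomputable def shortSpan (p : Pres C) (L : ℕ) : Submodule K (FA K p.1 ⧸ idl val p) :=
  Submodule.span K (cls val p '' {x | x.length ≤ L})

theorem cls_mem (p : Pres C) (L : ℕ) {x : FreeMagma (Fin p.1)} (h : x.length ≤ L) :
    cls val p x ∈ shortSpan val p L :=
  Submodule.subset_span ⟨x, h, rfl⟩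

theorem up_shortSpan (p : Pres C) (N : ℕ) (hN : ∀ r ∈ p.2, ∀ c ∈ r, c.2.length ≤ N) :
    UP (qmul val p) (shortSpan val p (2 ^ N)) := by
  intro B _ _ m' j hj
  have hpos : 1 ≤ 2 ^ N := Nat.one_le_two_pow
  set g : Fin p.1 → B := fun i => j ⟨cls val p (FreeMagma.of i), cls_mem val p _ hpos⟩ with hg
  -- values of the monomials
  have hev : ∀ (x : FreeMagma (Fin p.1)) (hx : x.length ≤ 2 ^ N),
      evm m' g x = j ⟨cls val p x, cls_mem val p _ hx⟩ := by
    intro x
    induction x using FreeMagma.recOnMul with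
    | ih1 i => intro hx; rfl
    | ih2 x y ihx ihy =>
      intro hxy
      have h1 : x.length + y.length ≤ 2 ^ N := hxy
      have hx : x.length ≤ 2 ^ N := by omega
      have hy : y.length ≤ 2 ^ N := by omega
      rw [evm_mul, ihx hx, ihy hy]
      have h2 := hj ((⟨cls val p x, cls_mem val p _ hx⟩ : shortSpan val p (2 ^ N)) ⊗ₜ[K]
        (⟨cls val p y, cls_mem val p _ hy⟩ : shortSpan val p (2 ^ N))) ⟨cls val p (x * y), cls_mem val p _ hxy⟩ (by
          rw [TensorProduct.map_tmul]
          unfold mt
          rw [TensorProduct.lift.tmul]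
          exact qmul_cls val p x y)
      rw [TensorProduct.map_tmul] at h2
      unfold mt at h2
      rw [TensorProduct.lift.tmul] at h2
      exact h2
  -- elements of the free algebra on which both sides agree
  let Nice : FA K p.1 → Prop := fun x =>
    ∃ h : (Submodule.Quotient.mk x : FA K p.1 ⧸ idl val p) ∈ shortSpan val p (2 ^ N), ev m' g x = j ⟨_, h⟩
  have nice_zero : Nice 0 := by
    refine ⟨(shortSpan val p (2 ^ N)).zero_mem, ?_⟩
    rw [map_zero]
    exact (map_zero j).symm
  have nice_add : ∀ x y, Nice x → Nice y → Nice (x + y) := by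
    rintro x y ⟨hx, ex⟩ ⟨hy, ey⟩
    refine ⟨(shortSpan val p (2 ^ N)).add_mem hx hy, ?_⟩
    rw [map_add, ex, ey, ← map_add]
    rfl
  have nice_smul : ∀ (c : K) x, Nice x → Nice (c • x) := by
    rintro c x ⟨hx, ex⟩
    refine ⟨(shortSpan val p (2 ^ N)).smul_mem c hx, ?_⟩
    rw [map_smul, ex, ← map_smul]
    rfl
  have nice_short : ∀ k ≤ N, ∀ e : FA K p.1, Short k e → Nice e := by
    intro k hk e he
    rcases he with rfl | ⟨x, hx, rfl⟩
    · exact nice_zero
    · have hx' : x.length ≤ 2 ^ N := hx.trans (Nat.pow_le_pow_right (by norm_num) hk)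
      refine ⟨cls_mem val p _ hx', ?_⟩
      rw [ev_single, one_smul]
      exact hev x hx'
  have nice_sum : ∀ r : Rel C, (∀ c ∈ r, c.2.length ≤ N) → Nice (sem val p.1 r) := by
    intro r
    induction r with
    | nil => intro _; exact nice_zero
    | cons c r ih =>
      intro h
      have h1 : sem val p.1 (c :: r) = val c.1 • mon K p.1 c.2 + sem val p.1 r := by
        unfold sem
        rw [List.map_cons, List.sum_cons]
      rw [h1]
      refine nice_add _ _ (nice_smul _ _ (nice_short _ (h c (by simp)) _ (short_mon K p.1 c.2)))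
        (ih (fun c' hc' => h c' (by simp [hc'])))
  obtain ⟨φ, hφ, hφev⟩ := exists_lift val m' p g (fun r hr => by
    obtain ⟨h, e⟩ := nice_sum r (hN r hr)
    rw [e]
    have h0 : (Submodule.Quotient.mk (sem val p.1 r) : FA K p.1 ⧸ idl val p) = 0 := by
      rw [Submodule.Quotient.mk_eq_zero]
      exact rel_mem_idl val p hr
    have : (⟨Submodule.Quotient.mk (sem val p.1 r), h⟩ : shortSpan val p (2 ^ N)) = 0 := Subtype.ext h0
    rw [this, map_zero])
  refine ⟨φ, hφ, ?_⟩
  -- agreement on V
  rintro ⟨v, hv⟩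
  have key : ∀ v (hv : v ∈ shortSpan val p (2 ^ N)), φ v = j ⟨v, hv⟩ := by
    intro v hv
    induction hv using Submodule.span_induction with
    | mem v h =>
      obtain ⟨x, hx, rfl⟩ := h
      have h1 : φ (cls val p x) = evm m' g x := by
        unfold cls
        rw [hφev, ev_single, one_smul]
      rw [h1]
      exact hev x hx
    | zero => rw [map_zero]; exact (map_zero j).symm
    | add x y hx hy ihx ihy =>
      rw [map_add, ihx, ihy, ← map_add]
      rfl
    | smul a x hx ihx =>
      rw [map_smul, ihx, ← map_smul]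
      rfl
  exact key v hv

/-- I8. -/
theorem exists_closed (p : Pres C) : ∃ V : Submodule K (FA K p.1 ⧸ idl val p),
    FiniteDimensional K V ∧ Gen (qmul val p) V ∧ Closed (qmul val p) V := by
  obtain ⟨N, hN⟩ : ∃ N, ∀ r ∈ p.2, ∀ c ∈ r, c.2.length ≤ N := by
    choose f hf using fun r : Rel C => exists_list_bound (fun c : C × List ℕ => c.2.length) r
    obtain ⟨N, hN⟩ := exists_list_bound f p.2
    exact ⟨N, fun r hr c hc => (hf r c hc).trans (hN r hr)⟩
  have hG : Gen (qmul val p) (shortSpan val p (2 ^ N)) :=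
    gen_quot val p _ (fun i => cls_mem val p _ (x := FreeMagma.of i) Nat.one_le_two_pow)
  refine ⟨shortSpan val p (2 ^ N), ?_, hG, closed_of_UP _ hG (up_shortSpan val p N hN)⟩
  exact FiniteDimensional.span_of_finite K ((finite_short p.1 (2 ^ N)).image _)

end quot

end Pool.Agent.Work.MP_9ac17e_al

end

section

/-!
# Postfix words and computations with formal sums of postfix words
-/

set_option autoImplicit false

namespace Pool.Agent.Work.MP_9ac17e_al

/-! ### Evaluation of postfix words -/

/-- One step of the evaluation of a postfix word. -/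
def pstep {α : Type} (g : ℕ → α) (op : α → α → α) (d : α) (s : List α) (t : ℕ) : List α :=
  if t = 0 then op (s.tail.headD d) (s.headD d) :: s.tail.tail else g (t - 1) :: s

/-- The evaluation of a postfix word. -/
def pfold {α : Type} (g : ℕ → α) (op : α → α → α) (d : α) (w : List ℕ) : α :=
  (List.foldl (pstep g op d) [] w).headD d

section hom

variable {α β : Type} {g : ℕ → α} {op : α → α → α} {d : α} {g' : ℕ → β} {op' : β → β → β} {d' : β}
  (φ : α → β)

theorem headD_map (s : List α) (hd : φ d = d') : (s.map φ).headD d' = φ (s.headD d) := by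
  cases s with
  | nil => exact hd.symm
  | cons a s => rfl

theorem foldl_pstep_map (hd : φ d = d') (hg : ∀ t, φ (g t) = g' t)
    (hop : ∀ a b, φ (op a b) = op' (φ a) (φ b)) (w : List ℕ) : ∀ s : List α,
    (List.foldl (pstep g op d) s w).map φ = List.foldl (pstep g' op' d') (s.map φ) w := by
  induction w with
  | nil => intro s; rfl
  | cons t w ih =>
    intro s
    rw [List.foldl_cons, List.foldl_cons, ih]
    congr 1
    unfold pstep
    split_ifs with h
    · rw [List.map_cons, hop, ← headD_map φ s hd, ← headD_map φ s.tail hd, List.map_tail,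
        List.map_tail, List.map_tail]
    · rw [List.map_cons, hg]

/-- The evaluation commutes with homomorphisms. -/
theorem pfold_hom (hd : φ d = d') (hg : ∀ t, φ (g t) = g' t)
    (hop : ∀ a b, φ (op a b) = op' (φ a) (φ b)) (w : List ℕ) :
    φ (pfold g op d w) = pfold g' op' d' w := by
  unfold pfold
  rw [← headD_map φ _ hd, foldl_pstep_map φ hd hg hop w]
  rfl

end hom

theorem pfold_congr {α : Type} {g g' : ℕ → α} {op op' : α → α → α} {d : α} (w : List ℕ)
    (hg : ∀ t, g t = g' t) (hop : ∀ a b, op a b = op' a b) :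
    pfold g op d w = pfold g' op' d w := by
  have h1 : g = g' := funext hg
  have h2 : op = op' := funext fun a => funext (hop a)
  rw [h1, h2]

/-! ### Decoding of words -/

section words

variable {n : ℕ}

/-- The postfix word of a monomial. -/
def word (x : FreeMagma (Fin n)) : List ℕ :=
  FreeMagma.recOnMul (C := fun _ => List ℕ) x (fun i => [(i : ℕ) + 1]) (fun _ _ a b => a ++ b ++ [0])

theorem word_of (i : Fin n) : word (FreeMagma.of i) = [(i : ℕ) + 1] := rfl
theorem word_mul (x y : FreeMagma (Fin n)) : word (x * y) = word x ++ word y ++ [0] := rfl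

/-- The generator number `t`. -/
def mgen (n t : ℕ) : Option (FreeMagma (Fin n)) :=
  if h : t < n then some (FreeMagma.of ⟨t, h⟩) else none

/-- The multiplication of optional monomials. -/
def mop (a b : Option (FreeMagma (Fin n))) : Option (FreeMagma (Fin n)) :=
  a.bind (fun x => b.map (fun y => x * y))

/-- The monomial given by a postfix word; `none` stands for zero. -/
def dec (n : ℕ) (w : List ℕ) : Option (FreeMagma (Fin n)) := pfold (mgen n) mop none w

/-- Generator number `t`, as a word. -/
def wgen (n t : ℕ) : Option (List ℕ) := if t < n then some [t + 1] else none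

/-- Multiplication of optional words. -/
def wop (a b : Option (List ℕ)) : Option (List ℕ) :=
  a.bind (fun x => b.map (fun y => x ++ y ++ [0]))

/-- The normal form of a postfix word. -/
def nfW (n : ℕ) (w : List ℕ) : Option (List ℕ) := pfold (wgen n) wop none w

theorem nfW_eq (w : List ℕ) : nfW n w = (dec n w).map word := by
  unfold nfW dec
  refine (pfold_hom (d := none) (d' := none) (Option.map word) rfl (fun t => ?_)
    (fun a b => ?_) w).symm
  · unfold mgen wgen
    split_ifs with h <;> rfl
  · unfold mop wop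
    cases a <;> cases b <;> rfl

theorem foldl_word (x : FreeMagma (Fin n)) : ∀ s : List (Option (FreeMagma (Fin n))),
    List.foldl (pstep (mgen n) mop none) s (word x) = some x :: s := by
  induction x using FreeMagma.recOnMul with
  | ih1 i =>
    intro s
    rw [word_of, List.foldl_cons, List.foldl_nil]
    unfold pstep mgen
    simp
  | ih2 x y hx hy =>
    intro s
    rw [word_mul, List.foldl_append, List.foldl_append, hx, hy, List.foldl_cons, List.foldl_nil]
    unfold pstep mop
    simp

theorem dec_word (x : FreeMagma (Fin n)) : dec n (word x) = some x := by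
  unfold dec pfold
  rw [foldl_word]
  rfl

theorem word_injective : Function.Injective (word (n := n)) := by
  intro x y h
  have h1 := dec_word x
  rw [h, dec_word] at h1
  exact (Option.some.inj h1).symm

theorem nfW_eq_some (w : List ℕ) (x : FreeMagma (Fin n)) :
    nfW n w = some (word x) ↔ dec n w = some x := by
  rw [nfW_eq]
  cases h : dec n w with
  | none => simp
  | some y =>
    simp only [Option.map_some, Option.some.injEq]
    exact word_injective.eq_iff

theorem nfW_word (x : FreeMagma (Fin n)) : nfW n (word x) = some (word x) := by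
  rw [nfW_eq_some, dec_word]

end words

section field

variable {K : Type} [Field K] {n : ℕ}

/-- The element of the free algebra given by an optional monomial. -/
noncomputable def emb (K : Type) [Field K] (o : Option (FreeMagma (Fin n))) : FA K n :=
  o.elim 0 (fun x => MonoidAlgebra.single x (1 : K))

theorem mon_eq_pfold (w : List ℕ) : mon K n w = pfold
    (fun t => if h : t < n then MonoidAlgebra.single (FreeMagma.of (⟨t, h⟩ : Fin n)) (1 : K) else 0)
    (fun a b => a * b) 0 w := rfl

theorem emb_mgen (t : ℕ) : emb K (mgen n t) =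
    if h : t < n then MonoidAlgebra.single (FreeMagma.of (⟨t, h⟩ : Fin n)) (1 : K) else 0 := by
  unfold emb mgen
  split_ifs with h <;> rfl

theorem emb_mop (a b : Option (FreeMagma (Fin n))) : emb K (mop a b) = emb K a * emb K b := by
  unfold emb mop
  cases a with
  | none => simp
  | some x =>
    cases b with
    | none => simp
    | some y =>
      simp only [Option.bind_some, Option.map_some, Option.elim_some]
      rw [MonoidAlgebra.single_mul_single, mul_one]

theorem mon_eq (w : List ℕ) : mon K n w = emb K (dec n w) := by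
  rw [mon_eq_pfold]
  exact (pfold_hom (d := none) (d' := (0 : FA K n)) (emb K) rfl emb_mgen emb_mop w).symm

theorem mon_word (x : FreeMagma (Fin n)) : mon K n (word x) = MonoidAlgebra.single x (1 : K) := by
  rw [mon_eq, dec_word]
  rfl

theorem mon_nfW {w u : List ℕ} (h : nfW n w = some u) : mon K n u = mon K n w := by
  rw [nfW_eq] at h
  cases hd : dec n w with
  | none => rw [hd] at h; simp at h
  | some x =>
    rw [hd] at h
    simp only [Option.map_some, Option.some.injEq] at h
    rw [← h, mon_word, mon_eq, hd]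
    rfl

theorem mon_eq_zero_of_nfW {w : List ℕ} (h : nfW n w = none) : mon K n w = 0 := by
  rw [nfW_eq] at h
  cases hd : dec n w with
  | none => rw [mon_eq, hd]; rfl
  | some x => rw [hd] at h; simp at h

/-- The product of two normal words. -/
theorem mon_append {w w' u u' : List ℕ} (h : nfW n w = some u) (h' : nfW n w' = some u') :
    mon K n (u ++ u' ++ [0]) = mon K n w * mon K n w' := by
  rw [nfW_eq] at h h'
  cases hd : dec n w with
  | none => rw [hd] at h; simp at h
  | some x =>
    cases hd' : dec n w' with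
    | none => rw [hd'] at h'; simp at h'
    | some y =>
      rw [hd] at h
      rw [hd'] at h'
      simp only [Option.map_some, Option.some.injEq] at h h'
      rw [← h, ← h', ← word_mul, mon_word, mon_eq, mon_eq, hd, hd']
      show _ = MonoidAlgebra.single x (1 : K) * MonoidAlgebra.single y (1 : K)
      rw [MonoidAlgebra.single_mul_single, mul_one]

section ev

variable {B : Type} [AddCommGroup B] [Module K B] (m' : B →ₗ[K] B →ₗ[K] B)

/-- The value of a word in an algebra. -/
theorem ev_mon (g : Fin n → B) (w : List ℕ) : ev m' g (mon K n w) =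
    pfold (fun t => if h : t < n then g ⟨t, h⟩ else 0) (fun a b => m' a b) 0 w := by
  rw [mon_eq_pfold]
  refine pfold_hom (ev m' g) (map_zero _) (fun t => ?_) (fun a b => ev_mul m' g a b) w
  split_ifs with h
  · exact ev_gen m' g ⟨t, h⟩
  · exact map_zero _

end ev

end field

/-! ### Formal sums -/

section formal

variable {K C : Type} [Field K] [Primcodable C] (N : NumF K C)

omit [Primcodable C] in
theorem sem_nil {K C : Type} [Field K] (val : C → K) (n : ℕ) : sem val n [] = 0 := rfl

omit [Primcodable C] in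
theorem sem_cons {K C : Type} [Field K] (val : C → K) (n : ℕ) (c : C × List ℕ) (r : Rel C) :
    sem val n (c :: r) = val c.1 • mon K n c.2 + sem val n r := by
  unfold sem
  rw [List.map_cons, List.sum_cons]

omit [Primcodable C] in
theorem sem_append {K C : Type} [Field K] (val : C → K) (n : ℕ) (r s : Rel C) :
    sem val n (r ++ s) = sem val n r + sem val n s := by
  unfold sem
  rw [List.map_append, List.sum_append]

omit [Primcodable C] in
theorem sem_flatMap {K C : Type} [Field K] {ι : Type} (val : C → K) (n : ℕ) (l : List ι)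
    (f : ι → Rel C) : sem val n (l.flatMap f) = (l.map (fun i => sem val n (f i))).sum := by
  induction l with
  | nil => rfl
  | cons a l ih => rw [List.flatMap_cons, sem_append, ih, List.map_cons, List.sum_cons]

omit [Primcodable C] in
theorem sem_single {K C : Type} [Field K] (val : C → K) (n : ℕ) (c : C) (w : List ℕ) :
    sem val n [(c, w)] = val c • mon K n w := by
  rw [sem_cons, sem_nil, add_zero]

/-- Multiplication by a coefficient. -/
def fsScale (a : C) (r : Rel C) : Rel C := r.map (fun c => (N.mul a c.1, c.2))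

theorem sem_fsScale (n : ℕ) (a : C) (r : Rel C) :
    sem N.val n (fsScale N a r) = N.val a • sem N.val n r := by
  unfold fsScale
  induction r with
  | nil => rw [List.map_nil, sem_nil, smul_zero]
  | cons c r ih => rw [List.map_cons, sem_cons, sem_cons, ih, N.val_mul, smul_add, smul_smul]

/-- The product of two terms. -/
def termMul (n : ℕ) (c c' : C × List ℕ) : Rel C :=
  ((nfW n c.2).bind (fun u => (nfW n c'.2).map (fun u' =>
    [(N.mul c.1 c'.1, u ++ u' ++ [0])]))).getD []

theorem sem_termMul (n : ℕ) (c c' : C × List ℕ) : sem N.val n (termMul N n c c') =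
    (N.val c.1 • mon K n c.2) * (N.val c'.1 • mon K n c'.2) := by
  unfold termMul
  cases h : nfW n c.2 with
  | none =>
    rw [mon_eq_zero_of_nfW h]
    simp [sem_nil]
  | some u =>
    cases h' : nfW n c'.2 with
    | none =>
      rw [mon_eq_zero_of_nfW h']
      simp [sem_nil]
    | some u' =>
      simp only [Option.bind_some, Option.map_some, Option.getD_some]
      rw [sem_single, mon_append h h', N.val_mul, smul_mul_smul_comm]

/-- The product of formal sums. -/
def fsMul (n : ℕ) (r s : Rel C) : Rel C := r.flatMap (fun c => s.flatMap (fun c' =>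
  termMul N n c c'))

theorem sem_fsMul (n : ℕ) (r s : Rel C) :
    sem N.val n (fsMul N n r s) = sem N.val n r * sem N.val n s := by
  unfold fsMul
  rw [sem_flatMap]
  have h1 : ∀ c : C × List ℕ, sem N.val n (s.flatMap (fun c' => termMul N n c c')) =
      (N.val c.1 • mon K n c.2) * sem N.val n s := by
    intro c
    rw [sem_flatMap]
    induction s with
    | nil => rw [List.map_nil, List.sum_nil, sem_nil, mul_zero]
    | cons c' s ih => rw [List.map_cons, List.sum_cons, ih, sem_cons, mul_add, sem_termMul]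
  simp only [h1]
  induction r with
  | nil => rw [List.map_nil, List.sum_nil, sem_nil, zero_mul]
  | cons c r ih => rw [List.map_cons, List.sum_cons, ih, sem_cons, add_mul]

/-- Substitution of the formal sums `a` (over `n` generators) for the generators `< k` in a word. -/
def evW (n k : ℕ) (a : List (Rel C)) (w : List ℕ) : Rel C :=
  pfold (fun t => if t < k then a.getD t [] else []) (fsMul N n) [] w

/-- Substitution of the formal sums `a` in a formal sum. -/
def evR (n k : ℕ) (a : List (Rel C)) (r : Rel C) : Rel C :=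
  r.flatMap (fun c => fsScale N c.1 (evW N n k a c.2))

theorem sem_evR (n k : ℕ) (a : List (Rel C)) (r : Rel C) : sem N.val n (evR N n k a r) =
    ev (fmul K n) (fun i : Fin k => sem N.val n (a.getD i [])) (sem N.val k r) := by
  unfold evR
  rw [sem_flatMap]
  induction r with
  | nil => rw [List.map_nil, List.sum_nil, sem_nil, map_zero]
  | cons c r ih =>
    rw [List.map_cons, List.sum_cons, ih, sem_cons, map_add, map_smul, sem_fsScale, ev_mon]
    congr 2
    unfold evW
    refine pfold_hom (sem N.val n) (sem_nil _ _) (fun t => ?_) (fun a b => sem_fsMul N n a b) _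
    split_ifs with h
    · rfl
    · exact sem_nil _ _

/-- Test whether a formal sum is zero. -/
def fsZero (n : ℕ) (r : Rel C) : Bool :=
  r.all (fun c => (!(nfW n c.2).isSome) || N.eqb (N.sumc ((r.filter (fun c' =>
    decide (nfW n c'.2 = nfW n c.2))).map (fun c' => c'.1))) N.zero)

theorem coeff_sem {K C : Type} [Field K] (val : C → K) (n : ℕ) (r : Rel C)
    (x : FreeMagma (Fin n)) : (sem val n r).coeff x =
      ((r.filter (fun c => decide (nfW n c.2 = some (word x)))).map (fun c => val c.1)).sum := by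
  induction r with
  | nil => rfl
  | cons c r ih =>
    rw [sem_cons, MonoidAlgebra.coeff_add, Finsupp.add_apply, ih, List.filter_cons]
    by_cases h : nfW n c.2 = some (word x)
    · rw [if_pos (by simpa using h), List.map_cons, List.sum_cons]
      congr 1
      rw [nfW_eq_some] at h
      rw [mon_eq, h]
      show (val c.1 • (MonoidAlgebra.single x (1 : K))).coeff x = _
      rw [MonoidAlgebra.smul_single, smul_eq_mul, mul_one, MonoidAlgebra.coeff_single,
        Finsupp.single_eq_same]
    · rw [if_neg (by simpa using h)]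
      rw [nfW_eq_some] at h
      have h1 : (val c.1 • mon K n c.2).coeff x = 0 := by
        rw [mon_eq]
        cases hd : dec n c.2 with
        | none =>
          show (val c.1 • (0 : FA K n)).coeff x = 0
          rw [smul_zero]
          rfl
        | some y =>
          show (val c.1 • (MonoidAlgebra.single y (1 : K))).coeff x = 0
          rw [MonoidAlgebra.smul_single, smul_eq_mul, mul_one, MonoidAlgebra.coeff_single]
          refine Finsupp.single_eq_of_ne ?_
          rintro rfl
          exact h hd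
      rw [h1, zero_add]

theorem fsZero_iff (n : ℕ) (r : Rel C) : fsZero N n r = true ↔ sem N.val n r = 0 := by
  have hmap : ∀ l : Rel C, N.val (N.sumc (l.map (fun c' => c'.1))) =
      (l.map (fun c => N.val c.1)).sum := by
    intro l
    rw [N.val_sumc, List.map_map]
    rfl
  constructor
  · intro h
    apply MonoidAlgebra.ext
    ext x
    rw [coeff_sem]
    show _ = (0 : K)
    by_cases hx : ∃ c ∈ r, nfW n c.2 = some (word x)
    · obtain ⟨c, hc, hcx⟩ := hx
      unfold fsZero at h
      rw [List.all_eq_true] at h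
      have h1 := h c hc
      rw [hcx] at h1
      simp only [Option.isSome_some, Bool.not_true, Bool.false_or] at h1
      rw [N.val_eq, hmap, N.val_zero] at h1
      exact h1
    · have h1 : r.filter (fun c => decide (nfW n c.2 = some (word x))) = [] := by
        rw [List.filter_eq_nil_iff]
        intro c hc hcx
        exact hx ⟨c, hc, by simpa using hcx⟩
      rw [h1]
      rfl
  · intro h
    unfold fsZero
    rw [List.all_eq_true]
    intro c _
    cases hd : dec n c.2 with
    | none => rw [nfW_eq, hd]; rfl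
    | some x =>
      have h1 : nfW n c.2 = some (word x) := (nfW_eq_some _ _).2 hd
      rw [h1]
      simp only [Option.isSome_some, Bool.not_true, Bool.false_or]
      rw [N.val_eq, hmap, N.val_zero, ← coeff_sem, h]
      rfl

/-- Every element of the free algebra is the value of a formal sum. -/
theorem exists_sem (hs : Function.Surjective N.val) (n : ℕ) (x : FA K n) :
    ∃ r : Rel C, sem N.val n r = x := by
  induction x using MonoidAlgebra.induction_linear with
  | zero => exact ⟨[], sem_nil _ _⟩
  | add x y hx hy =>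
    obtain ⟨r, rfl⟩ := hx
    obtain ⟨s, rfl⟩ := hy
    exact ⟨r ++ s, sem_append _ _ _ _⟩
  | single x k =>
    obtain ⟨c, hc⟩ := hs k
    refine ⟨[(c, word x)], ?_⟩
    rw [sem_single, mon_word, hc, MonoidAlgebra.smul_single, smul_eq_mul, mul_one]

end formal

/-! ### Primitive recursiveness -/

section prim

variable {K C α : Type} [Field K] [Primcodable C] [Primcodable α] (N : NumF K C)

@[fun_prop] theorem primrec_nfW {n : α → ℕ} {w : α → List ℕ} (hn : Primrec n) (hw : Primrec w) :
    Primrec (fun a => nfW (n a) (w a)) := by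
  unfold nfW pfold pstep wgen wop
  fun_prop

@[fun_prop] theorem primrec_fsScale {c : α → C} {r : α → Rel C} (hc : Primrec c) (hr : Primrec r) :
    Primrec (fun a => fsScale N (c a) (r a)) := by
  unfold fsScale
  fun_prop

@[fun_prop] theorem primrec_termMul {n : α → ℕ} {c c' : α → C × List ℕ} (hn : Primrec n)
    (hc : Primrec c) (hc' : Primrec c') : Primrec (fun a => termMul N (n a) (c a) (c' a)) := by
  unfold termMul
  fun_prop

@[fun_prop] theorem primrec_fsMul {n : α → ℕ} {r s : α → Rel C} (hn : Primrec n) (hr : Primrec r)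
    (hs : Primrec s) : Primrec (fun a => fsMul N (n a) (r a) (s a)) := by
  unfold fsMul
  fun_prop

@[fun_prop] theorem primrec_evW {n k : α → ℕ} {a : α → List (Rel C)} {w : α → List ℕ}
    (hn : Primrec n) (hk : Primrec k) (ha : Primrec a) (hw : Primrec w) :
    Primrec (fun x => evW N (n x) (k x) (a x) (w x)) := by
  unfold evW pfold pstep
  fun_prop

@[fun_prop] theorem primrec_evR {n k : α → ℕ} {a : α → List (Rel C)} {r : α → Rel C}
    (hn : Primrec n) (hk : Primrec k) (ha : Primrec a) (hr : Primrec r) :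
    Primrec (fun x => evR N (n x) (k x) (a x) (r x)) := by
  unfold evR
  fun_prop

@[fun_prop] theorem primrec_fsZero {n : α → ℕ} {r : α → Rel C} (hn : Primrec n) (hr : Primrec r) :
    Primrec (fun x => fsZero N (n x) (r x)) := by
  unfold fsZero
  fun_prop

end prim

end Pool.Agent.Work.MP_9ac17e_al

end

section

/-!
# Coordinates (item I5)
-/

set_option autoImplicit false

namespace Pool.Agent.Work.MP_9ac17e_al

open TensorProduct

section coord

variable {K : Type} [Field K] {A B : Type} [AddCommGroup A] [Module K A] [AddCommGroup B]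
  [Module K B] (m : A →ₗ[K] A →ₗ[K] A) (m' : B →ₗ[K] B →ₗ[K] B)

/-- The tensor with given coordinates. -/
noncomputable def tenc {n : ℕ} (x : Fin n → A) (z : Fin n × Fin n → K) : A ⊗[K] A :=
  ∑ a, ∑ b, z (a, b) • (x a ⊗ₜ[K] x b)

/-- `tenc` as a linear map. -/
noncomputable def tencL {n : ℕ} (x : Fin n → A) : (Fin n × Fin n → K) →ₗ[K] A ⊗[K] A where
  toFun := tenc x
  map_add' z z' := by
    simp only [tenc, Pi.add_apply, add_smul, Finset.sum_add_distrib]
  map_smul' c z := by
    simp only [tenc, Pi.smul_apply, smul_eq_mul, mul_smul, Finset.smul_sum, RingHom.id_apply]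

/-- `vec` as a linear map. -/
noncomputable def vecL {n : ℕ} (x : Fin n → A) : (Fin n → K) →ₗ[K] A where
  toFun := vec x
  map_add' z z' := by
    simp only [vec, Pi.add_apply, add_smul, Finset.sum_add_distrib]
  map_smul' c z := by
    simp only [vec, Pi.smul_apply, smul_eq_mul, mul_smul, Finset.smul_sum, RingHom.id_apply]

theorem tencL_apply {n : ℕ} (x : Fin n → A) (z : Fin n × Fin n → K) : tencL x z = tenc x z := rfl

theorem vecL_apply {n : ℕ} (x : Fin n → A) (c : Fin n → K) : vecL x c = vec x c := rfl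

theorem mt_tenc {n : ℕ} (x : Fin n → A) (z : Fin n × Fin n → K) :
    mt m (tenc x z) = prodc m x z := by
  simp only [tenc, prodc, map_sum, map_smul, mt_tmul]

theorem map_tenc {n : ℕ} (f : A →ₗ[K] B) (x : Fin n → A) (z : Fin n × Fin n → K) :
    TensorProduct.map f f (tenc x z) = tenc (fun i => f (x i)) z := by
  simp only [tenc, map_sum, map_smul, TensorProduct.map_tmul]

theorem vec_single {n : ℕ} (x : Fin n → A) (i : Fin n) :
    vec x (Pi.single i (1 : K)) = x i := by
  classical
  unfold vec
  rw [Finset.sum_eq_single i]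
  · simp
  · intro b _ hb
    simp [Pi.single_eq_of_ne hb]
  · simp

theorem map_vec {n : ℕ} (f : A →ₗ[K] B) (x : Fin n → A) (c : Fin n → K) :
    f (vec x c) = vec (fun i => f (x i)) c := by
  simp only [vec, map_sum, map_smul]

theorem vecL_injective {n : ℕ} {x : Fin n → A} (hx : LinearIndependent K x) :
    Function.Injective (vecL (K := K) x) := by
  rw [← LinearMap.ker_eq_bot, LinearMap.ker_eq_bot']
  intro c hc
  funext i
  exact Fintype.linearIndependent_iff.1 hx c hc i

theorem range_vecL {n : ℕ} (x : Fin n → A) :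
    LinearMap.range (vecL (K := K) x) = Submodule.span K (Set.range x) := by
  ext u
  rw [Submodule.mem_span_range_iff_exists_fun]
  rfl

theorem mem_span_iff {n : ℕ} (x : Fin n → A) (u : A) :
    u ∈ Submodule.span K (Set.range x) ↔ ∃ c : Fin n → K, vec x c = u := by
  rw [Submodule.mem_span_range_iff_exists_fun]
  rfl

theorem vec_mem_span {n : ℕ} (x : Fin n → A) (c : Fin n → K) :
    vec x c ∈ Submodule.span K (Set.range x) := (mem_span_iff x _).2 ⟨c, rfl⟩

/-- The standard basis. -/
def stb (K : Type) [Field K] (n : ℕ) (i : Fin n) : Fin n → K := Pi.single i 1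

theorem vec_stb {n : ℕ} (c : Fin n → K) : vec (stb K n) c = c := by
  classical
  funext i
  unfold vec stb
  rw [Finset.sum_apply, Finset.sum_eq_single i]
  · simp
  · intro b _ hb
    simp [Pi.single_eq_of_ne (Ne.symm hb)]
  · simp

theorem tencL_stb_injective (n : ℕ) :
    Function.Injective (tencL (K := K) (A := Fin n → K) (stb K n)) := by
  classical
  rw [← LinearMap.ker_eq_bot, LinearMap.ker_eq_bot']
  intro z hz
  have h := ((Pi.basisFun K (Fin n)).tensorProduct (Pi.basisFun K (Fin n))).linearIndependent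
  rw [Fintype.linearIndependent_iff] at h
  funext p
  refine h z ?_ p
  rw [← hz, tencL_apply, tenc, Fintype.sum_prod_type]
  refine Finset.sum_congr rfl (fun a _ => Finset.sum_congr rfl (fun b _ => ?_))
  rw [Module.Basis.tensorProduct_apply, Pi.basisFun_apply, Pi.basisFun_apply]
  rfl

theorem tenc_eq_map {n : ℕ} (x : Fin n → A) (z : Fin n × Fin n → K) :
    tenc x z = TensorProduct.map (vecL x) (vecL x) (tenc (stb K n) z) := by
  rw [map_tenc]
  refine congrArg (fun y => tenc y z) ?_
  funext i
  exact (vec_single x i).symm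

theorem tencL_injective {n : ℕ} {x : Fin n → A} (hx : LinearIndependent K x) :
    Function.Injective (tencL (K := K) x) := by
  intro z z' h
  rw [tencL_apply, tencL_apply, tenc_eq_map, tenc_eq_map x z'] at h
  exact tencL_stb_injective n (tmap_injective _ (vecL_injective hx) h)

theorem tmul_vec {n : ℕ} (x : Fin n → A) (c d : Fin n → K) :
    vec x c ⊗ₜ[K] vec x d = tenc x (tens c d) := by
  unfold vec tenc tens
  rw [TensorProduct.sum_tmul]
  refine Finset.sum_congr rfl (fun a _ => ?_)
  rw [TensorProduct.tmul_sum]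
  refine Finset.sum_congr rfl (fun b _ => ?_)
  rw [← TensorProduct.smul_tmul', TensorProduct.tmul_smul, smul_smul]

theorem range_tencL {n : ℕ} (x : Fin n → A) :
    LinearMap.range (tencL (K := K) x) = sq (Submodule.span K (Set.range x)) := by
  apply le_antisymm
  · rintro _ ⟨z, rfl⟩
    rw [tencL_apply, tenc]
    refine Submodule.sum_mem _ (fun a _ => Submodule.sum_mem _ (fun b _ =>
      Submodule.smul_mem _ _ ?_))
    have ha : x a ∈ Submodule.span K (Set.range x) :=
      Submodule.subset_span (Set.mem_range_self a)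
    have hb : x b ∈ Submodule.span K (Set.range x) :=
      Submodule.subset_span (Set.mem_range_self b)
    exact tmul_mem_sq ha hb
  · rintro _ ⟨w, rfl⟩
    induction w using TensorProduct.induction_on with
    | zero => rw [map_zero]; exact Submodule.zero_mem _
    | add u v hu hv => rw [map_add]; exact Submodule.add_mem _ hu hv
    | tmul u v =>
      rw [TensorProduct.map_tmul, Submodule.subtype_apply, Submodule.subtype_apply]
      obtain ⟨c, hc⟩ := (mem_span_iff x _).1 u.2
      obtain ⟨d, hd⟩ := (mem_span_iff x _).1 v.2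
      rw [← hc, ← hd, tmul_vec]
      exact ⟨_, rfl⟩

theorem mem_sq_span {n : ℕ} (x : Fin n → A) (w : A ⊗[K] A) :
    w ∈ sq (Submodule.span K (Set.range x)) ↔ ∃ z, tenc x z = w := by
  rw [← range_tencL]
  rfl

/-- Change of coordinates. -/
theorem tenc_tsq {n k : ℕ} (y : Fin k → A) (g : (Fin n → K) →ₗ[K] (Fin k → K))
    (z : Fin n × Fin n → K) :
    tenc y (tsq g z) = tenc (fun c => vec y (g (Pi.single c 1))) z := by
  have h1 : ∀ c d : Fin n, vec y (g (Pi.single c 1)) ⊗ₜ[K] vec y (g (Pi.single d 1)) =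
      tenc y (tens (g (Pi.single c 1)) (g (Pi.single d 1))) := fun c d => tmul_vec y _ _
  have h2 : tenc (fun c => vec y (g (Pi.single c 1))) z =
      tencL y (∑ c, ∑ d, z (c, d) • tens (g (Pi.single c 1)) (g (Pi.single d 1))) := by
    rw [map_sum]
    unfold tenc
    refine Finset.sum_congr rfl (fun c _ => ?_)
    rw [map_sum]
    refine Finset.sum_congr rfl (fun d _ => ?_)
    rw [map_smul, h1]
    rfl
  rw [h2, tencL_apply]
  refine congrArg (tenc y) ?_
  funext ab
  simp only [tsq, tens, LinearMap.coe_mk, AddHom.coe_mk, Finset.sum_apply, Pi.smul_apply,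
    smul_eq_mul]

theorem linearMap_eq_vec {n : ℕ} (f : (Fin n → K) →ₗ[K] A) (c : Fin n → K) :
    f c = vec (fun i => f (Pi.single i 1)) c := by
  conv_lhs => rw [← vec_stb c]
  rw [map_vec]
  rfl

theorem tenc_stb_tsq {n k : ℕ} (g : (Fin n → K) →ₗ[K] (Fin k → K)) (z : Fin n × Fin n → K) :
    tenc (stb K k) (tsq g z) = TensorProduct.map g g (tenc (stb K n) z) := by
  rw [tenc_tsq, map_tenc]
  refine congrArg (fun y => tenc y z) ?_
  funext c
  rw [vec_stb]
  rfl

theorem tsq_tsq {n k : ℕ} (g : (Fin n → K) →ₗ[K] (Fin k → K)) (h : (Fin k → K) →ₗ[K] (Fin n → K))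
    (hgh : ∀ c, h (g c) = c) (z : Fin n × Fin n → K) : tsq h (tsq g z) = z := by
  apply tencL_stb_injective n
  rw [tencL_apply, tencL_apply, tenc_stb_tsq, tenc_stb_tsq, ← LinearMap.comp_apply,
    ← TensorProduct.map_comp]
  have h1 : h ∘ₗ g = LinearMap.id := LinearMap.ext hgh
  rw [h1, TensorProduct.map_id, LinearMap.id_apply]

/-! ### Realisation -/

variable {m m'}

theorem mem_pre_iff {D : ND K} {x : Fin D.n → A} (hx : Realises m D x) (w : A ⊗[K] A) :
    w ∈ pre m (Submodule.span K (Set.range x)) ↔ ∃ z, D.P z = 0 ∧ tenc x z = w := by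
  constructor
  · intro hw
    obtain ⟨z, hz⟩ := (mem_sq_span x w).1 (hx.closed hw)
    refine ⟨z, ?_, hz⟩
    rw [← hx.mem, ← mt_tenc, hz]
    exact hw
  · rintro ⟨z, hz, rfl⟩
    show mt m (tenc x z) ∈ Submodule.span K (Set.range x)
    rw [mt_tenc]
    exact (hx.mem z).2 hz

/-- The span of all rows and columns of the elements of the kernel of `P`. -/
def ND.sp (D : ND K) : Submodule K (Fin D.n → K) :=
  Submodule.span K {x : Fin D.n → K | ∃ w, D.P w = 0 ∧ ∃ i : Fin D.n,
    x = (fun a => w (i, a)) ∨ x = (fun a => w (a, i))}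

theorem cL_tenc {n : ℕ} (x : Fin n → A) (f : A →ₗ[K] K) (w : Fin n × Fin n → K) :
    cL f (tenc x w) = ∑ i, f (x i) • vec x (fun a => w (i, a)) := by
  simp only [tenc, map_sum, map_smul, cL_tmul, vec, Finset.smul_sum]
  refine Finset.sum_congr rfl (fun a _ => Finset.sum_congr rfl (fun b _ => ?_))
  rw [smul_smul, smul_smul, mul_comm]

theorem cR_tenc {n : ℕ} (x : Fin n → A) (f : A →ₗ[K] K) (w : Fin n × Fin n → K) :
    cR f (tenc x w) = ∑ i, f (x i) • vec x (fun a => w (a, i)) := by
  simp only [tenc, map_sum, map_smul, cR_tmul, vec, Finset.smul_sum]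
  rw [Finset.sum_comm]
  refine Finset.sum_congr rfl (fun a _ => Finset.sum_congr rfl (fun b _ => ?_))
  rw [smul_smul, smul_smul, mul_comm]

theorem exists_dual {n : ℕ} {x : Fin n → A} (hx : LinearIndependent K x) (i : Fin n) :
    ∃ f : A →ₗ[K] K, ∀ c : Fin n → K, f (vec x c) = c i := by
  obtain ⟨g, hg⟩ := (vecL (K := K) x).exists_leftInverse_of_injective
    (LinearMap.ker_eq_bot.2 (vecL_injective hx))
  refine ⟨LinearMap.proj i ∘ₗ g, fun c => ?_⟩
  have h := LinearMap.congr_fun hg c
  rw [LinearMap.comp_apply, LinearMap.id_apply, vecL_apply] at h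
  rw [LinearMap.comp_apply, h]
  rfl

theorem exists_dual' {n : ℕ} {x : Fin n → A} (hx : LinearIndependent K x) (i : Fin n) :
    ∃ f : A →ₗ[K] K, f (x i) = 1 ∧ ∀ j, j ≠ i → f (x j) = 0 := by
  classical
  obtain ⟨f, hf⟩ := exists_dual hx i
  refine ⟨f, ?_, fun j hj => ?_⟩
  · have := hf (Pi.single i 1)
    rwa [vec_single, Pi.single_eq_same] at this
  · have := hf (Pi.single j 1)
    rwa [vec_single, Pi.single_eq_of_ne (Ne.symm hj)] at this

theorem supp_pre {D : ND K} {x : Fin D.n → A} (hx : Realises m D x) :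
    supp (pre m (Submodule.span K (Set.range x))) = D.sp.map (vecL x) := by
  classical
  apply le_antisymm
  · rw [← le_sq_iff]
    intro w hw
    obtain ⟨z, hz, rfl⟩ := (mem_pre_iff hx w).1 hw
    rw [mem_sq_iff]
    intro f
    constructor
    · rw [cL_tenc]
      exact Submodule.sum_mem _ (fun i _ => Submodule.smul_mem _ _
        ⟨_, Submodule.subset_span ⟨z, hz, i, Or.inl rfl⟩, rfl⟩)
    · rw [cR_tenc]
      exact Submodule.sum_mem _ (fun i _ => Submodule.smul_mem _ _
        ⟨_, Submodule.subset_span ⟨z, hz, i, Or.inr rfl⟩, rfl⟩)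
  · rw [Submodule.map_le_iff_le_comap]
    refine Submodule.span_le.2 ?_
    rintro u ⟨w, hw, i, hu⟩
    obtain ⟨f, hf1, hf0⟩ := exists_dual' hx.indep i
    have hmem : tenc x w ∈ pre m (Submodule.span K (Set.range x)) :=
      (mem_pre_iff hx _).2 ⟨w, hw, rfl⟩
    have hs := (mem_sq_iff _ _).1 (le_sq_supp _ hmem) f
    rcases hu with rfl | rfl
    · have h1 := hs.1
      rw [cL_tenc, Finset.sum_eq_single i] at h1
      · rw [hf1, one_smul] at h1
        exact h1
      · intro b _ hb
        rw [hf0 b hb, zero_smul]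
      · simp
    · have h1 := hs.2
      rw [cR_tenc, Finset.sum_eq_single i] at h1
      · rw [hf1, one_smul] at h1
        exact h1
      · intro b _ hb
        rw [hf0 b hb, zero_smul]
      · simp

variable (m m')

/-- The reducedness in coordinates. -/
theorem red_iff_rd {D : ND K} (hD : D.Ok) {x : Fin D.n → A} (hx : Realises m D x) :
    Red m (Submodule.span K (Set.range x)) ↔ D.Rd := by
  have hrd : D.Rd ↔ ∀ z, D.M z ∈ D.sp := Iff.rfl
  rw [hrd]
  unfold Red
  rw [supp_pre hx]
  constructor
  · intro h z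
    have hz : D.P (z - D.P z) = 0 := by rw [map_sub, hD.1, sub_self]
    have hM : D.M (z - D.P z) = D.M z := by rw [map_sub, hD.2, sub_zero]
    have h1 : tenc x (z - D.P z) ∈ pre m (Submodule.span K (Set.range x)) :=
      (mem_pre_iff hx _).2 ⟨_, hz, rfl⟩
    have h2 := h ⟨_, h1, rfl⟩
    rw [mt_tenc, hx.mul _ hz, hM] at h2
    obtain ⟨c, hc, hce⟩ := h2
    have := vecL_injective hx.indep hce
    rwa [← this]
  · rintro h _ ⟨w, hw, rfl⟩
    obtain ⟨z, hz, rfl⟩ := (mem_pre_iff hx w).1 hw
    rw [mt_tenc, hx.mul _ hz]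
    exact ⟨_, h z, rfl⟩

/-- The coordinates with respect to an independent family. -/
theorem exists_coord_equiv {n : ℕ} {x : Fin n → A} (hx : LinearIndependent K x) :
    ∃ e : (Fin n → K) ≃ₗ[K] Submodule.span K (Set.range x), ∀ c, (e c : A) = vec x c := by
  let f : (Fin n → K) →ₗ[K] Submodule.span K (Set.range x) :=
    LinearMap.codRestrict _ (vecL x) (fun c => vec_mem_span x c)
  refine ⟨LinearEquiv.ofBijective f ⟨fun c d h => ?_, fun u => ?_⟩, fun c => rfl⟩
  · exact vecL_injective hx (congrArg Subtype.val h)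
  · obtain ⟨c, hc⟩ := (mem_span_iff x _).1 u.2
    exact ⟨c, Subtype.ext hc⟩

/-- A projection with a given kernel. -/
theorem exists_proj {Z : Type} [AddCommGroup Z] [Module K Z] (W : Submodule K Z) :
    ∃ P : Z →ₗ[K] Z, (∀ z, P (P z) = P z) ∧ ∀ z, P z = 0 ↔ z ∈ W := by
  obtain ⟨W', hW'⟩ := W.exists_isCompl
  refine ⟨W'.subtype ∘ₗ W'.projectionOnto W hW'.symm, fun z => ?_, fun z => ?_⟩
  · rw [LinearMap.comp_apply, LinearMap.comp_apply, Submodule.subtype_apply,
      Submodule.subtype_apply, Submodule.projectionOnto_apply_left]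
  · rw [LinearMap.comp_apply, Submodule.subtype_apply, Submodule.coe_eq_zero,
      Submodule.projectionOnto_apply_eq_zero_iff]

/-- A basis of a finite-dimensional subspace, as a family in the whole space. -/
theorem exists_fam {V : Submodule K A} (hV : FiniteDimensional K V) :
    ∃ (n : ℕ) (x : Fin n → A), LinearIndependent K x ∧ Submodule.span K (Set.range x) = V := by
  have b : Module.Basis (Fin (Module.finrank K V)) K V := Module.finBasis K V
  refine ⟨Module.finrank K V, fun i => (b i : A), b.linearIndependent.map' V.subtype V.ker_subtype,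
    ?_⟩
  have h1 : Set.range (fun i => (b i : A)) = V.subtype '' (Set.range b) := by
    rw [← Set.range_comp]
    rfl
  rw [h1, Submodule.span_image, b.span_eq, Submodule.map_top, Submodule.range_subtype]

/-- The linear maps `P` and `M` for a linear map `q` and an independent family. -/
theorem exists_PM {Z : Type} [AddCommGroup Z] [Module K Z] (q : Z →ₗ[K] A) {n : ℕ}
    {x : Fin n → A} (hx : LinearIndependent K x) :
    ∃ (P : Z →ₗ[K] Z) (M : Z →ₗ[K] (Fin n → K)), (∀ z, P (P z) = P z) ∧ (∀ z, M (P z) = 0) ∧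
      (∀ z, q z ∈ Submodule.span K (Set.range x) ↔ P z = 0) ∧
      ∀ z, P z = 0 → q z = vec x (M z) := by
  obtain ⟨P, hPP, hP0⟩ := exists_proj ((Submodule.span K (Set.range x)).comap q)
  obtain ⟨e, he⟩ := exists_coord_equiv hx
  have hmem : ∀ z, (q ∘ₗ (LinearMap.id - P)) z ∈ Submodule.span K (Set.range x) := by
    intro z
    have h1 : z - P z ∈ (Submodule.span K (Set.range x)).comap q := by
      rw [← hP0, map_sub, hPP, sub_self]
    exact h1
  have hM : ∀ z, vec x (e.symm ((LinearMap.codRestrict (Submodule.span K (Set.range x))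
      (q ∘ₗ (LinearMap.id - P)) hmem) z)) = q (z - P z) := by
    intro z
    rw [← he, LinearEquiv.apply_symm_apply]
    rfl
  refine ⟨P, e.symm.toLinearMap ∘ₗ (LinearMap.codRestrict (Submodule.span K (Set.range x))
      (q ∘ₗ (LinearMap.id - P)) hmem), hPP, fun z => ?_, fun z => ?_, fun z hz => ?_⟩
  · apply vecL_injective hx
    rw [vecL_apply, map_zero, LinearMap.comp_apply, LinearEquiv.coe_coe, hM, hPP, sub_self,
      map_zero]
  · rw [hP0]
    rfl
  · rw [LinearMap.comp_apply, LinearEquiv.coe_coe, hM, hz, sub_zero]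

/-- Every closed generating finite-dimensional subspace has a basis which realises some normal form
data. -/
theorem exists_realises {V : Submodule K A} (hV : FiniteDimensional K V) (hG : Gen m V)
    (hC : Closed m V) : ∃ (D : ND K) (x : Fin D.n → A), D.Ok ∧ Realises m D x ∧
      Submodule.span K (Set.range x) = V := by
  obtain ⟨n, x, hind, hspan⟩ := exists_fam hV
  obtain ⟨P, M, hPP, hMP, hmem, hmul⟩ := exists_PM (mt m ∘ₗ tencL x) hind
  have hq : ∀ z, prodc m x z = (mt m ∘ₗ tencL x) z := by
    intro z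
    rw [LinearMap.comp_apply, tencL_apply, mt_tenc]
  subst hspan
  exact ⟨⟨n, P, M⟩, x, ⟨hPP, hMP⟩, ⟨hind, hC, hG, fun z => (by rw [hq]; exact hmem z),
    fun z hz => (by rw [hq]; exact hmul z hz)⟩, rfl⟩

/-- Transport of a realisation along an isomorphism. -/
theorem Realises.transport {D : ND K} {x : Fin D.n → A} (hx : Realises m D x) (e : A ≃ₗ[K] B)
    (he : ∀ x y, e (m x y) = m' (e x) (e y)) : Realises m' D (fun i => e (x i)) := by
  have hspan : Submodule.span K (Set.range (fun i => e (x i))) =
      (Submodule.span K (Set.range x)).map e.toLinearMap := by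
    rw [Submodule.map_span, ← Set.range_comp]
    rfl
  have hmem : ∀ u : A, e u ∈ Submodule.span K (Set.range (fun i => e (x i))) ↔
      u ∈ Submodule.span K (Set.range x) := by
    intro u
    rw [hspan]
    constructor
    · rintro ⟨v, hv, hve⟩
      rwa [← e.injective hve]
    · intro hu
      exact ⟨u, hu, rfl⟩
  have hmt : ∀ w, mt m' (TensorProduct.map e.toLinearMap e.toLinearMap w) = e (mt m w) := by
    intro w
    exact (IsHom.mt m m' (φ := e.toLinearMap) he w).symm
  have hprod : ∀ z, prodc m' (fun i => e (x i)) z = e (prodc m x z) := by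
    intro z
    rw [← mt_tenc, ← mt_tenc, ← hmt, map_tenc]
    rfl
  have hvec : ∀ c : Fin D.n → K, vec (fun i => e (x i)) c = e (vec x c) := by
    intro c
    exact (map_vec e.toLinearMap x c).symm
  refine ⟨hx.indep.map' e.toLinearMap e.ker, ?_, ?_, fun z => ?_, fun z hz => ?_⟩
  · intro w hw
    obtain ⟨w, rfl⟩ : ∃ w', TensorProduct.map e.toLinearMap e.toLinearMap w' = w :=
      ⟨TensorProduct.map e.symm.toLinearMap e.symm.toLinearMap w, by
        rw [← LinearMap.comp_apply, ← TensorProduct.map_comp]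
        simp⟩
    have h1 : w ∈ pre m (Submodule.span K (Set.range x)) := by
      show mt m w ∈ Submodule.span K (Set.range x)
      rw [← hmem, ← hmt]
      exact hw
    obtain ⟨z, hz⟩ := (mem_sq_span x w).1 (hx.closed h1)
    rw [← hz, map_tenc]
    exact (mem_sq_span _ _).2 ⟨z, rfl⟩
  · intro S hS hmul
    have h1 := hx.gen (S.comap e.toLinearMap) (by
      rw [← Submodule.map_le_iff_le_comap, ← hspan]
      exact hS) (fun u hu v hv => by
      show e (m u v) ∈ S
      rw [he]
      exact hmul _ hu _ hv)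
    rw [eq_top_iff]
    rintro u -
    have h2 : e.symm u ∈ S.comap e.toLinearMap := by
      rw [h1]
      exact Submodule.mem_top
    have h3 : e (e.symm u) ∈ S := h2
    rwa [LinearEquiv.apply_symm_apply] at h3
  · rw [hprod, hmem, hx.mem]
  · rw [hprod, hx.mul z hz, hvec]

/-- Data realised in isomorphic algebras by reduced subspaces are isomorphic. -/
theorem niso_of_algIso {D D' : ND K} (hD : D.Ok) (hD' : D'.Ok) (hR : D.Rd) (hR' : D'.Rd)
    {x : Fin D.n → A} {x' : Fin D'.n → B} (hx : Realises m D x) (hx' : Realises m' D' x')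
    (h : AlgIso m m') : NIso D D' := by
  obtain ⟨e, he⟩ := h
  have hy := hx.transport m m' e he
  set y : Fin D.n → B := fun i => e (x i) with hydef
  set V := Submodule.span K (Set.range y) with hV
  set V' := Submodule.span K (Set.range x') with hV'
  have hVf : FiniteDimensional K V := FiniteDimensional.span_of_finite K (Set.finite_range y)
  have hVf' : FiniteDimensional K V' := FiniteDimensional.span_of_finite K (Set.finite_range x')
  have hVR : Red m' V := (red_iff_rd m' hD hy).2 hR
  have hVR' : Red m' V' := (red_iff_rd m' hD' hx').2 hR'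
  obtain ⟨hs, hp, -⟩ := reduced_unique m' hVf hy.gen hy.closed hVR hVf' hx'.gen hx'.closed hVR'
  obtain ⟨α, hα⟩ := exists_equiv_of_reduced m' hVf hy.gen hy.closed hVR hVf' hx'.gen hx'.closed hVR'
  obtain ⟨e1, he1⟩ := exists_coord_equiv hy.indep
  obtain ⟨e2, he2⟩ := exists_coord_equiv hx'.indep
  set g : (Fin D.n → K) ≃ₗ[K] (Fin D'.n → K) := (e1.trans α).trans e2.symm with hg
  -- the two embeddings of `V`
  let ι : V →ₗ[K] B := V.subtype
  let α' : V →ₗ[K] B := V'.subtype ∘ₗ α.toLinearMap
  have hι : Function.Injective ι := Subtype.val_injective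
  have hα' : Function.Injective α' := Subtype.val_injective.comp α.injective
  have hgα : ∀ c, vec x' (g c) = α' (e1 c) := by
    intro c
    rw [← he2]
    show ((e2 (e2.symm (α (e1 c))) : V') : B) = _
    rw [LinearEquiv.apply_symm_apply]
    rfl
  let yv : Fin D.n → V := fun i => e1 (Pi.single i 1)
  have hyv : ∀ i, (yv i : B) = y i := fun i => by
    show ((e1 (Pi.single i 1) : V) : B) = _
    rw [he1, vec_single]
  have hι_t : ∀ z, TensorProduct.map ι ι (tenc yv z) = tenc y z := by
    intro z
    rw [map_tenc]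
    refine congrArg (fun y => tenc y z) ?_
    funext i
    exact hyv i
  have hα_t : ∀ z, TensorProduct.map α' α' (tenc yv z) = tenc x' (tsq g.toLinearMap z) := by
    intro z
    rw [map_tenc, tenc_tsq]
    refine congrArg (fun y => tenc y z) ?_
    funext i
    exact (hgα _).symm
  -- the common support
  set T := supp (pre m' V) with hT
  have hTV : T ≤ V := (le_sq_iff _ _).1 hy.closed
  let inc : T →ₗ[K] V := Submodule.inclusion hTV
  have hinc : ∀ w, TensorProduct.map T.subtype T.subtype w =
      TensorProduct.map ι ι (TensorProduct.map inc inc w) := by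
    intro w
    rw [← LinearMap.comp_apply, ← TensorProduct.map_comp]
    rfl
  have hinc' : ∀ w, TensorProduct.map T.subtype T.subtype w =
      TensorProduct.map α' α' (TensorProduct.map inc inc w) := by
    intro w
    have h1 : α' ∘ₗ inc = T.subtype := by
      ext t
      exact hα (inc t) t.2
    rw [← LinearMap.comp_apply, ← TensorProduct.map_comp, h1]
  have key1 : ∀ z, tenc y z ∈ sq T → tenc x' (tsq g.toLinearMap z) = tenc y z := by
    rintro z ⟨w, hw⟩
    have h1 : tenc yv z = TensorProduct.map inc inc w := by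
      apply tmap_injective ι hι
      rw [hι_t, ← hinc, hw]
    rw [← hα_t, h1, ← hinc', hw]
  have key2 : ∀ z, tenc x' (tsq g.toLinearMap z) ∈ sq T →
      tenc x' (tsq g.toLinearMap z) = tenc y z := by
    rintro z ⟨w, hw⟩
    have h1 : tenc yv z = TensorProduct.map inc inc w := by
      apply tmap_injective α' hα'
      rw [hα_t, ← hinc', hw]
    rw [← hι_t, h1, ← hinc, hw]
  have hfwd : ∀ z, D.P z = 0 → D'.P (tsq g.toLinearMap z) = 0 ∧
      tenc x' (tsq g.toLinearMap z) = tenc y z := by
    intro z hz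
    have h1 : tenc y z ∈ pre m' V := (mem_pre_iff hy _).2 ⟨z, hz, rfl⟩
    have h2 := key1 z (le_sq_supp _ h1)
    refine ⟨?_, h2⟩
    rw [← hx'.mem, ← mt_tenc, h2]
    rw [hp] at h1
    exact h1
  refine ⟨g, fun z => ⟨⟨fun hz => (hfwd z hz).1, fun hz => ?_⟩, fun hz => ?_⟩⟩
  · have h1 : tenc x' (tsq g.toLinearMap z) ∈ pre m' V' := (mem_pre_iff hx' _).2 ⟨_, hz, rfl⟩
    rw [← hp] at h1
    have h2 := key2 z (le_sq_supp _ h1)
    rw [h2] at h1
    rw [← hy.mem, ← mt_tenc]
    exact h1
  · obtain ⟨hz', h2⟩ := hfwd z hz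
    apply vecL_injective hx'.indep
    rw [vecL_apply, vecL_apply, ← hx'.mul _ hz', ← mt_tenc, h2, mt_tenc, hy.mul z hz, hgα, ← he1]
    refine hα _ ?_
    rw [he1, ← hy.mul z hz, ← mt_tenc]
    exact hVR ⟨_, (mem_pre_iff hy _).2 ⟨z, hz, rfl⟩, rfl⟩

/-- One half of `algIso_of_niso`. -/
theorem exists_hom_of_coord {D D' : ND K} {x : Fin D.n → A} {x' : Fin D'.n → B}
    (hx : Realises m D x) (hx' : Realises m' D' x') (g : (Fin D.n → K) →ₗ[K] (Fin D'.n → K))
    (hg : ∀ z, D.P z = 0 → D'.P (tsq g z) = 0 ∧ g (D.M z) = D'.M (tsq g z)) :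
    ∃ φ : A →ₗ[K] B, IsHom m m' φ ∧ ∀ c, φ (vec x c) = vec x' (g c) := by
  obtain ⟨e1, he1⟩ := exists_coord_equiv hx.indep
  let j : Submodule.span K (Set.range x) →ₗ[K] B := vecL x' ∘ₗ g ∘ₗ e1.symm.toLinearMap
  have hj : ∀ c, j (e1 c) = vec x' (g c) := by
    intro c
    show vec x' (g (e1.symm (e1 c))) = _
    rw [LinearEquiv.symm_apply_apply]
  let xv : Fin D.n → Submodule.span K (Set.range x) := fun i => e1 (Pi.single i 1)
  have hxv : ∀ i, (xv i : A) = x i := fun i => by
    show ((e1 (Pi.single i 1) : Submodule.span K (Set.range x)) : A) = _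
    rw [he1, vec_single]
  have hι_t : ∀ z, TensorProduct.map (Submodule.span K (Set.range x)).subtype
      (Submodule.span K (Set.range x)).subtype (tenc xv z) = tenc x z := by
    intro z
    rw [map_tenc]
    refine congrArg (fun y => tenc y z) ?_
    funext i
    exact hxv i
  have hj_t : ∀ z, TensorProduct.map j j (tenc xv z) = tenc x' (tsq g z) := by
    intro z
    rw [map_tenc, tenc_tsq]
    refine congrArg (fun y => tenc y z) ?_
    funext i
    exact hj _
  obtain ⟨φ, hφ, hφj⟩ := UP_of_closed m hx.gen hx.closed B m' j (by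
    intro w v hwv
    have hws : TensorProduct.map (Submodule.span K (Set.range x)).subtype
        (Submodule.span K (Set.range x)).subtype w ∈ sq (Submodule.span K (Set.range x)) :=
      ⟨w, rfl⟩
    obtain ⟨z, hz⟩ := (mem_sq_span x _).1 hws
    have hw : w = tenc xv z := by
      apply tmap_injective (Submodule.span K (Set.range x)).subtype Subtype.val_injective
      rw [hι_t, hz]
    rw [hw, hι_t, mt_tenc] at hwv
    have hP : D.P z = 0 := by
      rw [← hx.mem, hwv]
      exact v.2
    obtain ⟨h1, h2⟩ := hg z hP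
    rw [hw, hj_t, mt_tenc, hx'.mul _ h1, ← h2, ← hj]
    congr 1
    apply Subtype.ext
    rw [he1, ← hwv, hx.mul z hP])
  refine ⟨φ, hφ, fun c => ?_⟩
  rw [← hj, ← hφj, he1]

/-- Isomorphic data are realised in isomorphic algebras only (universal property both ways). -/
theorem algIso_of_niso {D D' : ND K} (hD : D.Ok) (hD' : D'.Ok)
    {x : Fin D.n → A} {x' : Fin D'.n → B} (hx : Realises m D x) (hx' : Realises m' D' x')
    (h : NIso D D') : AlgIso m m' := by
  obtain ⟨g, hg⟩ := h
  obtain ⟨φ, hφ, hφv⟩ := exists_hom_of_coord m m' hx hx' g.toLinearMap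
    (fun z hz => ⟨(hg z).1.1 hz, (hg z).2 hz⟩)
  have hgg : ∀ z, tsq g.toLinearMap (tsq g.symm.toLinearMap z) = z :=
    tsq_tsq g.symm.toLinearMap g.toLinearMap (fun c => g.apply_symm_apply c)
  obtain ⟨ψ, hψ, hψv⟩ := exists_hom_of_coord m' m hx' hx g.symm.toLinearMap (by
    intro z hz
    have h1 := hg (tsq g.symm.toLinearMap z)
    rw [hgg] at h1
    refine ⟨h1.1.2 hz, ?_⟩
    rw [← h1.2 (h1.1.2 hz)]
    exact g.symm_apply_apply _)
  have h1 : ψ ∘ₗ φ = LinearMap.id := by
    refine hom_ext m m hx.gen (fun u v => ?_) (fun u v => rfl) (fun v hv => ?_)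
    · rw [LinearMap.comp_apply, hφ, hψ]
      rfl
    · obtain ⟨c, rfl⟩ := (mem_span_iff x v).1 hv
      rw [LinearMap.comp_apply, hφv, hψv, LinearMap.id_apply]
      exact congrArg (vec x) (g.symm_apply_apply c)
  have h2 : φ ∘ₗ ψ = LinearMap.id := by
    refine hom_ext m' m' hx'.gen (fun u v => ?_) (fun u v => rfl) (fun v hv => ?_)
    · rw [LinearMap.comp_apply, hψ, hφ]
      rfl
    · obtain ⟨c, rfl⟩ := (mem_span_iff x' v).1 hv
      rw [LinearMap.comp_apply, hψv, hφv, LinearMap.id_apply]
      exact congrArg (vec x') (g.apply_symm_apply c)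
  exact ⟨LinearEquiv.ofLinearMap φ ψ h2 h1, fun u v => hφ u v⟩

end coord

end Pool.Agent.Work.MP_9ac17e_al

end

section

/-!
# Membership in the ideal of relations and isomorphism of presentations are semi-decidable
-/

set_option autoImplicit false

namespace Pool.Agent.Work.MP_9ac17e_al

section cert

variable {K C : Type} [Field K] [Primcodable C] (N : NumF K C)

/-- Application of a context: `(true, w)` multiplies by `w` on the left, `(false, w)` on the
right. -/
def ctx (n : ℕ) (l : List (Bool × List ℕ)) (r : Rel C) : Rel C :=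
  l.foldl (fun r t => cond t.1 (fsMul N n [(N.one, t.2)] r) (fsMul N n r [(N.one, t.2)])) r

/-- The element of the ideal given by a certificate: a list of a coefficient, the number of a
relator, and a context. -/
def certSum (p : Pres C) (L : List (C × ℕ × List (Bool × List ℕ))) : Rel C :=
  L.flatMap (fun t => fsScale N t.1 (ctx N p.1 t.2.2 (p.2.getD t.2.1 [])))

theorem ctx_append (n : ℕ) (l l' : List (Bool × List ℕ)) (r : Rel C) :
    ctx N n (l ++ l') r = ctx N n l' (ctx N n l r) := by
  unfold ctx
  rw [List.foldl_append]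

theorem sem_one (n : ℕ) (w : List ℕ) : sem N.val n [(N.one, w)] = mon K n w := by
  rw [sem_single, N.val_one, one_smul]

theorem sem_ctx_mem (p : Pres C) (l : List (Bool × List ℕ)) : ∀ r : Rel C,
    sem N.val p.1 r ∈ idl N.val p → sem N.val p.1 (ctx N p.1 l r) ∈ idl N.val p := by
  induction l with
  | nil => intro r h; exact h
  | cons t l ih =>
    intro r h
    have h1 : ctx N p.1 (t :: l) r = ctx N p.1 l
      (cond t.1 (fsMul N p.1 [(N.one, t.2)] r) (fsMul N p.1 r [(N.one, t.2)])) := rfl
    rw [h1]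
    apply ih
    cases t.1 with
    | true =>
      show sem N.val p.1 (fsMul N p.1 [(N.one, t.2)] r) ∈ _
      rw [sem_fsMul]
      exact idl_mul_left N.val p _ h
    | false =>
      show sem N.val p.1 (fsMul N p.1 r [(N.one, t.2)]) ∈ _
      rw [sem_fsMul]
      exact idl_mul_right N.val p _ h

theorem certSum_mem (p : Pres C) (L : List (C × ℕ × List (Bool × List ℕ))) :
    sem N.val p.1 (certSum N p L) ∈ idl N.val p := by
  unfold certSum
  rw [sem_flatMap]
  refine list_sum_mem (fun x hx => ?_)
  rw [List.mem_map] at hx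
  obtain ⟨t, -, rfl⟩ := hx
  rw [sem_fsScale]
  refine (idl N.val p).smul_mem _ (sem_ctx_mem N p _ _ ?_)
  rw [List.getD_eq_getElem?_getD]
  cases h : p.2[t.2.1]? with
  | none =>
    show sem N.val p.1 [] ∈ _
    rw [sem_nil]
    exact (idl N.val p).zero_mem
  | some r =>
    show sem N.val p.1 r ∈ _
    exact rel_mem_idl N.val p (List.mem_of_getElem? h)

/-- The set of all values of certificates, as a subspace. -/
noncomputable def certSub (hs : Function.Surjective N.val) (p : Pres C) :
    Submodule K (FA K p.1) where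
  carrier := {x | ∃ L, sem N.val p.1 (certSum N p L) = x}
  add_mem' := by
    rintro _ _ ⟨L, rfl⟩ ⟨L', rfl⟩
    refine ⟨L ++ L', ?_⟩
    unfold certSum
    rw [List.flatMap_append, sem_append]
  zero_mem' := ⟨[], rfl⟩
  smul_mem' := by
    rintro k _ ⟨L, rfl⟩
    obtain ⟨c, rfl⟩ := hs k
    refine ⟨L.map (fun t => (N.mul c t.1, t.2)), ?_⟩
    unfold certSum
    rw [sem_flatMap, sem_flatMap, List.map_map]
    induction L with
    | nil => rw [List.map_nil, List.map_nil, List.sum_nil, smul_zero]
    | cons t L ih =>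
      rw [List.map_cons, List.map_cons, List.sum_cons, List.sum_cons, ih, smul_add]
      congr 1
      show sem N.val p.1 (fsScale N (N.mul c t.1) _) = _
      rw [sem_fsScale, sem_fsScale, N.val_mul, smul_smul]

theorem mem_certSub (hs : Function.Surjective N.val) (p : Pres C) (x : FA K p.1) :
    x ∈ certSub N hs p ↔ ∃ L, sem N.val p.1 (certSum N p L) = x := Iff.rfl

/-- Extending all contexts by the same entry. -/
theorem cert_mul (p : Pres C) (b : Bool) (w : List ℕ)
    (L : List (C × ℕ × List (Bool × List ℕ))) :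
    sem N.val p.1 (certSum N p (L.map (fun t => (t.1, t.2.1, t.2.2 ++ [(b, w)])))) =
      cond b (mon K p.1 w * sem N.val p.1 (certSum N p L))
        (sem N.val p.1 (certSum N p L) * mon K p.1 w) := by
  unfold certSum
  rw [sem_flatMap, sem_flatMap, List.map_map]
  have h1 : ∀ (l : List (Bool × List ℕ)) (r : Rel C),
      sem N.val p.1 (ctx N p.1 (l ++ [(b, w)]) r) = cond b (mon K p.1 w * sem N.val p.1 (ctx N p.1 l r))
        (sem N.val p.1 (ctx N p.1 l r) * mon K p.1 w) := by
    intro l r
    rw [ctx_append]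
    cases b with
    | true =>
      show sem N.val p.1 (fsMul N p.1 [(N.one, w)] _) = mon K p.1 w * _
      rw [sem_fsMul, sem_one]
    | false =>
      show sem N.val p.1 (fsMul N p.1 _ [(N.one, w)]) = _ * mon K p.1 w
      rw [sem_fsMul, sem_one]
  induction L with
  | nil => cases b <;> simp
  | cons t L ih =>
    rw [List.map_cons, List.map_cons, List.sum_cons, List.sum_cons, ih]
    show sem N.val p.1 (fsScale N t.1 (ctx N p.1 (t.2.2 ++ [(b, w)]) _)) + _ = _
    rw [sem_fsScale, sem_fsScale, h1]
    cases b with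
    | true =>
      show N.val t.1 • (mon K p.1 w * _) + mon K p.1 w * _ = mon K p.1 w * _
      rw [mul_add, mul_smul_comm]
    | false =>
      show N.val t.1 • (_ * mon K p.1 w) + _ * mon K p.1 w = _ * mon K p.1 w
      rw [add_mul, smul_mul_assoc]

theorem idl_le_certSub (hs : Function.Surjective N.val) (p : Pres C) :
    idl N.val p ≤ certSub N hs p := by
  refine idl_le N.val p _ (fun r hr => ?_) (fun a x hx => ?_)
  · obtain ⟨i, hi, rfl⟩ := List.mem_iff_getElem.1 hr
    refine ⟨[(N.one, i, [])], ?_⟩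
    unfold certSum
    rw [sem_flatMap, List.map_cons, List.sum_cons, List.map_nil, List.sum_nil, add_zero,
      sem_fsScale, N.val_one, one_smul]
    show sem N.val p.1 (p.2.getD i []) = _
    rw [List.getD_eq_getElem _ _ hi]
  · induction a using MonoidAlgebra.induction_linear with
    | zero =>
      rw [zero_mul, mul_zero]
      exact ⟨(certSub N hs p).zero_mem, (certSub N hs p).zero_mem⟩
    | add a b ha hb =>
      rw [add_mul, mul_add]
      exact ⟨(certSub N hs p).add_mem ha.1 hb.1, (certSub N hs p).add_mem ha.2 hb.2⟩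
    | single y k =>
      have h1 : (MonoidAlgebra.single y k : FA K p.1) = k • mon K p.1 (word y) := by
        rw [mon_word, MonoidAlgebra.smul_single, smul_eq_mul, mul_one]
      rw [h1, smul_mul_assoc, mul_smul_comm]
      obtain ⟨L, rfl⟩ := hx
      refine ⟨(certSub N hs p).smul_mem k ?_, (certSub N hs p).smul_mem k ?_⟩
      · exact ⟨_, cert_mul N p true (word y) L⟩
      · exact ⟨_, cert_mul N p false (word y) L⟩

theorem mem_idl_iff (hs : Function.Surjective N.val) (p : Pres C) (x : FA K p.1) :
    x ∈ idl N.val p ↔ ∃ L, sem N.val p.1 (certSum N p L) = x := by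
  constructor
  · exact fun h => idl_le_certSub N hs p h
  · rintro ⟨L, rfl⟩
    exact certSum_mem N p L

theorem fsZero_cert (p : Pres C) (r : Rel C) (L : List (C × ℕ × List (Bool × List ℕ))) :
    fsZero N p.1 (r ++ fsScale N (N.neg N.one) (certSum N p L)) = true ↔
      sem N.val p.1 (certSum N p L) = sem N.val p.1 r := by
  rw [fsZero_iff, sem_append, sem_fsScale, N.val_neg, N.val_one, neg_one_smul]
  constructor
  · intro h
    exact (add_neg_eq_zero.1 h).symm
  · intro h
    rw [h, add_neg_cancel]

/-- A certificate proves membership. -/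
theorem mem_idl_of_fsZero (p : Pres C) (r : Rel C) (L : List (C × ℕ × List (Bool × List ℕ)))
    (h : fsZero N p.1 (r ++ fsScale N (N.neg N.one) (certSum N p L)) = true) :
    sem N.val p.1 r ∈ idl N.val p := by
  rw [fsZero_cert] at h
  rw [← h]
  exact certSum_mem N p L

/-- Membership as an equation which can be tested. -/
theorem mem_idl_iff_fsZero (hs : Function.Surjective N.val) (p : Pres C) (r : Rel C) :
    sem N.val p.1 r ∈ idl N.val p ↔ ∃ L : List (C × ℕ × List (Bool × List ℕ)),
      fsZero N p.1 (r ++ fsScale N (N.neg N.one) (certSum N p L)) = true := by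
  rw [mem_idl_iff N hs]
  exact exists_congr (fun L => (fsZero_cert N p r L).symm)

@[fun_prop] theorem primrec_ctx {α : Type} [Primcodable α] {n : α → ℕ}
    {l : α → List (Bool × List ℕ)} {r : α → Rel C} (hn : Primrec n) (hl : Primrec l)
    (hr : Primrec r) : Primrec (fun a => ctx N (n a) (l a) (r a)) := by
  unfold ctx
  fun_prop

@[fun_prop] theorem primrec_certSum {α : Type} [Primcodable α] {p : α → Pres C}
    {L : α → List (C × ℕ × List (Bool × List ℕ))} (hp : Primrec p) (hL : Primrec L) :
    Primrec (fun a => certSum N (p a) (L a)) := by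
  unfold certSum
  fun_prop

/-- Membership in the ideal of relations is semi-decidable. -/
theorem sig_mem (hs : Function.Surjective N.val) :
    PR.Sig (fun q : Pres C × Rel C => sem N.val q.1.1 q.2 ∈ idl N.val q.1) := by
  have h : PR.Sig (fun x : (Pres C × Rel C) × List (C × ℕ × List (Bool × List ℕ)) =>
      fsZero N x.1.1.1 (x.1.2 ++ fsScale N (N.neg N.one) (certSum N x.1.1 x.2)) = true) :=
    PR.Sig.of_bool (by fun_prop)
  exact h.ex.congr (fun q => (mem_idl_iff_fsZero N hs q.1 q.2).symm)

/-! ### Isomorphism -/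

/-- The certificate for an isomorphism. -/
def IsoCert (p q : Pres C) (a b : List (Rel C)) : Prop :=
  ((∀ r ∈ p.2, sem N.val q.1 (evR N q.1 p.1 a r) ∈ idl N.val q) ∧
    (∀ s ∈ q.2, sem N.val p.1 (evR N p.1 q.1 b s) ∈ idl N.val p)) ∧
  ((∀ i ∈ List.range p.1, sem N.val p.1 (evR N p.1 q.1 b (a.getD i []) ++
      [(N.neg N.one, [i + 1])]) ∈ idl N.val p) ∧
    (∀ j ∈ List.range q.1, sem N.val q.1 (evR N q.1 p.1 a (b.getD j []) ++
      [(N.neg N.one, [j + 1])]) ∈ idl N.val q))

theorem sig_isoCert (hs : Function.Surjective N.val) :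
    PR.Sig (fun x : (Pres C × Pres C) × (List (Rel C) × List (Rel C)) =>
      IsoCert N x.1.1 x.1.2 x.2.1 x.2.2) := by
  unfold IsoCert
  refine PR.Sig.and (PR.Sig.and ?_ ?_) (PR.Sig.and ?_ ?_)
  · refine PR.Sig.all (P := fun y : ((Pres C × Pres C) × (List (Rel C) × List (Rel C))) × Rel C =>
      sem N.val y.1.1.2.1 (evR N y.1.1.2.1 y.1.1.1.1 y.1.2.1 y.2) ∈ idl N.val y.1.1.2) ?_
      (l := fun x => x.1.1.2) (by fun_prop)
    exact (sig_mem N hs).comp (f := fun y : ((Pres C × Pres C) × (List (Rel C) × List (Rel C))) ×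
      Rel C => (y.1.1.2, evR N y.1.1.2.1 y.1.1.1.1 y.1.2.1 y.2)) (by fun_prop)
  · refine PR.Sig.all (P := fun y : ((Pres C × Pres C) × (List (Rel C) × List (Rel C))) × Rel C =>
      sem N.val y.1.1.1.1 (evR N y.1.1.1.1 y.1.1.2.1 y.1.2.2 y.2) ∈ idl N.val y.1.1.1) ?_
      (l := fun x => x.1.2.2) (by fun_prop)
    exact (sig_mem N hs).comp (f := fun y : ((Pres C × Pres C) × (List (Rel C) × List (Rel C))) ×
      Rel C => (y.1.1.1, evR N y.1.1.1.1 y.1.1.2.1 y.1.2.2 y.2)) (by fun_prop)
  · refine PR.Sig.all (P := fun y : ((Pres C × Pres C) × (List (Rel C) × List (Rel C))) × ℕ =>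
      sem N.val y.1.1.1.1 (evR N y.1.1.1.1 y.1.1.2.1 y.1.2.2 (y.1.2.1.getD y.2 []) ++
        [(N.neg N.one, [y.2 + 1])]) ∈ idl N.val y.1.1.1) ?_
      (l := fun x => List.range x.1.1.1) (by fun_prop)
    exact (sig_mem N hs).comp (f := fun y : ((Pres C × Pres C) × (List (Rel C) × List (Rel C))) ×
      ℕ => (y.1.1.1, evR N y.1.1.1.1 y.1.1.2.1 y.1.2.2 (y.1.2.1.getD y.2 []) ++
        [(N.neg N.one, [y.2 + 1])])) (by fun_prop)
  · refine PR.Sig.all (P := fun y : ((Pres C × Pres C) × (List (Rel C) × List (Rel C))) × ℕ =>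
      sem N.val y.1.1.2.1 (evR N y.1.1.2.1 y.1.1.1.1 y.1.2.1 (y.1.2.2.getD y.2 []) ++
        [(N.neg N.one, [y.2 + 1])]) ∈ idl N.val y.1.1.2) ?_
      (l := fun x => List.range x.1.2.1) (by fun_prop)
    exact (sig_mem N hs).comp (f := fun y : ((Pres C × Pres C) × (List (Rel C) × List (Rel C))) ×
      ℕ => (y.1.1.2, evR N y.1.1.2.1 y.1.1.1.1 y.1.2.1 (y.1.2.2.getD y.2 []) ++
        [(N.neg N.one, [y.2 + 1])])) (by fun_prop)

omit [Primcodable C] in
/-- Evaluation in the quotient. -/
theorem ev_qmul {K C : Type} [Field K] (val : C → K) (q : Pres C) {k : ℕ} (g : Fin k → FA K q.1)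
    (x : FA K k) : ev (qmul val q) (fun i => Submodule.Quotient.mk (g i)) x =
      (Submodule.Quotient.mk (ev (fmul K q.1) g x) : FA K q.1 ⧸ idl val q) := by
  induction x using MonoidAlgebra.induction_linear with
  | zero => rw [map_zero, map_zero]; rfl
  | add x y hx hy => rw [map_add, map_add, hx, hy]; rfl
  | single x k =>
    rw [ev_single, ev_single, Submodule.Quotient.mk_smul]
    congr 1
    induction x using FreeMagma.recOnMul with
    | ih1 i => rfl
    | ih2 x y hx hy => rw [evm_mul, evm_mul, hx, hy]; rfl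

omit [Primcodable C] in
/-- A linear map which is multiplicative is determined by its values on the generators. -/
theorem hom_eq_ev {K C : Type} [Field K] (val : C → K) (p : Pres C) {B : Type} [AddCommGroup B]
    [Module K B] (m' : B →ₗ[K] B →ₗ[K] B) (φ : (FA K p.1 ⧸ idl val p) →ₗ[K] B)
    (hφ : IsHom (qmul val p) m' φ) (x : FA K p.1) :
    φ (Submodule.Quotient.mk x) = ev m' (fun i => φ (Submodule.Quotient.mk (gen i))) x := by
  induction x using MonoidAlgebra.induction_linear with
  | zero => rw [map_zero]; exact map_zero φ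
  | add x y hx hy =>
    rw [map_add, ← hx, ← hy, ← map_add]
    rfl
  | single x k =>
    have h1 : (MonoidAlgebra.single x k : FA K p.1) = k • MonoidAlgebra.single x (1 : K) := by
      rw [MonoidAlgebra.smul_single, smul_eq_mul, mul_one]
    rw [h1, map_smul, Submodule.Quotient.mk_smul, map_smul]
    congr 1
    induction x using FreeMagma.recOnMul with
    | ih1 i =>
      rw [ev_single, one_smul, evm_of]
      rfl
    | ih2 x y hx hy =>
      have h2 : (MonoidAlgebra.single (x * y) (1 : K) : FA K p.1) =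
          MonoidAlgebra.single x (1 : K) * MonoidAlgebra.single y (1 : K) := by
        rw [MonoidAlgebra.single_mul_single, mul_one]
      rw [h2, ← qmul_mk, hφ, ev_mul, hx (by rw [MonoidAlgebra.smul_single, smul_eq_mul, mul_one]),
        hy (by rw [MonoidAlgebra.smul_single, smul_eq_mul, mul_one])]

theorem sem_gen (n : ℕ) (i : Fin n) : sem N.val n [(N.neg N.one, [(i : ℕ) + 1])] = - gen i := by
  rw [sem_single, N.val_neg, N.val_one, neg_one_smul, ← word_of, mon_word]
  rfl

theorem isoCert_sound (p q : Pres C) (a b : List (Rel C)) (h : IsoCert N p q a b) :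
    PresIso N.val p q := by
  obtain ⟨⟨h1, h2⟩, h3, h4⟩ := h
  rw [presIso_iff]
  obtain ⟨φ, hφ, hφ'⟩ := exists_lift N.val (qmul N.val q) p
    (fun i : Fin p.1 => Submodule.Quotient.mk (sem N.val q.1 (a.getD i []))) (fun r hr => by
      rw [ev_qmul, ← sem_evR, Submodule.Quotient.mk_eq_zero]
      exact h1 r hr)
  obtain ⟨ψ, hψ, hψ'⟩ := exists_lift N.val (qmul N.val p) q
    (fun i : Fin q.1 => Submodule.Quotient.mk (sem N.val p.1 (b.getD i []))) (fun r hr => by
      rw [ev_qmul, ← sem_evR, Submodule.Quotient.mk_eq_zero]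
      exact h2 r hr)
  have hcomp : ψ ∘ₗ φ = LinearMap.id := by
    refine Submodule.linearMap_qext _ (LinearMap.ext (fun x => ?_))
    have hh : IsHom (qmul N.val p) (qmul N.val p) (ψ ∘ₗ φ) := fun x y => by
      rw [LinearMap.comp_apply, hφ, hψ]
      rfl
    have h5 := hom_eq_ev N.val p (qmul N.val p) (ψ ∘ₗ φ) hh x
    have h6 := hom_eq_ev N.val p (qmul N.val p)
      (LinearMap.id : (FA K p.1 ⧸ idl N.val p) →ₗ[K] (FA K p.1 ⧸ idl N.val p)) (fun x y => rfl) x
    show (ψ ∘ₗ φ) (Submodule.Quotient.mk x) =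
      (LinearMap.id : (FA K p.1 ⧸ idl N.val p) →ₗ[K] (FA K p.1 ⧸ idl N.val p))
        (Submodule.Quotient.mk x)
    rw [h5, h6]
    congr 2
    funext i
    rw [LinearMap.comp_apply, hφ', ev_gen, hψ', ev_qmul, ← sem_evR, LinearMap.id_apply,
      Submodule.Quotient.eq]
    have h7 := h3 i (List.mem_range.2 i.2)
    rw [sem_append, sem_gen, ← sub_eq_add_neg] at h7
    exact h7
  have hcomp' : φ ∘ₗ ψ = LinearMap.id := by
    refine Submodule.linearMap_qext _ (LinearMap.ext (fun x => ?_))
    have hh : IsHom (qmul N.val q) (qmul N.val q) (φ ∘ₗ ψ) := fun x y => by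
      rw [LinearMap.comp_apply, hψ, hφ]
      rfl
    have h5 := hom_eq_ev N.val q (qmul N.val q) (φ ∘ₗ ψ) hh x
    have h6 := hom_eq_ev N.val q (qmul N.val q)
      (LinearMap.id : (FA K q.1 ⧸ idl N.val q) →ₗ[K] (FA K q.1 ⧸ idl N.val q)) (fun x y => rfl) x
    show (φ ∘ₗ ψ) (Submodule.Quotient.mk x) =
      (LinearMap.id : (FA K q.1 ⧸ idl N.val q) →ₗ[K] (FA K q.1 ⧸ idl N.val q))
        (Submodule.Quotient.mk x)
    rw [h5, h6]
    congr 2
    funext i
    rw [LinearMap.comp_apply, hψ', ev_gen, hφ', ev_qmul, ← sem_evR, LinearMap.id_apply,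
      Submodule.Quotient.eq]
    have h7 := h4 i (List.mem_range.2 i.2)
    rw [sem_append, sem_gen, ← sub_eq_add_neg] at h7
    exact h7
  refine ⟨LinearEquiv.ofLinearMap φ ψ hcomp' hcomp, fun x y => ?_⟩
  exact hφ x y

theorem isoCert_complete (hs : Function.Surjective N.val) (p q : Pres C)
    (h : PresIso N.val p q) :
    ∃ ab : List (Rel C) × List (Rel C), IsoCert N p q ab.1 ab.2 := by
  rw [presIso_iff] at h
  obtain ⟨e, he⟩ := h
  have he' : IsHom (qmul N.val p) (qmul N.val q) e.toLinearMap := he
  have hes : IsHom (qmul N.val q) (qmul N.val p) e.symm.toLinearMap := fun x y => by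
    apply e.injective
    show e (e.symm _) = e (qmul N.val p (e.symm x) (e.symm y))
    rw [he, e.apply_symm_apply, e.apply_symm_apply, e.apply_symm_apply]
  have hrep : ∀ (q : Pres C) (y : FA K q.1 ⧸ idl N.val q), ∃ r : Rel C,
      (Submodule.Quotient.mk (sem N.val q.1 r) : FA K q.1 ⧸ idl N.val q) = y := by
    intro q y
    obtain ⟨x, rfl⟩ := Submodule.Quotient.mk_surjective _ y
    obtain ⟨r, rfl⟩ := exists_sem N hs q.1 x
    exact ⟨r, rfl⟩
  choose fa hfa using fun i : Fin p.1 => hrep q (e (Submodule.Quotient.mk (gen i)))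
  choose fb hfb using fun j : Fin q.1 => hrep p (e.symm (Submodule.Quotient.mk (gen j)))
  have hga : ∀ i : Fin p.1, (List.ofFn fa).getD i [] = fa i := by
    intro i
    rw [List.getD_eq_getElem _ _ (by simp)]
    simp
  have hgb : ∀ i : Fin q.1, (List.ofFn fb).getD i [] = fb i := by
    intro i
    rw [List.getD_eq_getElem _ _ (by simp)]
    simp
  have h1 : ∀ r : Rel C, (Submodule.Quotient.mk (sem N.val q.1 (evR N q.1 p.1 (List.ofFn fa) r)) :
      FA K q.1 ⧸ idl N.val q) = e (Submodule.Quotient.mk (sem N.val p.1 r)) := by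
    intro r
    rw [sem_evR, ← ev_qmul]
    have h2 := hom_eq_ev N.val p (qmul N.val q) e.toLinearMap he' (sem N.val p.1 r)
    refine Eq.trans ?_ h2.symm
    congr 2
    funext i
    rw [hga, hfa]
    rfl
  have h1' : ∀ r : Rel C, (Submodule.Quotient.mk (sem N.val p.1 (evR N p.1 q.1 (List.ofFn fb) r)) :
      FA K p.1 ⧸ idl N.val p) = e.symm (Submodule.Quotient.mk (sem N.val q.1 r)) := by
    intro r
    rw [sem_evR, ← ev_qmul]
    have h2 := hom_eq_ev N.val q (qmul N.val p) e.symm.toLinearMap hes (sem N.val q.1 r)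
    refine Eq.trans ?_ h2.symm
    congr 2
    funext i
    rw [hgb, hfb]
    rfl
  refine ⟨(List.ofFn fa, List.ofFn fb), ⟨fun r hr => ?_, fun r hr => ?_⟩, fun i hi => ?_,
    fun i hi => ?_⟩
  · rw [← Submodule.Quotient.mk_eq_zero, h1,
      (Submodule.Quotient.mk_eq_zero _).2 (rel_mem_idl N.val p hr), map_zero]
  · rw [← Submodule.Quotient.mk_eq_zero, h1',
      (Submodule.Quotient.mk_eq_zero _).2 (rel_mem_idl N.val q hr), map_zero]
  · have hi' := List.mem_range.1 hi
    have h3 := sem_gen N p.1 ⟨i, hi'⟩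
    dsimp only at h3
    rw [sem_append, h3, ← sub_eq_add_neg, ← Submodule.Quotient.eq, h1']
    have h4 := hga ⟨i, hi'⟩
    dsimp only at h4
    rw [h4, hfa, e.symm_apply_apply]
  · have hi' := List.mem_range.1 hi
    have h3 := sem_gen N q.1 ⟨i, hi'⟩
    dsimp only at h3
    rw [sem_append, h3, ← sub_eq_add_neg, ← Submodule.Quotient.eq, h1]
    have h4 := hgb ⟨i, hi'⟩
    dsimp only at h4
    rw [h4, hfb, e.apply_symm_apply]

/-- Isomorphism of presentations is semi-decidable. -/
theorem sig_presIso (hs : Function.Surjective N.val) :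
    PR.Sig (fun q : Pres C × Pres C => PresIso N.val q.1 q.2) := by
  refine (sig_isoCert N hs).ex.congr (fun q => ?_)
  constructor
  · rintro ⟨ab, h⟩
    exact isoCert_sound N q.1 q.2 ab.1 ab.2 h
  · intro h
    exact isoCert_complete N hs q.1 q.2 h

end cert

end Pool.Agent.Work.MP_9ac17e_al

end

section

/-!
# Base change of isomorphisms of presentations
-/

set_option autoImplicit false

namespace Pool.Agent.Work.MP_9ac17e_al

section coded

variable {K C : Type} [Field K] [Primcodable C] (N : NumF K C)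

/-- The numbering of the image of `K` in an extension field. -/
def NumF.base (L : Type) [Field L] [Algebra K L] : NumF L C where
  val := fun c => algebraMap K L (N.val c)
  zero := N.zero
  one := N.one
  add := N.add
  mul := N.mul
  neg := N.neg
  eqb := N.eqb
  padd := N.padd
  pmul := N.pmul
  pneg := N.pneg
  peqb := N.peqb
  val_zero := by rw [N.val_zero, map_zero]
  val_one := by rw [N.val_one, map_one]
  val_add := fun a b => by rw [N.val_add, map_add]
  val_mul := fun a b => by rw [N.val_mul, map_mul]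
  val_neg := fun a => by rw [N.val_neg, map_neg]
  val_eq := fun a b => by rw [N.val_eq, (algebraMap K L).injective.eq_iff]

theorem NumF.base_val (L : Type) [Field L] [Algebra K L] :
    (N.base L).val = fun c => algebraMap K L (N.val c) := rfl

theorem mem_idl_base (hs : Function.Surjective N.val) (L : Type) [Field L] [Algebra K L]
    (p : Pres C) (r : Rel C) (h : sem N.val p.1 r ∈ idl N.val p) :
    sem (N.base L).val p.1 r ∈ idl (N.base L).val p := by
  obtain ⟨l, hl⟩ := (mem_idl_iff_fsZero N hs p r).1 h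
  exact mem_idl_of_fsZero (N.base L) p r l hl

/-- Isomorphic presentations over `K` are isomorphic over `L`. -/
theorem presIso_base (hs : Function.Surjective N.val) (L : Type) [Field L] [Algebra K L]
    (p q : Pres C) (h : PresIso N.val p q) : PresIso (N.base L).val p q := by
  obtain ⟨⟨a, b⟩, ⟨h1, h2⟩, h3, h4⟩ := isoCert_complete N hs p q h
  exact isoCert_sound (N.base L) p q a b ⟨⟨fun r hr => mem_idl_base N hs L _ _ (h1 r hr),
    fun r hr => mem_idl_base N hs L _ _ (h2 r hr)⟩,
    fun i hi => mem_idl_base N hs L _ _ (h3 i hi),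
    fun i hi => mem_idl_base N hs L _ _ (h4 i hi)⟩

end coded

end Pool.Agent.Work.MP_9ac17e_al

end
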