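import Pool.Agent.Work.MP_9ac17e_al.Bd.B01

/-! Bundle of small proof modules (one section per former module). -/

section

/-!
# Systems of polynomial equations with coded coefficients: definitions
-/

set_option autoImplicit false

namespace Pool.Agent.Work.MP_9ac17e_al

/-- The variable number `t` (zero if there is no such variable). -/
noncomputable def cvar (K : Type) [Field K] (k t : ℕ) : MvPolynomial (Fin k) K :=
  if h : t < k then MvPolynomial.X ⟨t, h⟩ else 0

/-- The polynomial in `k` variables given by a formal sum: a word stands for the product of its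
letters. -/
noncomputable def csem {K C : Type} [Field K] (val : C → K) (k : ℕ) (r : Rel C) :
    MvPolynomial (Fin k) K :=
  (r.map (fun c => MvPolynomial.C (val c.1) * (c.2.map (cvar K k)).prod)).sum

/-- The ideal generated by a list of polynomials in `k` variables. -/
noncomputable def cidl {K C : Type} [Field K] (val : C → K) (q : ℕ × List (Rel C)) :
    Ideal (MvPolynomial (Fin q.1) K) :=
  Ideal.span {f | ∃ r ∈ q.2, csem val q.1 r = f}

/-- The system of polynomial equations has a solution in `L`. -/
def Solv {K C : Type} [Field K] (val : C → K) (L : Type) [Field L] [Algebra K L]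
    (q : ℕ × List (Rel C)) : Prop :=
  ∃ x : Fin q.1 → L, ∀ r ∈ q.2, MvPolynomial.aeval x (csem val q.1 r) = 0

/-- The matrix with a given code. -/
def matOf {K C : Type} [Field K] (val : C → K) (d : ℕ) (l : List C) : Matrix (Fin d) (Fin d) K :=
  fun i j => entry val l (i * d + j)

section coded

variable {K C : Type} [Field K] [Primcodable C] (N : NumF K C)

/-- The system of polynomial equations which says that the matrix with the entries
`x_(ij) = X_(i n + j)` is invertible with inverse `y_(ij) = X_(n² + i n + j)`, and that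
`e_i ↦ ∑_a x_(ai) f_a` is a homomorphism from the algebra `c` to the algebra `d` (for `c.1 = d.1 = n`). -/
def csys (q : FD C × FD C) : ℕ × List (Rel C) :=
  (2 * (q.1.1 * q.1.1),
    ((List.range q.1.1).flatMap (fun i => (List.range q.1.1).map (fun k =>
      (N.neg (if i = k then N.one else N.zero), []) ::
        (List.range q.1.1).map (fun j =>
          (N.one, [i * q.1.1 + j, q.1.1 * q.1.1 + (j * q.1.1 + k)]))))) ++
    (((List.range q.1.1).flatMap (fun i => (List.range q.1.1).map (fun k =>
      (N.neg (if i = k then N.one else N.zero), []) ::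
        (List.range q.1.1).map (fun j =>
          (N.one, [q.1.1 * q.1.1 + (i * q.1.1 + j), j * q.1.1 + k]))))) ++
    ((List.range q.1.1).flatMap (fun i => (List.range q.1.1).flatMap (fun j =>
      (List.range q.1.1).map (fun k =>
        ((List.range q.1.1).map (fun l =>
          (N.ent q.1.2 ((i * q.1.1 + j) * q.1.1 + l), [k * q.1.1 + l])) ++
        (List.range q.1.1).flatMap (fun a => (List.range q.1.1).map (fun b =>
          (N.neg (N.ent q.2.2 ((a * q.1.1 + b) * q.1.1 + k)),
            [a * q.1.1 + i, b * q.1.1 + j])))) : ℕ → Rel C))))))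

end coded

end Pool.Agent.Work.MP_9ac17e_al

end

section

/-!
# Coded matrices

Existence of commuting matrices satisfying coded equations is a `Σ₁` property.
-/

set_option autoImplicit false

namespace Pool.Agent.Work.MP_9ac17e_al

section coded

variable {K C : Type} [Field K] [Primcodable C] (N : NumF K C)

/-- The code of the matrix with the entries `f i j`. -/
def mtab {C : Type} (n : ℕ) (f : ℕ → ℕ → C) : List C :=
  (List.range (n * n)).map (fun t => f (t / n) (t % n))

omit [Primcodable C] in
theorem matOf_mtab (val : C → K) (n : ℕ) (f : ℕ → ℕ → C) :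
    matOf val n (mtab n f) = fun (i j : Fin n) => val (f i j) := by
  funext i j
  unfold matOf entry mtab
  have hn : 0 < n := Nat.pos_of_ne_zero (fun h => by subst h; exact i.elim0)
  have h1 : (i : ℕ) * n + j < n * n := by
    calc (i : ℕ) * n + j < i * n + n := Nat.add_lt_add_left j.2 _
      _ = (i + 1) * n := by ring
      _ ≤ n * n := Nat.mul_le_mul_right n i.2
  have h2 : ((i : ℕ) * n + j) / n = i := by
    rw [Nat.mul_comm, Nat.mul_add_div hn, Nat.div_eq_of_lt j.2, Nat.add_zero]
  have h3 : ((i : ℕ) * n + j) % n = j := by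
    rw [Nat.mul_comm, Nat.mul_add_mod, Nat.mod_eq_of_lt j.2]
  rw [List.getElem?_map, List.getElem?_range h1, Option.map_some, Option.map_some,
    Option.getD_some, h2, h3]

/-- Product of coded matrices. -/
def mmulc (n : ℕ) (a b : List C) : List C :=
  (List.range (n * n)).map (fun t => N.sumc ((List.range n).map (fun l =>
    N.mul (N.ent a (t / n * n + l)) (N.ent b (l * n + t % n)))))

/-- The code of the identity matrix. -/
def monec (n : ℕ) : List C :=
  (List.range (n * n)).map (fun t => if t / n = t % n then N.one else N.zero)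

/-- `x a + b`. -/
def maddc (n : ℕ) (x : C) (a b : List C) : List C :=
  (List.range (n * n)).map (fun t =>
    N.add (N.mul x (N.ent a (t / n * n + t % n))) (N.ent b (t / n * n + t % n)))

/-- The code of the matrix number `t`. -/
def mgetc {C : Type} (k : ℕ) (ms : List (List C)) (t : ℕ) : List C :=
  if t < k then ms.getD t [] else []

/-- The value of a word. -/
def mwordc (n k : ℕ) (ms : List (List C)) (w : List ℕ) : List C :=
  w.foldr (fun t acc => mmulc N n (mgetc k ms t) acc) (monec N n)

/-- The value of a formal sum. -/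
def mrelc (n k : ℕ) (ms : List (List C)) (r : Rel C) : List C :=
  r.foldr (fun c acc => maddc N n c.1 (mwordc N n k ms c.2) acc) []

/-- Equality of coded matrices. -/
def meqc (n : ℕ) (a b : List C) : Bool :=
  (List.range n).all (fun i => (List.range n).all (fun j =>
    N.eqb (N.ent a (i * n + j)) (N.ent b (i * n + j))))

/-- The test of a certificate. -/
def mtest (p : ((ℕ × List (Rel C)) × ℕ) × List (List C)) : Bool :=
  ((List.range p.1.1.1).all (fun i => (List.range p.1.1.1).all (fun j =>
    meqc N (p.1.2 + 1)
      (mmulc N (p.1.2 + 1) (mgetc p.1.1.1 p.2 i) (mgetc p.1.1.1 p.2 j))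
      (mmulc N (p.1.2 + 1) (mgetc p.1.1.1 p.2 j) (mgetc p.1.1.1 p.2 i))))) &&
  p.1.1.2.all (fun r => meqc N (p.1.2 + 1) (mrelc N (p.1.2 + 1) p.1.1.1 p.2 r) [])

/-! ### Semantics -/

theorem matOf_mmulc (n : ℕ) (a b : List C) :
    matOf N.val n (mmulc N n a b) = matOf N.val n a * matOf N.val n b := by
  have h : mmulc N n a b = mtab n (fun i j => N.sumc ((List.range n).map (fun l =>
    N.mul (N.ent a (i * n + l)) (N.ent b (l * n + j))))) := rfl
  rw [h, matOf_mtab]
  funext i j
  rw [Matrix.mul_apply]
  show N.val (N.sumc ((List.range n).map (fun l =>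
    N.mul (N.ent a (i * n + l)) (N.ent b (l * n + j))))) = _
  rw [N.val_sum_range (fun l => N.mul (N.ent a (i * n + l)) (N.ent b (l * n + j)))]
  refine Finset.sum_congr rfl (fun l _ => ?_)
  rw [N.val_mul]
  unfold matOf
  rw [entry_eq, entry_eq]

theorem matOf_monec (n : ℕ) : matOf N.val n (monec N n) = 1 := by
  have h : monec N n = mtab n (fun i j => if i = j then N.one else N.zero) := rfl
  rw [h, matOf_mtab]
  funext i j
  rw [Matrix.one_apply]
  by_cases hij : i = j
  · subst hij
    simp [N.val_one]
  · have h2 : (i : ℕ) ≠ j := fun h => hij (Fin.ext h)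
    rw [if_neg hij]
    show N.val (if (i : ℕ) = j then N.one else N.zero) = 0
    rw [if_neg h2, N.val_zero]

theorem matOf_maddc (n : ℕ) (x : C) (a b : List C) :
    matOf N.val n (maddc N n x a b) = N.val x • matOf N.val n a + matOf N.val n b := by
  have h : maddc N n x a b = mtab n (fun i j =>
    N.add (N.mul x (N.ent a (i * n + j))) (N.ent b (i * n + j))) := rfl
  rw [h, matOf_mtab]
  funext i j
  show N.val (N.add (N.mul x (N.ent a (i * n + j))) (N.ent b (i * n + j))) = _
  rw [N.val_add, N.val_mul, Matrix.add_apply, Matrix.smul_apply, smul_eq_mul]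
  unfold matOf
  rw [entry_eq, entry_eq]

omit [Primcodable C] in
theorem matOf_nil (val : C → K) (n : ℕ) : matOf val n [] = 0 := by
  funext i j
  unfold matOf entry
  simp

theorem matOf_mwordc (n k : ℕ) (ms : List (List C)) (w : List ℕ) :
    matOf N.val n (mwordc N n k ms w) =
      (w.map (fun t => matOf N.val n (mgetc k ms t))).prod := by
  induction w with
  | nil => exact matOf_monec N n
  | cons t w ih =>
    have h : mwordc N n k ms (t :: w) = mmulc N n (mgetc k ms t) (mwordc N n k ms w) := rfl
    rw [h, matOf_mmulc, ih, List.map_cons, List.prod_cons]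

theorem matOf_mrelc (n k : ℕ) (ms : List (List C)) (r : Rel C) :
    matOf N.val n (mrelc N n k ms r) =
      (r.map (fun c => N.val c.1 • (c.2.map (fun t => matOf N.val n (mgetc k ms t))).prod)).sum := by
  induction r with
  | nil => exact matOf_nil N.val n
  | cons c r ih =>
    have h : mrelc N n k ms (c :: r) =
      maddc N n c.1 (mwordc N n k ms c.2) (mrelc N n k ms r) := rfl
    rw [h, matOf_maddc, ih, matOf_mwordc, List.map_cons, List.sum_cons]

theorem meqc_iff (n : ℕ) (a b : List C) :
    meqc N n a b = true ↔ matOf N.val n a = matOf N.val n b := by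
  unfold meqc
  simp only [List.all_eq_true, List.mem_range, N.val_eq]
  constructor
  · intro h
    funext i j
    unfold matOf
    rw [entry_eq, entry_eq]
    exact h i i.2 j j.2
  · intro h i hi j hj
    have h1 := congrFun (congrFun h ⟨i, hi⟩) ⟨j, hj⟩
    unfold matOf at h1
    rw [entry_eq, entry_eq] at h1
    exact h1

theorem mtest_iff (q : ℕ × List (Rel C)) (d : ℕ) (ms : List (List C)) :
    mtest N ((q, d), ms) = true ↔
      (∀ i < q.1, ∀ j < q.1,
        matOf N.val (d + 1) (mgetc q.1 ms i) * matOf N.val (d + 1) (mgetc q.1 ms j) =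
        matOf N.val (d + 1) (mgetc q.1 ms j) * matOf N.val (d + 1) (mgetc q.1 ms i)) ∧
      ∀ r ∈ q.2, (r.map (fun c => N.val c.1 •
        (c.2.map (fun t => matOf N.val (d + 1) (mgetc q.1 ms t))).prod)).sum = 0 := by
  unfold mtest
  simp only [Bool.and_eq_true, List.all_eq_true, List.mem_range, meqc_iff, matOf_mmulc,
    matOf_mrelc, matOf_nil]

/-- Every matrix has a code. -/
theorem exists_code (hs : Function.Surjective N.val) (d : ℕ)
    (M : Matrix (Fin (d + 1)) (Fin (d + 1)) K) : ∃ a : List C, matOf N.val (d + 1) a = M := by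
  choose c hc using hs
  refine ⟨mtab (d + 1) (fun i j => c (M (Fin.ofNat (d + 1) i) (Fin.ofNat (d + 1) j))), ?_⟩
  rw [matOf_mtab]
  funext i j
  rw [hc]
  congr 1 <;> exact Fin.ext (Nat.mod_eq_of_lt (Fin.isLt _))

/-! ### Primitive recursion -/

@[fun_prop]
theorem primrec_mgetc {α : Type} [Primcodable α] {k : α → ℕ} {ms : α → List (List C)}
    {t : α → ℕ} (hk : Primrec k) (hms : Primrec ms) (ht : Primrec t) :
    Primrec (fun a => mgetc (k a) (ms a) (t a)) := by
  unfold mgetc
  fun_prop

@[fun_prop]
theorem primrec_mmulc {α : Type} [Primcodable α] {n : α → ℕ} {f g : α → List C}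
    (hn : Primrec n) (hf : Primrec f) (hg : Primrec g) :
    Primrec (fun a => mmulc N (n a) (f a) (g a)) := by
  unfold mmulc
  fun_prop

@[fun_prop]
theorem primrec_monec {α : Type} [Primcodable α] {n : α → ℕ}
    (hn : Primrec n) : Primrec (fun a => monec N (n a)) := by
  unfold monec
  fun_prop

@[fun_prop]
theorem primrec_maddc {α : Type} [Primcodable α] {n : α → ℕ} {x : α → C} {f g : α → List C}
    (hn : Primrec n) (hx : Primrec x) (hf : Primrec f) (hg : Primrec g) :
    Primrec (fun a => maddc N (n a) (x a) (f a) (g a)) := by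
  unfold maddc
  fun_prop

@[fun_prop]
theorem primrec_mwordc {α : Type} [Primcodable α] {n k : α → ℕ} {ms : α → List (List C)}
    {w : α → List ℕ} (hn : Primrec n) (hk : Primrec k) (hms : Primrec ms) (hw : Primrec w) :
    Primrec (fun a => mwordc N (n a) (k a) (ms a) (w a)) := by
  unfold mwordc
  fun_prop

@[fun_prop]
theorem primrec_mrelc {α : Type} [Primcodable α] {n k : α → ℕ} {ms : α → List (List C)}
    {r : α → Rel C} (hn : Primrec n) (hk : Primrec k) (hms : Primrec ms) (hr : Primrec r) :
    Primrec (fun a => mrelc N (n a) (k a) (ms a) (r a)) := by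
  unfold mrelc
  fun_prop

@[fun_prop]
theorem primrec_meqc {α : Type} [Primcodable α] {n : α → ℕ} {f g : α → List C}
    (hn : Primrec n) (hf : Primrec f) (hg : Primrec g) :
    Primrec (fun a => meqc N (n a) (f a) (g a)) := by
  unfold meqc
  fun_prop

theorem primrec_mtest : Primrec (mtest N) := by
  unfold mtest
  fun_prop

/-! ### The theorem -/

/-- The certificates of the preceding theorem can be checked by a primitive recursive test. -/
theorem sig_mat (hs : Function.Surjective N.val) : PR.Sig (fun q : ℕ × List (Rel C) =>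
      ∃ (d : ℕ) (M : ℕ → Matrix (Fin (d + 1)) (Fin (d + 1)) K),
        (∀ i j, M i * M j = M j * M i) ∧ (∀ i, q.1 ≤ i → M i = 0) ∧
        ∀ r ∈ q.2, (r.map (fun c => N.val c.1 • (c.2.map M).prod)).sum = 0) := by
  refine (PR.Sig.of_bool (primrec_mtest N)).ex.ex.congr (fun q => ?_)
  constructor
  · rintro ⟨d, ms, h⟩
    obtain ⟨h1, h2⟩ := (mtest_iff N q d ms).1 h
    have h0 : ∀ i, q.1 ≤ i → matOf N.val (d + 1) (mgetc q.1 ms i) = 0 := by
      intro i hi
      unfold mgetc
      rw [if_neg (not_lt.2 hi), matOf_nil]
    refine ⟨d, fun t => matOf N.val (d + 1) (mgetc q.1 ms t), fun i j => ?_, h0, h2⟩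
    by_cases hi : i < q.1
    · by_cases hj : j < q.1
      · exact h1 i hi j hj
      · show matOf N.val (d + 1) (mgetc q.1 ms i) * matOf N.val (d + 1) (mgetc q.1 ms j) =
          matOf N.val (d + 1) (mgetc q.1 ms j) * matOf N.val (d + 1) (mgetc q.1 ms i)
        rw [h0 j (not_lt.1 hj), mul_zero, zero_mul]
    · show matOf N.val (d + 1) (mgetc q.1 ms i) * matOf N.val (d + 1) (mgetc q.1 ms j) =
          matOf N.val (d + 1) (mgetc q.1 ms j) * matOf N.val (d + 1) (mgetc q.1 ms i)
      rw [h0 i (not_lt.1 hi), mul_zero, zero_mul]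
  · rintro ⟨d, M, h1, h2, h3⟩
    have hc : ∀ t, ∃ a : List C, matOf N.val (d + 1) a = M t := fun t =>
      exists_code N hs d (M t)
    choose c hc using hc
    have h4 : ∀ t, matOf N.val (d + 1) (mgetc q.1 ((List.range q.1).map c) t) = M t := by
      intro t
      unfold mgetc
      by_cases ht : t < q.1
      · rw [if_pos ht, List.getD_eq_getElem _ _ (by simpa using ht), List.getElem_map,
          List.getElem_range, hc]
      · rw [if_neg ht, matOf_nil, h2 t (not_lt.1 ht)]
    refine ⟨d, (List.range q.1).map c, (mtest_iff N q d _).2 ⟨fun i _ j _ => ?_, fun r hr => ?_⟩⟩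
    · rw [h4, h4]
      exact h1 i j
    · simp only [h4]
      exact h3 r hr

end coded

end Pool.Agent.Work.MP_9ac17e_al

end

section

/-!
# P3a: `1` is not in an ideal iff commuting matrices satisfy the equations
-/

set_option autoImplicit false

namespace Pool.Agent.Work.MP_9ac17e_al

open MvPolynomial

theorem one_not_mem_iff {K C : Type} [Field K] (val : C → K) (q : ℕ × List (Rel C)) :
    (1 : MvPolynomial (Fin q.1) K) ∉ cidl val q ↔
      ∃ (d : ℕ) (M : ℕ → Matrix (Fin (d + 1)) (Fin (d + 1)) K),
        (∀ i j, M i * M j = M j * M i) ∧ (∀ i, q.1 ≤ i → M i = 0) ∧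
        ∀ r ∈ q.2, (r.map (fun c => val c.1 • (c.2.map M).prod)).sum = 0 := by
  classical
  constructor
  · intro h
    have hne : cidl val q ≠ ⊤ := fun h' => h (h' ▸ Submodule.mem_top)
    obtain ⟨m, hm, hle⟩ := Ideal.exists_le_maximal _ hne
    have := hm
    let _ : Field (MvPolynomial (Fin q.1) K ⧸ m) := Ideal.Quotient.field m
    have : Module.Finite K (MvPolynomial (Fin q.1) K ⧸ m) :=
      finite_of_finite_type_of_isJacobsonRing K (MvPolynomial (Fin q.1) K ⧸ m)
    have hpos : 0 < Module.finrank K (MvPolynomial (Fin q.1) K ⧸ m) := Module.finrank_pos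
    obtain ⟨d, hd⟩ : ∃ d, Module.finrank K (MvPolynomial (Fin q.1) K ⧸ m) = d + 1 :=
      ⟨_, (Nat.succ_pred_eq_of_pos hpos).symm⟩
    let b := Module.finBasisOfFinrankEq K (MvPolynomial (Fin q.1) K ⧸ m) hd
    let φ : MvPolynomial (Fin q.1) K →ₐ[K] Matrix (Fin (d + 1)) (Fin (d + 1)) K :=
      (Algebra.leftMulMatrix b).comp (Ideal.Quotient.mkₐ K m)
    refine ⟨d, fun i => φ (cvar K q.1 i), fun i j => ?_, fun i hi => ?_, fun r hr => ?_⟩
    · rw [← map_mul, ← map_mul, mul_comm]
    · have : cvar K q.1 i = 0 := by
        unfold cvar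
        rw [dif_neg (by omega)]
      simp only [this, map_zero]
    · have h1 : φ (csem val q.1 r) = 0 := by
        have h2 : csem val q.1 r ∈ m := hle (Ideal.subset_span ⟨r, hr, rfl⟩)
        change Algebra.leftMulMatrix b (Ideal.Quotient.mkₐ K m (csem val q.1 r)) = 0
        have h3 : Ideal.Quotient.mkₐ K m (csem val q.1 r) = 0 := by
          rw [Ideal.Quotient.mkₐ_eq_mk]
          exact Ideal.Quotient.eq_zero_iff_mem.mpr h2
        rw [h3, map_zero]
      rw [← h1]
      unfold csem
      rw [map_list_sum, List.map_map]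
      congr 1
      refine List.map_congr_left fun c _ => ?_
      simp only [Function.comp_apply, map_mul]
      rw [map_list_prod, List.map_map]
      have h4 : φ (MvPolynomial.C (val c.1)) = algebraMap K _ (val c.1) := by
        rw [← MvPolynomial.algebraMap_eq]
        exact φ.commutes _
      rw [h4, Algebra.smul_def]
      rfl
  · rintro ⟨d, M, hc, hz, hr⟩ h1
    have hcomm : ∀ a ∈ Set.range M, ∀ b ∈ Set.range M, a * b = b * a := by
      rintro _ ⟨i, rfl⟩ _ ⟨j, rfl⟩
      exact hc i j
    have hmul := Algebra.isMulCommutative_adjoin K hcomm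
    let _ : CommRing (Algebra.adjoin K (Set.range M)) := by
      open scoped IsMulCommutative in exact inferInstance
    let ψ : MvPolynomial (Fin q.1) K →ₐ[K] Algebra.adjoin K (Set.range M) :=
      MvPolynomial.aeval (fun i : Fin q.1 =>
        (⟨M i, Algebra.subset_adjoin ⟨i, rfl⟩⟩ : Algebra.adjoin K (Set.range M)))
    let φ : MvPolynomial (Fin q.1) K →ₐ[K] Matrix (Fin (d + 1)) (Fin (d + 1)) K :=
      (Algebra.adjoin K (Set.range M)).val.comp ψ
    have hM : ∀ i, φ (cvar K q.1 i) = M i := by
      intro i
      unfold cvar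
      split_ifs with hi
      · change (Algebra.adjoin K (Set.range M)).val (ψ (X ⟨i, hi⟩)) = M i
        rw [MvPolynomial.aeval_X]
        rfl
      · rw [map_zero, hz i (by omega)]
    have hle : cidl val q ≤ RingHom.ker φ.toRingHom := by
      unfold cidl
      rw [Ideal.span_le]
      rintro f ⟨r, hr', rfl⟩
      change φ (csem val q.1 r) = 0
      rw [← hr r hr']
      unfold csem
      rw [map_list_sum, List.map_map]
      congr 1
      refine List.map_congr_left fun c _ => ?_
      simp only [Function.comp_apply, map_mul]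
      rw [map_list_prod, List.map_map]
      have h4 : φ (MvPolynomial.C (val c.1)) = algebraMap K _ (val c.1) := by
        rw [← MvPolynomial.algebraMap_eq]
        exact φ.commutes _
      rw [h4, Algebra.smul_def]
      congr 2
      refine List.map_congr_left fun i _ => ?_
      exact hM i
    have h2 : φ 1 = 0 := hle h1
    rw [map_one] at h2
    exact one_ne_zero h2

end Pool.Agent.Work.MP_9ac17e_al

end

section

/-!
# Hilbert's Nullstellensatz for coded systems of polynomial equations
-/

set_option autoImplicit false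

namespace Pool.Agent.Work.MP_9ac17e_al

/-- Hilbert's Nullstellensatz (`MvPolynomial.vanishingIdeal_zeroLocus_eq_radical`). -/
theorem solv_iff {K C : Type} [Field K] (val : C → K) (L : Type) [Field L] [Algebra K L]
    [IsAlgClosed L] (q : ℕ × List (Rel C)) :
    Solv val L q ↔ (1 : MvPolynomial (Fin q.1) K) ∉ cidl val q := by
  have hz : Solv val L q ↔ (MvPolynomial.zeroLocus L (cidl val q)).Nonempty := by
    unfold Solv cidl
    rw [MvPolynomial.zeroLocus_span]
    constructor
    · rintro ⟨x, hx⟩
      refine ⟨x, ?_⟩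
      rintro _ ⟨r, hr, rfl⟩
      exact hx r hr
    · rintro ⟨x, hx⟩
      exact ⟨x, fun r hr => hx _ ⟨r, hr, rfl⟩⟩
  rw [hz]
  constructor
  · rintro ⟨x, hx⟩ h1
    have := hx 1 h1
    rw [map_one] at this
    exact one_ne_zero this
  · intro h1
    by_contra hne
    rw [Set.not_nonempty_iff_eq_empty] at hne
    apply h1
    have h2 : MvPolynomial.vanishingIdeal K (MvPolynomial.zeroLocus L (cidl val q)) =
        (cidl val q).radical := MvPolynomial.vanishingIdeal_zeroLocus_eq_radical _
    rw [hne, MvPolynomial.vanishingIdeal_empty] at h2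
    have h3 : cidl val q = ⊤ := Ideal.radical_eq_top.1 h2.symm
    rw [h3]
    exact Submodule.mem_top

end Pool.Agent.Work.MP_9ac17e_al

end

section

/-!
# Commutative polynomials as formal sums: multiplication by a term and a test for zero
-/

set_option autoImplicit false

namespace Pool.Agent.Work.MP_9ac17e_al

section coded

variable {K C : Type} [Field K] [Primcodable C] (N : NumF K C)

omit [Primcodable C] in
theorem csem_nil {K C : Type} [Field K] (val : C → K) (k : ℕ) : csem val k [] = 0 := rfl

omit [Primcodable C] in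
theorem csem_cons {K C : Type} [Field K] (val : C → K) (k : ℕ) (c : C × List ℕ) (r : Rel C) :
    csem val k (c :: r) =
      MvPolynomial.C (val c.1) * (c.2.map (cvar K k)).prod + csem val k r := by
  unfold csem
  rw [List.map_cons, List.sum_cons]

omit [Primcodable C] in
theorem csem_append {K C : Type} [Field K] (val : C → K) (k : ℕ) (r s : Rel C) :
    csem val k (r ++ s) = csem val k r + csem val k s := by
  unfold csem
  rw [List.map_append, List.sum_append]

/-- Multiplication of a formal sum by a term. -/
def ctmul (c : C × List ℕ) (r : Rel C) : Rel C := r.map (fun t => (N.mul c.1 t.1, c.2 ++ t.2))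

theorem csem_ctmul (k : ℕ) (c : C × List ℕ) (r : Rel C) : csem N.val k (ctmul N c r) =
    MvPolynomial.C (N.val c.1) * (c.2.map (cvar K k)).prod * csem N.val k r := by
  unfold ctmul
  induction r with
  | nil => rw [List.map_nil, csem_nil, mul_zero]
  | cons t r ih =>
    rw [List.map_cons, csem_cons, csem_cons, ih, N.val_mul, List.map_append, List.prod_append,
      MvPolynomial.C_mul]
    ring

@[fun_prop]
theorem primrec_ctmul {α : Type} [Primcodable α] {c : α → C × List ℕ} {r : α → Rel C}
    (hc : Primrec c) (hr : Primrec r) : Primrec (fun a => ctmul N (c a) (r a)) := by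
  unfold ctmul
  fun_prop

/-! ### Words as monomials -/

/-- The number of occurrences of a letter. -/
def cnt (w : List ℕ) (t : ℕ) : ℕ := (w.filter (fun x => decide (x = t))).length

/-- The list of the exponents of a word; `none` if there is a letter `≥ k` (the word stands for
zero). -/
def cmono (k : ℕ) (w : List ℕ) : Option (List ℕ) :=
  if w.all (fun t => decide (t < k)) = true then some ((List.range k).map (cnt w)) else none

/-- The list of the exponents of a monomial. -/
def vlist {k : ℕ} (m : Fin k →₀ ℕ) : List ℕ :=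
  (List.range k).map (fun t => if h : t < k then m ⟨t, h⟩ else 0)

/-- The exponent vector of a word. -/
noncomputable def expo (k : ℕ) (w : List ℕ) : Fin k →₀ ℕ :=
  Finsupp.equivFunOnFinite.symm (fun i => cnt w i)

theorem expo_apply (k : ℕ) (w : List ℕ) (i : Fin k) : expo k w i = cnt w i := rfl

theorem cnt_nil (t : ℕ) : cnt [] t = 0 := rfl

theorem cnt_cons (a : ℕ) (w : List ℕ) (t : ℕ) : cnt (a :: w) t = (if a = t then 1 else 0) + cnt w t := by
  unfold cnt
  rw [List.filter_cons]
  by_cases h : a = t
  · rw [if_pos (by simpa using h), if_pos h, List.length_cons, add_comm]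
  · rw [if_neg (by simpa using h), if_neg h, zero_add]

theorem expo_nil (k : ℕ) : expo k [] = 0 := by
  ext i
  rw [expo_apply, cnt_nil]
  rfl

theorem expo_cons (k a : ℕ) (h : a < k) (w : List ℕ) :
    expo k (a :: w) = Finsupp.single ⟨a, h⟩ 1 + expo k w := by
  ext i
  rw [expo_apply, cnt_cons, Finsupp.add_apply, expo_apply, Finsupp.single_apply]
  congr 1
  refine if_congr ?_ rfl rfl
  rw [Fin.ext_iff]

theorem vlist_expo (k : ℕ) (w : List ℕ) : vlist (expo k w) = (List.range k).map (cnt w) := by
  unfold vlist
  refine List.map_congr_left (fun t ht => ?_)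
  rw [List.mem_range] at ht
  rw [dif_pos ht, expo_apply]

theorem vlist_injective (k : ℕ) : Function.Injective (vlist (k := k)) := by
  intro m m' h
  ext i
  unfold vlist at h
  rw [List.map_inj_left] at h
  have h1 := h i (List.mem_range.2 i.2)
  rw [dif_pos i.2, dif_pos i.2] at h1
  exact h1

theorem all_lt_iff (k : ℕ) (w : List ℕ) :
    w.all (fun t => decide (t < k)) = true ↔ ∀ t ∈ w, t < k := by
  rw [List.all_eq_true]
  simp only [decide_eq_true_eq]

theorem cmono_of_lt {k : ℕ} {w : List ℕ} (h : ∀ t ∈ w, t < k) :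
    cmono k w = some (vlist (expo k w)) := by
  unfold cmono
  rw [if_pos ((all_lt_iff k w).2 h), vlist_expo]

theorem cmono_of_not_lt {k : ℕ} {w : List ℕ} (h : ¬ ∀ t ∈ w, t < k) : cmono k w = none := by
  unfold cmono
  rw [if_neg (fun h1 => h ((all_lt_iff k w).1 h1))]

theorem cvar_prod_of_lt (K : Type) [Field K] {k : ℕ} {w : List ℕ} (h : ∀ t ∈ w, t < k) :
    (w.map (cvar K k)).prod = MvPolynomial.monomial (expo k w) 1 := by
  induction w with
  | nil =>
    rw [List.map_nil, List.prod_nil, expo_nil]
    rfl
  | cons a w ih =>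
    have ha : a < k := h a List.mem_cons_self
    rw [List.map_cons, List.prod_cons, ih (fun t ht => h t (List.mem_cons_of_mem _ ht)),
      expo_cons k a ha]
    unfold cvar
    rw [dif_pos ha, MvPolynomial.X, MvPolynomial.monomial_mul, one_mul]

theorem cvar_prod_of_not_lt (K : Type) [Field K] {k : ℕ} {w : List ℕ} (h : ¬ ∀ t ∈ w, t < k) :
    (w.map (cvar K k)).prod = 0 := by
  push Not at h
  obtain ⟨t, ht, hk⟩ := h
  refine List.prod_eq_zero ?_
  rw [List.mem_map]
  refine ⟨t, ht, ?_⟩
  unfold cvar
  rw [dif_neg (not_lt.2 hk)]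

/-- The coefficients of the polynomial given by a formal sum. -/
theorem coeff_csem {K C : Type} [Field K] (val : C → K) (k : ℕ) (r : Rel C) (m : Fin k →₀ ℕ) :
    MvPolynomial.coeff m (csem val k r) =
      ((r.filter (fun c => decide (cmono k c.2 = some (vlist m)))).map (fun c => val c.1)).sum := by
  induction r with
  | nil => rw [csem_nil, MvPolynomial.coeff_zero]; rfl
  | cons c r ih =>
    rw [csem_cons, MvPolynomial.coeff_add, ih, List.filter_cons, MvPolynomial.coeff_C_mul]
    by_cases hc : ∀ t ∈ c.2, t < k
    · rw [cvar_prod_of_lt K hc, cmono_of_lt hc, MvPolynomial.coeff_monomial]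
      by_cases h : expo k c.2 = m
      · rw [if_pos h, if_pos (by rw [h]; simp), List.map_cons, List.sum_cons, mul_one]
      · rw [if_neg h, if_neg, mul_zero, zero_add]
        rw [decide_eq_true_eq, Option.some.injEq]
        exact fun h1 => h (vlist_injective k h1)
    · rw [cvar_prod_of_not_lt K hc, cmono_of_not_lt hc, if_neg (by simp), MvPolynomial.coeff_zero,
        mul_zero, zero_add]

/-- Test whether a polynomial is zero. -/
def czero (k : ℕ) (r : Rel C) : Bool :=
  r.all (fun c => (!(cmono k c.2).isSome) || N.eqb (N.sumc ((r.filter (fun c' =>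
    decide (cmono k c'.2 = cmono k c.2))).map (fun c' => c'.1))) N.zero)

theorem czero_iff (k : ℕ) (r : Rel C) : czero N k r = true ↔ csem N.val k r = 0 := by
  have hmap : ∀ l : Rel C, N.val (N.sumc (l.map (fun c' => c'.1))) =
      (l.map (fun c => N.val c.1)).sum := by
    intro l
    rw [N.val_sumc, List.map_map]
    rfl
  constructor
  · intro h
    ext m
    rw [coeff_csem, MvPolynomial.coeff_zero]
    by_cases hx : ∃ c ∈ r, cmono k c.2 = some (vlist m)
    · obtain ⟨c, hc, hcx⟩ := hx
      unfold czero at h
      rw [List.all_eq_true] at h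
      have h1 := h c hc
      rw [hcx] at h1
      simp only [Option.isSome_some, Bool.not_true, Bool.false_or] at h1
      rw [N.val_eq, hmap, N.val_zero] at h1
      exact h1
    · have h1 : r.filter (fun c => decide (cmono k c.2 = some (vlist m))) = [] := by
        rw [List.filter_eq_nil_iff]
        intro c hc hcx
        exact hx ⟨c, hc, by simpa using hcx⟩
      rw [h1]
      rfl
  · intro h
    unfold czero
    rw [List.all_eq_true]
    intro c _
    by_cases hc : ∀ t ∈ c.2, t < k
    · rw [cmono_of_lt hc]
      simp only [Option.isSome_some, Bool.not_true, Bool.false_or]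
      rw [N.val_eq, hmap, N.val_zero, ← coeff_csem, h, MvPolynomial.coeff_zero]
    · rw [cmono_of_not_lt hc]
      rfl

@[fun_prop] theorem primrec_cnt {α : Type} [Primcodable α] {w : α → List ℕ} {t : α → ℕ}
    (hw : Primrec w) (ht : Primrec t) : Primrec (fun a => cnt (w a) (t a)) := by
  unfold cnt
  fun_prop

@[fun_prop] theorem primrec_cmono {α : Type} [Primcodable α] {k : α → ℕ} {w : α → List ℕ}
    (hk : Primrec k) (hw : Primrec w) : Primrec (fun a => cmono (k a) (w a)) := by
  have h : Primrec (fun a => if (w a).all (fun t => decide (t < k a)) = true then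
      some ((List.range (k a)).map (fun t => cnt (w a) t)) else none) := by
    fun_prop
  exact h

@[fun_prop] theorem primrec_czero {α : Type} [Primcodable α] {k : α → ℕ} {r : α → Rel C}
    (hk : Primrec k) (hr : Primrec r) : Primrec (fun a => czero N (k a) (r a)) := by
  unfold czero
  fun_prop

/-- There is a primitive recursive test whether a polynomial is zero. -/
theorem exists_czero : ∃ z : ℕ × Rel C → Bool, Primrec z ∧
    ∀ k r, z (k, r) = true ↔ csem N.val k r = 0 :=
  ⟨fun q => czero N q.1 q.2, by fun_prop, fun k r => czero_iff N k r⟩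

end coded

end Pool.Agent.Work.MP_9ac17e_al

end

section

/-!
# Isomorphism of finite-dimensional algebras as a system of polynomial equations
-/

set_option autoImplicit false

namespace Pool.Agent.Work.MP_9ac17e_al

/-! ### Values of coded polynomials -/

/-- The values of the variables as a function of natural numbers. -/
def ext0 {L : Type} [Field L] {k : ℕ} (x : Fin k → L) (t : ℕ) : L :=
  if h : t < k then x ⟨t, h⟩ else 0

theorem ext0_lt {L : Type} [Field L] {k : ℕ} (x : Fin k → L) {t : ℕ} (h : t < k) :
    ext0 x t = x ⟨t, h⟩ := dif_pos h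

/-- The value of a coded polynomial. -/
def cev {K C L : Type} [Field K] [Field L] [Algebra K L] (val : C → K) (X : ℕ → L) (r : Rel C) :
    L := (r.map (fun c => algebraMap K L (val c.1) * (c.2.map X).prod)).sum

theorem aeval_cvar {K L : Type} [Field K] [Field L] [Algebra K L] {k : ℕ} (x : Fin k → L)
    (t : ℕ) : MvPolynomial.aeval x (cvar K k t) = ext0 x t := by
  unfold cvar ext0
  split_ifs with h
  · rw [MvPolynomial.aeval_X]
  · rw [map_zero]

theorem aeval_csem {K C L : Type} [Field K] [Field L] [Algebra K L] (val : C → K) {k : ℕ}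
    (x : Fin k → L) (r : Rel C) :
    MvPolynomial.aeval x (csem val k r) = cev val (ext0 x) r := by
  unfold csem cev
  rw [map_list_sum, List.map_map]
  refine congrArg List.sum (List.map_congr_left (fun c _ => ?_))
  rw [Function.comp_apply, map_mul, MvPolynomial.aeval_C, map_list_prod, List.map_map]
  refine congrArg (fun y => algebraMap K L (val c.1) * List.prod y)
    (List.map_congr_left (fun t _ => ?_))
  exact aeval_cvar x t

section cev

variable {K C L : Type} [Field K] [Field L] [Algebra K L] (val : C → K) (X : ℕ → L)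

theorem cev_nil : cev val X [] = 0 := rfl

theorem cev_cons (c : C × List ℕ) (r : Rel C) :
    cev val X (c :: r) = algebraMap K L (val c.1) * (c.2.map X).prod + cev val X r := by
  unfold cev
  rw [List.map_cons, List.sum_cons]

theorem cev_append (r s : Rel C) : cev val X (r ++ s) = cev val X r + cev val X s := by
  unfold cev
  rw [List.map_append, List.sum_append]

theorem cev_range (f : ℕ → C × List ℕ) (n : ℕ) : cev val X ((List.range n).map f) =
    ∑ i : Fin n, algebraMap K L (val (f i).1) * ((f i).2.map X).prod := by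
  induction n with
  | zero => simp [cev]
  | succ n ih =>
    rw [List.range_succ, List.map_append, cev_append, ih, Fin.sum_univ_castSucc]
    simp [cev]

theorem cev_flatMap (f : ℕ → Rel C) (n : ℕ) : cev val X ((List.range n).flatMap f) =
    ∑ i : Fin n, cev val X (f i) := by
  induction n with
  | zero => simp [cev]
  | succ n ih =>
    rw [List.range_succ, List.flatMap_append, cev_append, ih, Fin.sum_univ_castSucc]
    simp

end cev

theorem forall_range (n : ℕ) (p : ℕ → Prop) :
    (∀ i ∈ List.range n, p i) ↔ ∀ i : Fin n, p i := by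
  constructor
  · intro h i
    exact h i (List.mem_range.2 i.2)
  · intro h i hi
    exact h ⟨i, List.mem_range.1 hi⟩

section coded

variable {K C : Type} [Field K] [Primcodable C] (N : NumF K C)

theorem primrec_csys : Primrec (csys N) := by
  unfold csys
  fun_prop

theorem entry_algebraMap {L : Type} [Field L] [Algebra K L] (l : List C) (i : ℕ) :
    entry (fun a => algebraMap K L (N.val a)) l i = algebraMap K L (N.val (N.ent l i)) := by
  unfold entry NumF.ent
  cases l[i]? with
  | none => simp [N.val_zero]
  | some c => rfl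

/-- The meaning of the system. -/
theorem csys_iff {L : Type} [Field L] [Algebra K L] (n : ℕ) (lc ld : List C) (X : ℕ → L) :
    (∀ r ∈ (csys N ((n, lc), (n, ld))).2, cev N.val X r = 0) ↔
      (∀ i k : Fin n, ∑ j : Fin n, X (i * n + j) * X (n * n + (j * n + k)) =
        if (i : ℕ) = k then 1 else 0) ∧
      (∀ i k : Fin n, ∑ j : Fin n, X (n * n + (i * n + j)) * X (j * n + k) =
        if (i : ℕ) = k then 1 else 0) ∧
      ∀ i j k : Fin n,
        ∑ l : Fin n, entry (fun a => algebraMap K L (N.val a)) lc ((i * n + j) * n + l) *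
          X (k * n + l) =
        ∑ a : Fin n, ∑ b : Fin n, entry (fun a => algebraMap K L (N.val a)) ld
          ((a * n + b) * n + k) * (X (a * n + i) * X (b * n + j)) := by
  unfold csys
  dsimp only
  simp only [List.forall_mem_append, List.forall_mem_flatMap, List.forall_mem_map, forall_range]
  refine and_congr ?_ (and_congr ?_ ?_)
  · refine forall_congr' (fun i => forall_congr' (fun k => ?_))
    rw [cev_cons, cev_range]
    simp only [N.val_neg, N.val_one, List.map_cons, List.map_nil, List.prod_cons, List.prod_nil,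
      mul_one, one_mul, map_one, map_neg, apply_ite N.val, N.val_zero, apply_ite (algebraMap K L),
      map_zero]
    rw [neg_add_eq_zero, eq_comm]
  · refine forall_congr' (fun i => forall_congr' (fun k => ?_))
    rw [cev_cons, cev_range]
    simp only [N.val_neg, N.val_one, List.map_cons, List.map_nil, List.prod_cons, List.prod_nil,
      mul_one, one_mul, map_one, map_neg, apply_ite N.val, N.val_zero, apply_ite (algebraMap K L),
      map_zero]
    rw [neg_add_eq_zero, eq_comm]
  · refine forall_congr' (fun i => forall_congr' (fun j => forall_congr' (fun k => ?_)))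
    rw [cev_append, cev_range, cev_flatMap]
    simp only [cev_range, N.val_neg, List.map_cons, List.map_nil, List.prod_cons, List.prod_nil,
      mul_one, map_neg, neg_mul, Finset.sum_neg_distrib, entry_algebraMap]
    rw [← sub_eq_add_neg, sub_eq_zero]

/-! ### Homomorphisms as matrices -/

theorem sum4 {L : Type} [Field L] {n : ℕ} (F : Fin n → Fin n → Fin n → Fin n → L) :
    ∑ a, ∑ b, ∑ i, ∑ j, F a b i j = ∑ i, ∑ j, ∑ a, ∑ b, F a b i j := by
  have h1 : ∀ a, ∑ b, ∑ i, ∑ j, F a b i j = ∑ i, ∑ j, ∑ b, F a b i j := by
    intro a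
    rw [Finset.sum_comm]
    exact Finset.sum_congr rfl (fun i _ => Finset.sum_comm)
  simp only [h1]
  rw [Finset.sum_comm]
  exact Finset.sum_congr rfl (fun i _ => Finset.sum_comm)

theorem mulVec_fdMul {C L : Type} [Field L] (val : C → L) (n : ℕ) (l : List C)
    (A : Matrix (Fin n) (Fin n) L) (x y : Fin n → L) (k : Fin n) :
    A.mulVec (fdMul val (n, l) x y) k = ∑ i, ∑ j, x i * y j *
      ∑ t : Fin n, entry val l ((i * n + j) * n + t) * A k t := by
  unfold Matrix.mulVec dotProduct fdMul
  simp only [Finset.mul_sum]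
  rw [Finset.sum_comm]
  refine Finset.sum_congr rfl (fun i _ => ?_)
  rw [Finset.sum_comm]
  refine Finset.sum_congr rfl (fun j _ => Finset.sum_congr rfl (fun t _ => ?_))
  ring

theorem fdMul_mulVec {C L : Type} [Field L] (val : C → L) (n : ℕ) (l : List C)
    (A : Matrix (Fin n) (Fin n) L) (x y : Fin n → L) (k : Fin n) :
    fdMul val (n, l) (A.mulVec x) (A.mulVec y) k = ∑ i, ∑ j, x i * y j *
      ∑ a : Fin n, ∑ b : Fin n, entry val l ((a * n + b) * n + k) * (A a i * A b j) := by
  unfold Matrix.mulVec dotProduct fdMul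
  have h1 : ∀ i j : Fin n, x i * y j * ∑ a : Fin n, ∑ b : Fin n,
      entry val l ((a * n + b) * n + k) * (A a i * A b j) =
      ∑ a : Fin n, ∑ b : Fin n, x i * y j *
        (entry val l ((a * n + b) * n + k) * (A a i * A b j)) := by
    intro i j
    simp only [Finset.mul_sum]
  simp only [h1]
  rw [← sum4 (fun a b i j : Fin n => x i * y j *
    (entry val l ((a * n + b) * n + k) * (A a i * A b j)))]
  refine Finset.sum_congr rfl (fun a _ => Finset.sum_congr rfl (fun b _ => ?_))
  rw [Finset.sum_mul_sum, Finset.mul_sum]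
  refine Finset.sum_congr rfl (fun i _ => ?_)
  rw [Finset.mul_sum]
  refine Finset.sum_congr rfl (fun j _ => ?_)
  ring

theorem sum_single_single {L : Type} [Field L] {n : ℕ} (i j : Fin n) (F : Fin n → Fin n → L) :
    ∑ a, ∑ b, (Pi.single i 1 : Fin n → L) a * (Pi.single j 1 : Fin n → L) b * F a b = F i j := by
  rw [Finset.sum_eq_single i, Finset.sum_eq_single j]
  · rw [Pi.single_eq_same, Pi.single_eq_same, one_mul, one_mul]
  · intro b _ hb
    rw [Pi.single_eq_of_ne hb, mul_zero, zero_mul]
  · simp
  · intro a _ ha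
    refine Finset.sum_eq_zero (fun b _ => ?_)
    rw [Pi.single_eq_of_ne ha, zero_mul, zero_mul]
  · simp

/-- A matrix gives a homomorphism iff it satisfies the equations. -/
theorem hom_iff {C L : Type} [Field L] (val : C → L) (n : ℕ) (lc ld : List C)
    (A : Matrix (Fin n) (Fin n) L) :
    (∀ x y, A.mulVec (fdMul val (n, lc) x y) = fdMul val (n, ld) (A.mulVec x) (A.mulVec y)) ↔
      ∀ i j k : Fin n, ∑ t : Fin n, entry val lc ((i * n + j) * n + t) * A k t =
        ∑ a : Fin n, ∑ b : Fin n, entry val ld ((a * n + b) * n + k) * (A a i * A b j) := by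
  constructor
  · intro h i j k
    have h1 := congrFun (h (Pi.single i 1) (Pi.single j 1)) k
    rw [mulVec_fdMul, fdMul_mulVec] at h1
    rw [sum_single_single i j (fun a b => ∑ t : Fin n,
      entry val lc ((a * n + b) * n + t) * A k t),
      sum_single_single i j (fun i j => ∑ a : Fin n, ∑ b : Fin n,
        entry val ld ((a * n + b) * n + k) * (A a i * A b j))] at h1
    exact h1
  · intro h x y
    funext k
    rw [mulVec_fdMul, fdMul_mulVec]
    exact Finset.sum_congr rfl (fun i _ => Finset.sum_congr rfl (fun j _ => by rw [h]))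

/-- The values of the variables for given matrices. -/
def varsOf {L : Type} {n : ℕ} (A B : Matrix (Fin n) (Fin n) L) (t : Fin (2 * (n * n))) : L :=
  if (finProdFinEquiv.symm t).1 = 0 then
    A (finProdFinEquiv.symm (finProdFinEquiv.symm t).2).1
      (finProdFinEquiv.symm (finProdFinEquiv.symm t).2).2
  else
    B (finProdFinEquiv.symm (finProdFinEquiv.symm t).2).1
      (finProdFinEquiv.symm (finProdFinEquiv.symm t).2).2

theorem ext0_varsOf_left {L : Type} [Field L] {n : ℕ} (A B : Matrix (Fin n) (Fin n) L)
    (i j : Fin n) : ext0 (varsOf A B) (i * n + j) = A i j := by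
  have h : (i : ℕ) * n + j = (finProdFinEquiv ((0 : Fin 2), finProdFinEquiv (i, j)) :
      Fin (2 * (n * n))) := by
    simp [finProdFinEquiv]
    ring
  rw [h, ext0_lt _ (Fin.is_lt _)]
  show varsOf A B (finProdFinEquiv ((0 : Fin 2), finProdFinEquiv (i, j))) = A i j
  unfold varsOf
  simp only [Equiv.symm_apply_apply, if_true]

theorem ext0_varsOf_right {L : Type} [Field L] {n : ℕ} (A B : Matrix (Fin n) (Fin n) L)
    (i j : Fin n) : ext0 (varsOf A B) (n * n + (i * n + j)) = B i j := by
  have h : n * n + ((i : ℕ) * n + j) = (finProdFinEquiv ((1 : Fin 2), finProdFinEquiv (i, j)) :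
      Fin (2 * (n * n))) := by
    simp [finProdFinEquiv]
    ring
  rw [h, ext0_lt _ (Fin.is_lt _)]
  show varsOf A B (finProdFinEquiv ((1 : Fin 2), finProdFinEquiv (i, j))) = B i j
  unfold varsOf
  simp only [Equiv.symm_apply_apply]
  rw [if_neg (by decide)]

theorem fdIso_iff_solv {L : Type} [Field L] [Algebra K L] (c d : FD C) :
    FDIso (fun a => algebraMap K L (N.val a)) c d ↔ c.1 = d.1 ∧ Solv N.val L (csys N (c, d)) := by
  classical
  obtain ⟨n, lc⟩ := c
  obtain ⟨n', ld⟩ := d
  constructor
  · rintro ⟨e, he⟩
    have hn : n = n' := by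
      have h := e.finrank_eq
      rwa [Module.finrank_fin_fun, Module.finrank_fin_fun] at h
    subst hn
    refine ⟨rfl, ?_⟩
    set A : Matrix (Fin n) (Fin n) L := LinearMap.toMatrix' e.toLinearMap with hA
    set B : Matrix (Fin n) (Fin n) L := LinearMap.toMatrix' e.symm.toLinearMap with hB
    have hAB : A * B = 1 := by
      rw [hA, hB, ← LinearMap.toMatrix'_comp, LinearEquiv.comp_symm, LinearMap.toMatrix'_id]
    have hBA : B * A = 1 := by
      rw [hA, hB, ← LinearMap.toMatrix'_comp, LinearEquiv.symm_comp, LinearMap.toMatrix'_id]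
    have hAv : ∀ x, A.mulVec x = e x := fun x => LinearMap.toMatrix'_mulVec _ _
    refine ⟨varsOf A B, ?_⟩
    have h := (csys_iff N n lc ld (ext0 (varsOf A B))).2 ?_
    · intro r hr
      exact (aeval_csem N.val (k := 2 * (n * n)) (varsOf A B) r).trans (h r hr)
    · refine ⟨fun i k => ?_, fun i k => ?_, ?_⟩
      · simp only [ext0_varsOf_left, ext0_varsOf_right]
        have h1 := congrFun (congrFun hAB i) k
        rw [Matrix.mul_apply, Matrix.one_apply] at h1
        rw [h1]
        simp only [Fin.ext_iff]
      · simp only [ext0_varsOf_left, ext0_varsOf_right]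
        have h1 := congrFun (congrFun hBA i) k
        rw [Matrix.mul_apply, Matrix.one_apply] at h1
        rw [h1]
        simp only [Fin.ext_iff]
      · simp only [ext0_varsOf_left]
        exact (hom_iff _ n lc ld A).1 (fun x y => by rw [hAv, hAv, hAv]; exact he x y)
  · rintro ⟨hn, x, hx⟩
    have hn' : n = n' := hn
    subst hn'
    have hx' : ∀ r ∈ (csys N ((n, lc), (n, ld))).2, cev N.val (ext0 x) r = 0 := by
      intro r hr
      rw [← aeval_csem]
      exact hx r hr
    obtain ⟨h1, h2, h3⟩ := (csys_iff N n lc ld (ext0 x)).1 hx'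
    set A : Matrix (Fin n) (Fin n) L := fun i j => ext0 x (i * n + j) with hA
    set B : Matrix (Fin n) (Fin n) L := fun i j => ext0 x (n * n + (i * n + j)) with hB
    have hAB : A * B = 1 := by
      ext i k
      rw [Matrix.mul_apply, Matrix.one_apply]
      simp only [Fin.ext_iff]
      exact h1 i k
    have hBA : B * A = 1 := by
      ext i k
      rw [Matrix.mul_apply, Matrix.one_apply]
      simp only [Fin.ext_iff]
      exact h2 i k
    have hom := (hom_iff (fun a => algebraMap K L (N.val a)) n lc ld A).2 h3
    refine ⟨Matrix.toLin'OfInv hBA hAB, fun u v => ?_⟩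
    have hv : ∀ w, Matrix.toLin'OfInv hBA hAB w = A.mulVec w := fun w => Matrix.toLin'_apply _ _
    rw [hv, hv, hv]
    exact hom u v

end coded

end Pool.Agent.Work.MP_9ac17e_al

end

section

/-!
# Membership of `1` in the ideal generated by coded polynomials is semi-decidable
-/

set_option autoImplicit false

namespace Pool.Agent.Work.MP_9ac17e_al

section coded

variable {K C : Type} [Field K] [Primcodable C] (N : NumF K C)

/-- The polynomial given by a certificate: a list of (coefficient and word, number of a
generator). -/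
def ccert (q : ℕ × List (Rel C)) (L : List ((C × List ℕ) × ℕ)) : Rel C :=
  L.flatMap (fun t => ctmul N t.1 (q.2.getD t.2 []))

theorem ccert_nil (q : ℕ × List (Rel C)) : ccert N q [] = [] := rfl

theorem ccert_cons (q : ℕ × List (Rel C)) (t : (C × List ℕ) × ℕ) (L : List ((C × List ℕ) × ℕ)) :
    ccert N q (t :: L) = ctmul N t.1 (q.2.getD t.2 []) ++ ccert N q L := rfl

theorem ccert_append (q : ℕ × List (Rel C)) (L L' : List ((C × List ℕ) × ℕ)) :
    ccert N q (L ++ L') = ccert N q L ++ ccert N q L' := List.flatMap_append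

theorem csem_ccert_mem (q : ℕ × List (Rel C)) (L : List ((C × List ℕ) × ℕ)) :
    csem N.val q.1 (ccert N q L) ∈ cidl N.val q := by
  induction L with
  | nil =>
    rw [ccert_nil, csem_nil]
    exact (cidl N.val q).zero_mem
  | cons t L ih =>
    rw [ccert_cons, csem_append, csem_ctmul]
    refine (cidl N.val q).add_mem ((cidl N.val q).mul_mem_left _ ?_) ih
    rw [List.getD_eq_getElem?_getD]
    cases h : q.2[t.2]? with
    | none =>
      show csem N.val q.1 [] ∈ _
      rw [csem_nil]
      exact (cidl N.val q).zero_mem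
    | some r =>
      show csem N.val q.1 r ∈ _
      exact Ideal.subset_span ⟨r, List.mem_of_getElem? h, rfl⟩

/-- Multiplication of a certificate by a term. -/
theorem csem_ccert_mul (q : ℕ × List (Rel C)) (c : C × List ℕ) (L : List ((C × List ℕ) × ℕ)) :
    csem N.val q.1 (ccert N q (L.map (fun t => ((N.mul c.1 t.1.1, c.2 ++ t.1.2), t.2)))) =
      MvPolynomial.C (N.val c.1) * (c.2.map (cvar K q.1)).prod *
        csem N.val q.1 (ccert N q L) := by
  induction L with
  | nil =>
    rw [List.map_nil, ccert_nil, csem_nil, mul_zero]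
  | cons t L ih =>
    rw [List.map_cons, ccert_cons, ccert_cons, csem_append, csem_append, ih, csem_ctmul,
      csem_ctmul, N.val_mul, List.map_append, List.prod_append, map_mul]
    ring

theorem csem_ccert_smul (hs : Function.Surjective N.val) (q : ℕ × List (Rel C))
    (f : MvPolynomial (Fin q.1) K) : ∀ L : List ((C × List ℕ) × ℕ),
      ∃ L', csem N.val q.1 (ccert N q L') = f * csem N.val q.1 (ccert N q L) := by
  induction f using MvPolynomial.induction_on with
  | C a =>
    intro L
    obtain ⟨c, rfl⟩ := hs a
    refine ⟨_, (csem_ccert_mul N q (c, []) L).trans ?_⟩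
    rw [List.map_nil, List.prod_nil, mul_one]
  | add f g hf hg =>
    intro L
    obtain ⟨L₁, h₁⟩ := hf L
    obtain ⟨L₂, h₂⟩ := hg L
    refine ⟨L₁ ++ L₂, ?_⟩
    rw [ccert_append, csem_append, h₁, h₂, add_mul]
  | mul_X f i hf =>
    intro L
    obtain ⟨L', h'⟩ := hf (L.map (fun t => ((N.mul (N.one, [(i : ℕ)]).1 t.1.1,
      (N.one, [(i : ℕ)]).2 ++ t.1.2), t.2)))
    refine ⟨L', h'.trans ?_⟩
    rw [csem_ccert_mul]
    have h1 : cvar K q.1 (i : ℕ) = MvPolynomial.X i := by
      unfold cvar
      rw [dif_pos i.2]
    rw [List.map_cons, List.map_nil, List.prod_cons, List.prod_nil, N.val_one, map_one, one_mul,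
      mul_one, h1, mul_assoc]

/-- The ideal of the values of certificates. -/
noncomputable def ccertIdeal (hs : Function.Surjective N.val) (q : ℕ × List (Rel C)) :
    Ideal (MvPolynomial (Fin q.1) K) where
  carrier := {x | ∃ L, csem N.val q.1 (ccert N q L) = x}
  add_mem' := by
    rintro _ _ ⟨L, rfl⟩ ⟨L', rfl⟩
    exact ⟨L ++ L', by rw [ccert_append, csem_append]⟩
  zero_mem' := ⟨[], by rw [ccert_nil, csem_nil]⟩
  smul_mem' := by
    rintro f _ ⟨L, rfl⟩
    exact csem_ccert_smul N hs q f L

theorem mem_cidl_iff (hs : Function.Surjective N.val) (q : ℕ × List (Rel C))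
    (x : MvPolynomial (Fin q.1) K) :
    x ∈ cidl N.val q ↔ ∃ L, csem N.val q.1 (ccert N q L) = x := by
  constructor
  · intro h
    have h1 : cidl N.val q ≤ ccertIdeal N hs q := by
      refine Ideal.span_le.2 ?_
      rintro _ ⟨r, hr, rfl⟩
      obtain ⟨i, hi, rfl⟩ := List.mem_iff_getElem.1 hr
      refine ⟨[((N.one, []), i)], ?_⟩
      rw [ccert_cons, ccert_nil, List.append_nil, csem_ctmul, List.map_nil, List.prod_nil,
        N.val_one, map_one, one_mul, one_mul, List.getD_eq_getElem _ _ hi]
    exact h1 h
  · rintro ⟨L, rfl⟩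
    exact csem_ccert_mem N q L

theorem csem_neg_one (k : ℕ) : csem N.val k [(N.neg N.one, [])] = -1 := by
  simp [csem, N.val_neg, N.val_one]

/-- Certificate: a list of (coefficient and word, number of a generator). -/
theorem sig_one_mem (hs : Function.Surjective N.val) :
    PR.Sig (fun q : ℕ × List (Rel C) => (1 : MvPolynomial (Fin q.1) K) ∈ cidl N.val q) := by
  obtain ⟨z, hz, hz'⟩ := exists_czero N
  have hcert : Primrec (fun x : (ℕ × List (Rel C)) × List ((C × List ℕ) × ℕ) =>
      ccert N x.1 x.2) := by
    unfold ccert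
    have h := @primrec_ctmul K C _ _ N
    refine PR.flatMap (f := fun (x : (ℕ × List (Rel C)) × List ((C × List ℕ) × ℕ))
      (t : (C × List ℕ) × ℕ) => ctmul N t.1 (x.1.2.getD t.2 [])) ?_ ?_
    · exact h (by fun_prop) (by fun_prop)
    · fun_prop
  have h : PR.Sig (fun x : (ℕ × List (Rel C)) × List ((C × List ℕ) × ℕ) =>
      z (x.1.1, ccert N x.1 x.2 ++ [(N.neg N.one, [])]) = true) :=
    PR.Sig.of_bool (hz.comp (Primrec.pair (by fun_prop) (PR.append hcert (by fun_prop))))
  refine h.ex.congr (fun q => ?_)
  rw [mem_cidl_iff N hs]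
  refine exists_congr (fun L => ?_)
  rw [hz', csem_append, csem_neg_one]
  constructor
  · intro h
    exact eq_of_sub_eq_zero (by rw [sub_eq_add_neg]; exact h)
  · intro h
    rw [h, add_neg_cancel]

end coded

end Pool.Agent.Work.MP_9ac17e_al

end
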